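import Mathlib

set_option autoImplicit false

/-!
H49C: cyclic covers `z ^ s = F (x)` of projective space with `K ≤ 0` are not pseudo-Brody hyperbolic.
Definitions.
-/

namespace Pool.Agent.H49C

/-- Two entire functions without common zeros and with nonconstant ratio: an entire curve in the
projective line. -/
structure Ent (X Y : ℂ → ℂ) : Prop where
  dX : Differentiable ℂ X
  dY : Differentiable ℂ Y
  nz : ∀ τ, X τ ≠ 0 ∨ Y τ ≠ 0
  nc : ∃ τ τ', X τ * Y τ' ≠ X τ' * Y τ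

/-- A linear change of coordinates. -/
theorem Ent.lin {X Y : ℂ → ℂ} (h : Ent X Y) {a b c d : ℂ} (hd : a * d - b * c ≠ 0) :
    Ent (fun τ => a * X τ + b * Y τ) (fun τ => c * X τ + d * Y τ) := by
  refine ⟨(h.dX.const_mul a).add (h.dY.const_mul b), (h.dX.const_mul c).add (h.dY.const_mul d),
    fun τ => ?_, ?_⟩
  · by_contra hcon
    push Not at hcon
    obtain ⟨h1, h2⟩ := hcon
    have e1 : (a * d - b * c) * X τ = 0 := by linear_combination d * h1 - b * h2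
    have e2 : (a * d - b * c) * Y τ = 0 := by linear_combination a * h2 - c * h1
    rcases h.nz τ with h3 | h3
    · exact h3 ((mul_eq_zero.1 e1).resolve_left hd)
    · exact h3 ((mul_eq_zero.1 e2).resolve_left hd)
  · obtain ⟨τ, τ', h1⟩ := h.nc
    refine ⟨τ, τ', fun h2 => h1 ?_⟩
    have e1 : (a * d - b * c) * (X τ * Y τ' - X τ' * Y τ) = 0 := by linear_combination h2
    exact sub_eq_zero.1 ((mul_eq_zero.1 e1).resolve_left hd)

/-- The quartic form of the Weierstrass curve `y ^ 2 = x ^ 3 + A x + B`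
(`x = Y / X`, `y = W / X ^ 2`, `W ^ 2 = qf A B X Y`). -/
def qf (A B X Y : ℂ) : ℂ := X * Y ^ 3 + A * X ^ 3 * Y + B * X ^ 4

/-- The numerator of `x (2 P)`; the denominator is `4 * qf = 4 * W ^ 2`. -/
def p1 (A B X Y : ℂ) : ℂ := Y ^ 4 - 2 * A * X ^ 2 * Y ^ 2 - 8 * B * X ^ 3 * Y + A ^ 2 * X ^ 4

/-- The numerator of `y (2 P)`. -/
def ps (A B X Y : ℂ) : ℂ := Y ^ 6 + 5 * A * X ^ 2 * Y ^ 4 + 20 * B * X ^ 3 * Y ^ 3 -
  5 * A ^ 2 * X ^ 4 * Y ^ 2 - 4 * A * B * X ^ 5 * Y - (A ^ 3 + 8 * B ^ 2) * X ^ 6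

/-- Duplication on the cone `W ^ 2 = qf A B X Y`. -/
def dbl (A B : ℂ) (p : ℂ × ℂ × ℂ) : ℂ × ℂ × ℂ :=
  (4 * p.2.2 ^ 2, p1 A B p.1 p.2.1, 2 * ps A B p.1 p.2.1 * p.2.2)

/-- The cone `W ^ 2 = qf A B X Y` without its vertex. -/
def cn (A B : ℂ) : Set (ℂ × ℂ × ℂ) :=
  {p | p.2.2 ^ 2 = qf A B p.1 p.2.1 ∧ (p.1 ≠ 0 ∨ p.2.1 ≠ 0)}

end Pool.Agent.H49C
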