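import Pool.Agent.Lib.H49C.D

set_option autoImplicit false

namespace Pool.Agent.H49C

/-- Chunk E2 (S). PROOF. Otherwise ε ‖X τ‖ ≤ ‖Y τ‖ for all τ (trivial if X τ = 0). Then Y has no zero (Y τ = 0 gives X τ = 0, against h.nz), so
g := X / Y is entire and bounded by 1/ε, hence constant by Liouville (Differentiable.apply_eq_apply_of_bounded), so X τ * Y τ' = X τ' * Y τ for all τ, τ',
against h.nc. -/
theorem ent_dense {X Y : ℂ → ℂ} (h : Ent X Y) {ε : ℝ} (hε : 0 < ε) :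
    ∃ τ, X τ ≠ 0 ∧ ‖Y τ / X τ‖ < ε := by
  by_contra hcon
  push Not at hcon
  have h1 : ∀ τ, ε * ‖X τ‖ ≤ ‖Y τ‖ := by
    intro τ
    by_cases hX : X τ = 0
    · rw [hX, norm_zero, mul_zero]
      exact norm_nonneg _
    · have h2 := hcon τ hX
      rw [norm_div, le_div_iff₀ (norm_pos_iff.2 hX)] at h2
      exact h2
  have hY : ∀ τ, Y τ ≠ 0 := by
    intro τ h2
    have h3 := h1 τ
    rw [h2, norm_zero] at h3
    have h4 : ‖X τ‖ ≤ 0 := by
      by_contra h5
      push Not at h5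
      have := mul_pos hε h5
      linarith
    have h5 : X τ = 0 := norm_le_zero_iff.1 h4
    rcases h.nz τ with h6 | h6
    · exact h6 h5
    · exact h6 h2
  have hg : Differentiable ℂ (fun τ => X τ / Y τ) := fun τ => (h.dX τ).div (h.dY τ) (hY τ)
  have hb : Bornology.IsBounded (Set.range (fun τ => X τ / Y τ)) := by
    rw [isBounded_iff_forall_norm_le]
    refine ⟨1 / ε, ?_⟩
    rintro _ ⟨τ, rfl⟩
    change ‖X τ / Y τ‖ ≤ 1 / ε
    rw [norm_div, div_le_div_iff₀ (norm_pos_iff.2 (hY τ)) hε, one_mul, mul_comm]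
    exact h1 τ
  obtain ⟨τ, τ', hn⟩ := h.nc
  have h2 := hg.apply_eq_apply_of_bounded hb τ τ'
  have h3 : X τ / Y τ = X τ' / Y τ' := h2
  rw [div_eq_div_iff (hY τ) (hY τ')] at h3
  exact hn h3

end Pool.Agent.H49C
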