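import Pool.Agent.Lib.H89T.DP4
import Pool.Agent.Lib.H49C.E2

set_option autoImplicit false

open MvPolynomial Filter Topology

namespace Pool.Agent.H49C

/-- Chunk M2 (M). A form g which does not vanish at (z, x) does not vanish identically on one of the conjugates of the curve.
w = (j, 1, ..., 1) on Fin (n + 2), the coordinate 0 is z. PROOF. Suppose g vanishes on all conjugates (ζ Z τ, X τ x + Y τ v), ζ^s = 1. ent_dense gives τ_k (k : ℕ) with X τ_k ≠ 0, t_k := Y τ_k / X τ_k, ‖t_k‖ < 1 / (k + 1), t_k → 0.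
f_k := eval (x + t_k • v) F = (Z τ_k / X τ_k^j)^s (F homogeneous of degree s j: eval (X • (x + t v)) F = X^(s j) ..) tends to eval x F = z^s ≠ 0. Let w_k := z * (f_k / z^s)^(1/s : ℂ) (cpow; principal branch, continuous at 1:
f_k / z^s → 1), so w_k^s = f_k (Complex.cpow_nat_inv_pow) and w_k → z. For k large f_k ≠ 0 (f_k → z^s), so w_k ≠ 0 and ζ_k := w_k X τ_k^j / Z τ_k satisfies ζ_k^s = 1. g vanishes at (ζ_k Z τ_k, X τ_k x + Y τ_k v) = act w (X τ_k) (w_k, x + t_k v), so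
(eval_act, X τ_k ≠ 0) eval (Fin.cons w_k (x + t_k • v)) g = 0 for large k; let k → ∞: eval (Fin.cons z x) g = 0 (MvPolynomial evaluation is continuous), contradiction. -/
theorem not_vanish {n s j : ℕ} (hs : 1 ≤ s) {F : MvPolynomial (Fin (n + 1)) ℂ}
    (hF : F.IsHomogeneous (s * j)) {x v : Fin (n + 1) → ℂ} {z : ℂ} (hz : z ≠ 0)
    (hxz : z ^ s = eval x F) {X Y Z : ℂ → ℂ} (hXY : Ent X Y)
    (hZ : ∀ τ, Z τ ^ s = eval (X τ • x + Y τ • v) F) {g : MvPolynomial (Fin (n + 2)) ℂ} {d : ℕ}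
    (hg : g.IsWeightedHomogeneous (Fin.cons j fun _ => 1 : Fin (n + 2) → ℕ) d)
    (hgx : eval (Fin.cons z x : Fin (n + 2) → ℂ) g ≠ 0) :
    ∃ ζ : ℂ, ζ ^ s = 1 ∧
      ∃ τ, eval (Fin.cons (ζ * Z τ) (X τ • x + Y τ • v) : Fin (n + 2) → ℂ) g ≠ 0 := by
  by_contra hcon
  push Not at hcon
  have hs0 : s ≠ 0 := by omega
  have hzs : z ^ s ≠ 0 := pow_ne_zero _ hz
  have hτ' : ∀ k : ℕ, ∃ τ, X τ ≠ 0 ∧ ‖Y τ / X τ‖ < 1 / ((k : ℝ) + 1) :=
    fun k => ent_dense hXY (by positivity)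
  choose τ hτ0 hτ using hτ'
  have ht : Tendsto (fun k => Y (τ k) / X (τ k)) atTop (𝓝 0) :=
    squeeze_zero_norm (fun k => (hτ k).le) tendsto_one_div_add_atTop_nhds_zero_nat
  have hy : Tendsto (fun k => x + (Y (τ k) / X (τ k)) • v) atTop (𝓝 x) := by
    have h1 := (tendsto_const_nhds (x := x)).add (ht.smul_const v)
    rwa [zero_smul, add_zero] at h1
  have hf : Tendsto (fun k => eval (x + (Y (τ k) / X (τ k)) • v) F) atTop (𝓝 (z ^ s)) := by
    rw [hxz]
    exact ((MvPolynomial.continuous_eval F).tendsto x).comp hy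
  have hw : Tendsto (fun k => z * (eval (x + (Y (τ k) / X (τ k)) • v) F / z ^ s) ^ ((s : ℂ)⁻¹)) atTop (𝓝 z) := by
    have h1 : Tendsto (fun k => eval (x + (Y (τ k) / X (τ k)) • v) F / z ^ s) atTop (𝓝 1) := by
      have h2 := hf.div_const (z ^ s)
      rwa [div_self hzs] at h2
    have h2 : ContinuousAt (fun x : ℂ => x ^ ((s : ℂ)⁻¹)) 1 := continuousAt_cpow_const Complex.one_mem_slitPlane
    have h3 := (h2.tendsto.comp h1).const_mul z
    simp only [Complex.one_cpow, mul_one] at h3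
    exact h3
  have hev := hf.eventually_ne hzs
  have key : ∀ᶠ k in atTop, eval (Fin.cons (z * (eval (x + (Y (τ k) / X (τ k)) • v) F / z ^ s) ^ ((s : ℂ)⁻¹))
      (x + (Y (τ k) / X (τ k)) • v) : Fin (n + 2) → ℂ) g = 0 := by
    filter_upwards [hev] with k hk
    have hXk := hτ0 k
    have e1 : X (τ k) • x + Y (τ k) • v = X (τ k) • (x + (Y (τ k) / X (τ k)) • v) := by
      rw [smul_add, smul_smul, mul_div_cancel₀ _ hXk]
    have e2 : eval (X (τ k) • (x + (Y (τ k) / X (τ k)) • v)) F = X (τ k) ^ (s * j) * eval (x + (Y (τ k) / X (τ k)) • v) F := by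
      have h1 := H89T.eval_act (w := (1 : Fin (n + 1) → ℕ)) hF (X (τ k)) (x + (Y (τ k) / X (τ k)) • v)
      rw [← h1]
      congr 1
      have h2 : X (τ k) • (x + (Y (τ k) / X (τ k)) • v) =
          H89T.act (1 : Fin (n + 1) → ℕ) (X (τ k)) (x + (Y (τ k) / X (τ k)) • v) := by
        funext i
        rw [H89T.act, Pi.one_apply, pow_one, Pi.smul_apply, smul_eq_mul]
      rw [h2]
    have hZk : Z (τ k) ^ s = X (τ k) ^ (s * j) * eval (x + (Y (τ k) / X (τ k)) • v) F := by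
      rw [hZ, e1, e2]
    have hZ0 : Z (τ k) ≠ 0 := by
      intro h0
      rw [h0, zero_pow hs0] at hZk
      exact mul_ne_zero (pow_ne_zero _ hXk) hk hZk.symm
    have e3 : (z * (eval (x + (Y (τ k) / X (τ k)) • v) F / z ^ s) ^ ((s : ℂ)⁻¹)) ^ s =
        eval (x + (Y (τ k) / X (τ k)) • v) F := by
      rw [mul_pow, Complex.cpow_nat_inv_pow _ hs0, mul_div_cancel₀ _ hzs]
    have h1 := hcon ((z * (eval (x + (Y (τ k) / X (τ k)) • v) F / z ^ s) ^ ((s : ℂ)⁻¹)) * X (τ k) ^ j / Z (τ k)) (by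
      rw [div_pow, mul_pow, e3, ← pow_mul, hZk, mul_comm j s, mul_comm]
      exact div_self (mul_ne_zero (pow_ne_zero _ hXk) hk)) (τ k)
    have e4 : (Fin.cons ((z * (eval (x + (Y (τ k) / X (τ k)) • v) F / z ^ s) ^ ((s : ℂ)⁻¹)) * X (τ k) ^ j / Z (τ k) * Z (τ k))
        (X (τ k) • x + Y (τ k) • v) : Fin (n + 2) → ℂ) =
        H89T.act (Fin.cons j fun _ => 1 : Fin (n + 2) → ℕ) (X (τ k))
          (Fin.cons (z * (eval (x + (Y (τ k) / X (τ k)) • v) F / z ^ s) ^ ((s : ℂ)⁻¹)) (x + (Y (τ k) / X (τ k)) • v)) := by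
      funext i
      refine Fin.cases ?_ (fun i => ?_) i
      · rw [H89T.act, Fin.cons_zero, Fin.cons_zero, Fin.cons_zero, div_mul_cancel₀ _ hZ0]
        ring
      · rw [H89T.act, Fin.cons_succ, Fin.cons_succ, Fin.cons_succ, e1, pow_one, Pi.smul_apply, smul_eq_mul]
    rw [e4, H89T.eval_act hg] at h1
    exact (mul_eq_zero.1 h1).resolve_left (pow_ne_zero _ hXk)
  have hlim : Tendsto (fun k => eval (Fin.cons (z * (eval (x + (Y (τ k) / X (τ k)) • v) F / z ^ s) ^ ((s : ℂ)⁻¹))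
      (x + (Y (τ k) / X (τ k)) • v) : Fin (n + 2) → ℂ) g) atTop (𝓝 (eval (Fin.cons z x : Fin (n + 2) → ℂ) g)) := by
    refine ((MvPolynomial.continuous_eval g).tendsto _).comp ?_
    rw [tendsto_pi_nhds]
    intro i
    refine Fin.cases ?_ (fun i => ?_) i
    · simp only [Fin.cons_zero]
      exact hw
    · simp only [Fin.cons_succ]
      exact (tendsto_pi_nhds.1 hy) i
  have h0 := tendsto_nhds_unique hlim (tendsto_const_nhds.congr' (by
    filter_upwards [key] with k hk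
    exact hk.symm))
  exact hgx h0

end Pool.Agent.H49C
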