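import Pool.Agent.Lib.H49C.M1
import Pool.Agent.Lib.H49C.M2

set_option autoImplicit false

open MvPolynomial

namespace Pool.Agent.H49C

theorem m3_mem {n s : ℕ} (F : MvPolynomial (Fin (n + 1)) ℂ) (z : ℂ) (x : Fin (n + 1) → ℂ) :
    (∀ G ∈ Ideal.span {X 0 ^ s - rename Fin.succ F}, eval (Fin.cons z x : Fin (n + 2) → ℂ) G = 0) ↔
      z ^ s = eval x F := by
  have h1 : eval (Fin.cons z x : Fin (n + 2) → ℂ) (X 0 ^ s - rename Fin.succ F) =
      z ^ s - eval x F := by
    rw [map_sub, map_pow, eval_X, Fin.cons_zero, eval_rename]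
    have : (Fin.cons z x : Fin (n + 2) → ℂ) ∘ Fin.succ = x := by
      funext i
      simp
    rw [this]
  constructor
  · intro h
    have := h _ (Ideal.subset_span rfl)
    rw [h1] at this
    exact sub_eq_zero.1 this
  · intro h G hG
    obtain ⟨A, rfl⟩ := Ideal.mem_span_singleton'.1 hG
    rw [map_mul, h1, sub_eq_zero.2 h, mul_zero]

theorem m3_zero {n k : ℕ} (hk : 1 ≤ k) {F : MvPolynomial (Fin (n + 1)) ℂ}
    (hF : F.IsHomogeneous k) : eval (0 : Fin (n + 1) → ℂ) F = 0 := by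
  rw [eval_eq']
  refine Finset.sum_eq_zero fun d hd => ?_
  have h1 := hF (mem_support_iff.1 hd)
  have h2 : ∃ i, d i ≠ 0 := by
    by_contra hcon
    push Not at hcon
    have : d = 0 := by ext i; simp [hcon i]
    rw [this] at h1
    simp at h1
    omega
  obtain ⟨i, hi⟩ := h2
  rw [Finset.prod_eq_zero (Finset.mem_univ i) (by simp [hi]), mul_zero]

/-- the case z ≠ 0 -/
theorem m3_one {n s j : ℕ} (hn : 1 ≤ n) (hs : 2 ≤ s) (hj : 1 ≤ j)
    (h : (s - 1) * j ≤ n ∨ (s = 2 ∨ s = 3 ∨ s = 4 ∨ s = 6) ∧ (s - 1) * j = n + 1)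
    {F : MvPolynomial (Fin (n + 1)) ℂ} (hF : F.IsHomogeneous (s * j))
    {T : Set (MvPolynomial (Fin (n + 2)) ℂ)}
    (hT : ∀ g ∈ T, ∃ d, g.IsWeightedHomogeneous (Fin.cons j fun _ => 1 : Fin (n + 2) → ℕ) d)
    (hall : ∀ u : ℂ → Fin (n + 2) → ℂ, (∀ i, Differentiable ℂ fun τ => u τ i) →
      (∀ τ, u τ ≠ 0 ∧ ∀ G ∈ Ideal.span {X 0 ^ s - rename Fin.succ F}, eval (u τ) G = 0) →
      (∃ τ τ', ∀ t : ℂ, u τ' ≠ Pool.Agent.H89T.act (Fin.cons j fun _ => 1) t (u τ)) →
      ∀ τ, ∀ g ∈ T, eval (u τ) g = 0)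
    {x : Fin (n + 1) → ℂ} {z : ℂ} (hz : z ≠ 0) (hxz : z ^ s = eval x F) :
    ∀ g ∈ T, eval (Fin.cons z x : Fin (n + 2) → ℂ) g = 0 := by
  intro g hg
  by_contra hgx
  obtain ⟨v, hv, X', Y', Z, hXY, hZd, hZ⟩ := exists_curve hn hs hj h hF hz hxz
  obtain ⟨d, hd⟩ := hT g hg
  obtain ⟨ζ, hζ, τ₀, hτ₀⟩ := not_vanish (by omega) hF hz hxz hXY hZ hd hgx
  refine hτ₀ (hall (fun τ => Fin.cons (ζ * Z τ) (X' τ • x + Y' τ • v)) ?_ ?_ ?_ τ₀ g hg)
  · intro i
    refine Fin.cases ?_ (fun i => ?_) i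
    · simp only [Fin.cons_zero]
      exact hZd.const_mul ζ
    · simp only [Fin.cons_succ, Pi.add_apply, Pi.smul_apply, smul_eq_mul]
      exact (hXY.dX.mul_const _).add (hXY.dY.mul_const _)
  · intro τ
    refine ⟨fun h0 => ?_, ?_⟩
    · have h1 : X' τ • x + Y' τ • v = 0 := by
        funext i
        have := congrFun h0 i.succ
        simpa using this
      obtain ⟨h2, h3⟩ := hv _ _ h1
      exact (hXY.nz τ).elim (fun h => h h2) (fun h => h h3)
    · rw [m3_mem, mul_pow, hζ, one_mul, hZ]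
  · obtain ⟨τ, τ', hne⟩ := hXY.nc
    refine ⟨τ, τ', fun t ht => hne ?_⟩
    have h1 : (X' τ' - t * X' τ) • x + (Y' τ' - t * Y' τ) • v = 0 := by
      funext i
      have := congrFun ht i.succ
      simp only [Fin.cons_succ, Pool.Agent.H89T.act, pow_one, Pi.add_apply, Pi.smul_apply,
        smul_eq_mul] at this
      simp only [Pi.add_apply, Pi.smul_apply, smul_eq_mul, Pi.zero_apply]
      linear_combination this
    obtain ⟨h2, h3⟩ := hv _ _ h1
    have h4 : X' τ' = t * X' τ := sub_eq_zero.1 h2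
    have h5 : Y' τ' = t * Y' τ := sub_eq_zero.1 h3
    rw [h4, h5]
    ring

/-- Chunk M3 (M). THE CONVERSE: if a set T of weighted homogeneous forms vanishes on all entire curves of the cyclic cover z^s = F (x), then it vanishes on the whole cover.
J = ideal of z^s - F, z = the coordinate 0. PROOF. Let y be a point of the cone, g ∈ T; y = Fin.cons z x, z^s = eval x F (eval of rename Fin.succ F at Fin.cons z x; membership in the span of one element: all elements of J vanish iff the generator does).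
x ≠ 0: if x = 0 then eval x F = 0 (s j ≥ 1), z = 0, y = 0.
(1) z ≠ 0. Suppose eval y g ≠ 0. exists_curve: v, X, Y, Z; not_vanish: ζ, τ with g ≠ 0 at u τ, u := Fin.cons (ζ * Z) (X • x + Y • v). u is differentiable, in the cone ((ζ Z)^s = Z^s = eval (..) F; ≠ 0 since X x + Y v = 0 gives X = Y = 0),
nonconstant: if u τ' = act w t (u τ) then X τ' • x + Y τ' • v = t • (X τ • x + Y τ • v), so X τ' = t X τ, Y τ' = t Y τ, X τ * Y τ' = X τ' * Y τ; so nc of Ent gives the points. hT: contradiction.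
(2) z = 0 (so eval x F = 0). F ≠ 0: choose x₁ with eval x₁ F ≠ 0 (MvPolynomial.funext). f t := eval (x + t • (x₁ - x)) F is a polynomial function of t, f 0 = 0, f 1 ≠ 0, so f t ≠ 0 for all small t ≠ 0 (finitely many zeros, or analytic identity theorem). For each such t choose
z_t with z_t^s = f t (‖z_t‖ = ‖f t‖^(1/s) → 0). By (1) g vanishes at Fin.cons z_t (x + t (x₁ - x)), which tends to y as t → 0 (along t = 1 / (k + 1)), so eval y g = 0 by continuity. -/
theorem conv {n s j : ℕ} (hn : 1 ≤ n) (hs : 2 ≤ s) (hj : 1 ≤ j)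
    (h : (s - 1) * j ≤ n ∨ (s = 2 ∨ s = 3 ∨ s = 4 ∨ s = 6) ∧ (s - 1) * j = n + 1)
    {F : MvPolynomial (Fin (n + 1)) ℂ} (hF : F.IsHomogeneous (s * j)) (hF0 : F ≠ 0)
    {T : Set (MvPolynomial (Fin (n + 2)) ℂ)}
    (hT : ∀ g ∈ T, ∃ d, g.IsWeightedHomogeneous (Fin.cons j fun _ => 1 : Fin (n + 2) → ℕ) d)
    (hall : ∀ u : ℂ → Fin (n + 2) → ℂ, (∀ i, Differentiable ℂ fun τ => u τ i) →
      (∀ τ, u τ ≠ 0 ∧ ∀ G ∈ Ideal.span {X 0 ^ s - rename Fin.succ F}, eval (u τ) G = 0) →
      (∃ τ τ', ∀ t : ℂ, u τ' ≠ Pool.Agent.H89T.act (Fin.cons j fun _ => 1) t (u τ)) →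
      ∀ τ, ∀ g ∈ T, eval (u τ) g = 0)
    {y : Fin (n + 2) → ℂ} (hy : y ≠ 0)
    (hyJ : ∀ G ∈ Ideal.span {X 0 ^ s - rename Fin.succ F}, eval y G = 0) :
    ∀ g ∈ T, eval y g = 0 := by
  obtain ⟨z, x, rfl⟩ : ∃ (z : ℂ) (x : Fin (n + 1) → ℂ), y = Fin.cons z x :=
    ⟨y 0, Fin.tail y, (Fin.cons_self_tail y).symm⟩
  have hxz := (m3_mem F z x).1 hyJ
  by_cases hz : z = 0
  swap
  · exact m3_one hn hs hj h hF hT hall hz hxz
  intro g hg
  -- a point where F does not vanish
  obtain ⟨x₁, hx₁⟩ : ∃ x₁, eval x₁ F ≠ 0 := by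
    by_contra hcon
    push Not at hcon
    exact hF0 (MvPolynomial.funext fun x => by rw [hcon x, map_zero])
  set f : ℂ → ℂ := fun t => eval (x + t • (x₁ - x)) F with hf
  have hfd : Differentiable ℂ f := by
    have h1 : f = fun t => eval (fun i => x i + t * (x₁ i - x i)) F := by
      funext t
      rw [hf]
      rfl
    rw [h1]
    have h2 : ∀ G : MvPolynomial (Fin (n + 1)) ℂ,
        Differentiable ℂ fun t : ℂ => eval (fun i => x i + t * (x₁ i - x i)) G := by
      intro G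
      induction G using MvPolynomial.induction_on with
      | C a => simp
      | add p q hp hq =>
        simp only [map_add]
        exact hp.add hq
      | mul_X p i hp =>
        simp only [map_mul, eval_X]
        exact hp.mul (by fun_prop)
    exact h2 F
  have hf1 : f 1 ≠ 0 := by
    rw [hf]
    simpa using hx₁
  have hev : ∀ᶠ t in nhdsWithin (0 : ℂ) {0}ᶜ, f t ≠ 0 := by
    by_contra hcon
    rw [Filter.not_eventually] at hcon
    have h2 : ∃ᶠ t in nhdsWithin (0 : ℂ) {0}ᶜ, f t = 0 := hcon.mono fun t ht => not_not.1 ht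
    have h3 := (hfd.differentiableOn (s := Set.univ)).analyticOnNhd isOpen_univ
    have h4 := h3.eqOn_zero_of_preconnected_of_frequently_eq_zero isPreconnected_univ
      (Set.mem_univ 0) h2
    exact hf1 (h4 (Set.mem_univ 1))
  have hs0 : s ≠ 0 := by omega
  have hroot : ∀ t : ℂ, ∃ w : ℂ, w ^ s = f t := fun t =>
    IsAlgClosed.exists_pow_nat_eq (f t) (by omega)
  choose w hw using hroot
  have hf0 : f 0 = 0 := by
    rw [hf]
    simp only [zero_smul, add_zero]
    rw [← hxz, hz, zero_pow hs0]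
  have hwlim : Filter.Tendsto w (nhds 0) (nhds 0) := by
    rw [tendsto_zero_iff_norm_tendsto_zero]
    have h1 : Filter.Tendsto (fun t => ‖f t‖) (nhds 0) (nhds 0) := by
      have := (hfd.continuous.norm).tendsto 0
      rwa [hf0, norm_zero] at this
    have h2 : (fun t => ‖w t‖) = fun t => ‖f t‖ ^ ((s : ℝ)⁻¹) := by
      funext t
      rw [← hw t, norm_pow, Real.pow_rpow_inv_natCast (norm_nonneg _) hs0]
    rw [h2]
    have h3 := h1.rpow_const (p := (s : ℝ)⁻¹) (Or.inr (by positivity))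
    rwa [Real.zero_rpow (by positivity)] at h3
  have hcont : Continuous fun p : ℂ × ℂ => eval (Fin.cons p.1 (x + p.2 • (x₁ - x)) : Fin (n + 2) → ℂ) g := by
    have h1 : Continuous fun q : Fin (n + 2) → ℂ => eval q g := MvPolynomial.continuous_eval g
    refine h1.comp ?_
    refine continuous_pi fun i => ?_
    refine Fin.cases ?_ (fun i => ?_) i
    · simp only [Fin.cons_zero]
      exact continuous_fst
    · simp only [Fin.cons_succ, Pi.add_apply, Pi.smul_apply, smul_eq_mul, Pi.sub_apply]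
      fun_prop
  have hlim : Filter.Tendsto (fun t : ℂ => eval (Fin.cons (w t) (x + t • (x₁ - x)) : Fin (n + 2) → ℂ) g)
      (nhdsWithin (0 : ℂ) {0}ᶜ) (nhds (eval (Fin.cons z x : Fin (n + 2) → ℂ) g)) := by
    have h1 := (hcont.tendsto (0, 0)).comp
      ((hwlim.mono_left nhdsWithin_le_nhds).prodMk_nhds
        (Filter.tendsto_id.mono_left (nhdsWithin_le_nhds (s := ({0} : Set ℂ)ᶜ))))
    simp only [zero_smul, add_zero] at h1
    rw [hz]
    exact h1
  have hzero : (fun t : ℂ => eval (Fin.cons (w t) (x + t • (x₁ - x)) : Fin (n + 2) → ℂ) g) =ᶠ[nhdsWithin (0 : ℂ) {0}ᶜ]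
      fun _ => 0 := by
    filter_upwards [hev] with t ht
    refine m3_one hn hs hj h hF hT hall ?_ (hw t) g hg
    intro h0
    apply ht
    rw [← hw t, h0, zero_pow hs0]
  exact tendsto_nhds_unique hlim (tendsto_const_nhds.congr' hzero.symm)

end Pool.Agent.H49C
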