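import Mathlib

set_option autoImplicit false

open MvPolynomial

namespace Pool.Agent.H49C

/-- The roots of a divisor of `X ^ s - a` are `z • α` with `z` complex. -/
theorem pr1_root {E : Type*} [Field E] [Algebra ℂ E] {s : ℕ} (hs : 1 ≤ s) {α ρ : E} (hα : α ≠ 0)
    (h : ρ ^ s = α ^ s) : ∃ z : ℂ, ρ = algebraMap ℂ E z * α := by
  haveI : NeZero s := ⟨by omega⟩
  have hp : IsPrimitiveRoot (algebraMap ℂ E (Complex.exp (2 * Real.pi * Complex.I / s))) s :=
    (Complex.isPrimitiveRoot_exp s (by omega)).map_of_injective (algebraMap ℂ E).injective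
  have h1 : (ρ / α) ^ s = 1 := by
    rw [div_pow, h, div_self (pow_ne_zero _ hα)]
  obtain ⟨i, -, hi⟩ := hp.eq_pow_of_pow_eq_one h1
  refine ⟨Complex.exp (2 * Real.pi * Complex.I / s) ^ i, ?_⟩
  rw [map_pow, hi, div_mul_cancel₀ _ hα]

theorem pr1_prod {E : Type*} [Field E] [Algebra ℂ E] {s : ℕ} (hs : 1 ≤ s) {α : E} (hα : α ≠ 0)
    (m : Multiset E) (h : ∀ ρ ∈ m, ρ ^ s = α ^ s) :
    ∃ z : ℂ, m.prod = algebraMap ℂ E z * α ^ m.card := by
  induction m using Multiset.induction_on with
  | empty => exact ⟨1, by simp⟩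
  | cons ρ m ih =>
    obtain ⟨z, hz⟩ := ih fun ρ hρ => h ρ (Multiset.mem_cons_of_mem hρ)
    obtain ⟨w, hw⟩ := pr1_root hs hα (h ρ (Multiset.mem_cons_self _ _))
    refine ⟨w * z, ?_⟩
    rw [Multiset.prod_cons, Multiset.card_cons, hz, hw, map_mul, pow_succ]
    ring

/-- Over a field containing `ℂ`. -/
theorem pr1_irr {K : Type*} [Field K] [Algebra ℂ K] {s : ℕ} (hs : 1 ≤ s) {a : K} (ha : a ≠ 0)
    (h : ∀ q : ℕ, 2 ≤ q → ∀ b : K, b ^ q ≠ a) :
    Irreducible (Polynomial.X ^ s - Polynomial.C a : Polynomial K) := by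
  classical
  have hmon : (Polynomial.X ^ s - Polynomial.C a : Polynomial K).Monic :=
    Polynomial.monic_X_pow_sub_C a (by omega)
  have hdeg : (Polynomial.X ^ s - Polynomial.C a : Polynomial K).natDegree = s :=
    Polynomial.natDegree_X_pow_sub_C
  rw [hmon.irreducible_iff_natDegree]
  refine ⟨fun h1 => ?_, fun A B hA hB hAB => ?_⟩
  · rw [h1, Polynomial.natDegree_one] at hdeg
    omega
  by_contra hcon
  push Not at hcon
  obtain ⟨hA0, hB0⟩ := hcon
  have hsum : A.natDegree + B.natDegree = s := by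
    rw [← hA.natDegree_mul hB, hAB, hdeg]
  let E := AlgebraicClosure K
  letI : Algebra ℂ E := ((algebraMap K E).comp (algebraMap ℂ K)).toAlgebra
  have htower : ∀ z : ℂ, algebraMap ℂ E z = algebraMap K E (algebraMap ℂ K z) := fun z => rfl
  obtain ⟨α, hα⟩ := IsAlgClosed.exists_pow_nat_eq (algebraMap K E a) (by omega : 0 < s)
  have hinj : Function.Injective (algebraMap K E) := (algebraMap K E).injective
  have hα0 : α ≠ 0 := by
    rintro rfl
    rw [zero_pow (by omega)] at hα
    exact ha ((map_eq_zero_iff _ hinj).1 hα.symm)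
  have hroots : ∀ ρ ∈ (A.map (algebraMap K E)).roots, ρ ^ s = α ^ s := by
    intro ρ hρ
    have h1 := (Polynomial.mem_roots'.1 hρ).2
    have h2 : ((A * B).map (algebraMap K E)).eval ρ = 0 := by
      rw [Polynomial.map_mul, Polynomial.eval_mul, Polynomial.IsRoot.def.1 h1, zero_mul]
    rw [hAB, Polynomial.map_sub, Polynomial.map_pow, Polynomial.map_X, Polynomial.map_C,
      Polynomial.eval_sub, Polynomial.eval_pow, Polynomial.eval_X, Polynomial.eval_C,
      sub_eq_zero] at h2
    rw [h2, hα]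
  obtain ⟨z, hz⟩ := pr1_prod hs hα0 _ hroots
  have hsp : (A.map (algebraMap K E)).Splits := IsAlgClosed.splits _
  have hAm : (A.map (algebraMap K E)).Monic := hA.map _
  have hcoeff := hsp.coeff_zero_eq_prod_roots_of_monic hAm
  have hcard : (A.map (algebraMap K E)).roots.card = A.natDegree := by
    rw [← hsp.natDegree_eq_card_roots, Polynomial.natDegree_map]
  rw [hz, hcard, Polynomial.natDegree_map, Polynomial.coeff_map, htower] at hcoeff
  have hz0 : z ≠ 0 := by
    rintro rfl
    rw [map_zero, zero_mul] at hz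
    have h0 : (0 : E) ∈ (A.map (algebraMap K E)).roots := Multiset.prod_eq_zero_iff.1 hz
    have h1 := hroots 0 h0
    rw [zero_pow (by omega)] at h1
    exact pow_ne_zero _ hα0 h1.symm
  have hz0' : algebraMap K E (algebraMap ℂ K z) ≠ 0 := by
    rw [Ne, map_eq_zero_iff _ hinj, map_eq_zero_iff _ (algebraMap ℂ K).injective]
    exact hz0
  let F0 : Subfield E := (algebraMap K E).fieldRange
  have hmemK : ∀ x : K, algebraMap K E x ∈ F0 := fun x => ⟨x, rfl⟩
  have hd : α ^ A.natDegree ∈ F0 := by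
    have h1 : α ^ A.natDegree = (algebraMap K E (A.coeff 0)) * ((-1) ^ A.natDegree)⁻¹ *
        (algebraMap K E (algebraMap ℂ K z))⁻¹ := by
      rw [hcoeff]
      have h2 : ((-1 : E) ^ A.natDegree) ≠ 0 := pow_ne_zero _ (by norm_num)
      rw [eq_mul_inv_iff_mul_eq₀ hz0', eq_mul_inv_iff_mul_eq₀ h2]
      ring
    rw [h1]
    refine F0.mul_mem (F0.mul_mem (hmemK _) (F0.inv_mem ?_)) (F0.inv_mem (hmemK _))
    exact F0.pow_mem (F0.neg_mem F0.one_mem) _
  have hss : α ^ s ∈ F0 := by rw [hα]; exact hmemK a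
  set g := Nat.gcd A.natDegree s with hg
  have hgmem : α ^ g ∈ F0 := by
    have h1 : α ^ g = (α ^ A.natDegree) ^ (Nat.gcdA A.natDegree s) *
        (α ^ s) ^ (Nat.gcdB A.natDegree s) := by
      rw [← zpow_natCast α A.natDegree, ← zpow_natCast α s, ← zpow_mul, ← zpow_mul,
        ← zpow_add₀ hα0, ← Nat.gcd_eq_gcd_ab, zpow_natCast]
    rw [h1]
    exact F0.mul_mem (F0.zpow_mem hd _) (F0.zpow_mem hss _)
  obtain ⟨b, hb⟩ := hgmem
  have hgs : g ∣ s := Nat.gcd_dvd_right _ _
  obtain ⟨q, hq⟩ := hgs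
  have hgle : g ≤ A.natDegree := Nat.gcd_le_left _ (by omega)
  have hq2 : 2 ≤ q := by
    by_contra hlt
    push Not at hlt
    have h1 : q = 0 ∨ q = 1 := by omega
    rcases h1 with rfl | rfl
    · omega
    · omega
  refine h q hq2 b (hinj ?_)
  rw [map_pow, ← hα]
  rw [show (algebraMap K E) b = α ^ g from hb, ← pow_mul, ← hq]

/-- The polynomial is prime over the base ring. -/
theorem pr1_prime {R : Type*} [CommRing R] [IsDomain R] [UniqueFactorizationMonoid R]
    [Algebra ℂ R] {s : ℕ} (hs : 1 ≤ s) {F : R} (h : ∀ q : ℕ, 2 ≤ q → ∀ G : R, G ^ q ≠ F) :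
    Prime (Polynomial.X ^ s - Polynomial.C F : Polynomial R) := by
  classical
  have hF0 : F ≠ 0 := by
    rintro rfl
    exact h 2 le_rfl 0 (by simp)
  have hmon : (Polynomial.X ^ s - Polynomial.C F : Polynomial R).Monic :=
    Polynomial.monic_X_pow_sub_C F (by omega)
  refine Irreducible.prime ?_
  rw [hmon.irreducible_iff_irreducible_map_fraction_map (K := FractionRing R)]
  rw [Polynomial.map_sub, Polynomial.map_pow, Polynomial.map_X, Polynomial.map_C]
  letI : Algebra ℂ (FractionRing R) :=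
    ((algebraMap R (FractionRing R)).comp (algebraMap ℂ R)).toAlgebra
  have hinj : Function.Injective (algebraMap R (FractionRing R)) :=
    IsFractionRing.injective R (FractionRing R)
  refine pr1_irr hs ?_ fun q hq b hb => ?_
  · rw [Ne, map_eq_zero_iff _ hinj]
    exact hF0
  · have h1 : IsIntegral R (b ^ q) := by
      rw [hb]
      exact isIntegral_algebraMap
    obtain ⟨G, hG⟩ := IsIntegrallyClosed.exists_algebraMap_eq_of_isIntegral_pow (by omega) h1
    refine h q hq G (hinj ?_)
    rw [map_pow, hG, hb]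

/-- Chunk PR1 (M, only Mathlib). The cyclic cover is a variety if F is no perfect power.
PROOF. Transport by finSuccEquiv ℂ (n + 1) : MvPolynomial (Fin (n + 2)) ℂ ≃ₐ Polynomial (MvPolynomial (Fin (n + 1)) ℂ): X 0 ↦ Polynomial.X, rename Fin.succ F ↦ Polynomial.C F (finSuccEquiv_rename_finSuccEquiv or
finSuccEquiv_comp_C / induction; search finSuccEquiv_X_succ, and compare algebra homs by MvPolynomial.algHom_ext), so the ideal is the preimage of span {X^s - C F} (Ideal.map_span, Ideal.comap / map_isPrime_of_equiv).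
The ring R = MvPolynomial (Fin (n + 1)) ℂ is a UFD, R[X] is a UFD: it is enough that X^s - C F is irreducible in R[X] (then prime, Ideal.span_singleton_prime). It is monic, R is integrally closed:
Polynomial.Monic.irreducible_iff_irreducible_map_fraction_map reduces to K = FractionRing R: X^s - C (F : K) irreducible. Mathlib has this only for s odd or prime, so directly: suppose X^s - C F = A * B with A, B monic
(or make them monic) of degrees a, b ≥ 1, a + b = s, over K. In the algebraic closure E of K let α^s = F, α ≠ 0 (F ≠ 0: F = 0 would be 0^2). Every root ρ of A satisfies ρ^s = F, so (ρ / α)^s = 1 and ρ / α is the image of a complex s-th root of unity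
(IsPrimitiveRoot.eq_pow_of_pow_eq_one for the image of Complex.isPrimitiveRoot_exp s under ℂ → R → K → E, injective). The constant coefficient of A is ± the product of its a roots (A splits in E:
Polynomial.prod_roots_eq_coeff_zero_of_monic_of_splits or its like) = ± ζ α^a, ζ a root of unity in K, so α^a ∈ K. With g = gcd a s < s: α^g = (α^a)^m (α^s)^l ∈ K (Bezout, α ≠ 0: use the subgroup / intermediate field ⊥, or
Nat.gcd_eq_gcd_ab with zpow), so F = (α^g)^q with q = s / g ≥ 2, α^g = b ∈ K. b^q = F, so b is integral over R (IsIntegrallyClosed.exists_algebraMap_eq_of_isIntegral_pow), b = image of G, G^q = F, contradiction to h. -/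
theorem cyc_prime {n s : ℕ} (hs : 1 ≤ s) {F : MvPolynomial (Fin (n + 1)) ℂ}
    (h : ∀ q : ℕ, 2 ≤ q → ∀ G : MvPolynomial (Fin (n + 1)) ℂ, G ^ q ≠ F) :
    (Ideal.span {X 0 ^ s - rename Fin.succ F} : Ideal (MvPolynomial (Fin (n + 2)) ℂ)).IsPrime := by
  classical
  have key : ∀ F : MvPolynomial (Fin (n + 1)) ℂ,
      finSuccEquiv ℂ (n + 1) (rename Fin.succ F) = Polynomial.C F := by
    intro F
    induction F using MvPolynomial.induction_on with
    | C a =>
      rw [rename_C]
      exact (finSuccEquiv ℂ (n + 1)).commutes a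
    | add p q hp hq => rw [map_add, map_add, map_add, hp, hq]
    | mul_X p i hp => rw [map_mul, map_mul, map_mul, rename_X, finSuccEquiv_X_succ, hp]
  have h1 : finSuccEquiv ℂ (n + 1) (X 0 ^ s - rename Fin.succ F) =
      Polynomial.X ^ s - Polynomial.C F := by
    rw [map_sub, map_pow, finSuccEquiv_X_zero, key]
  have h2 : Prime (X 0 ^ s - rename Fin.succ F : MvPolynomial (Fin (n + 2)) ℂ) := by
    refine (MulEquiv.prime_iff (finSuccEquiv ℂ (n + 1))).1 ?_
    rw [h1]
    exact pr1_prime hs h
  exact (Ideal.span_singleton_prime h2.ne_zero).2 h2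

end Pool.Agent.H49C
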