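import Mathlib

set_option autoImplicit false

open MvPolynomial

namespace Pool.Agent.H49C

/-- The coefficient of `T ^ i` in `(∑ g_l T ^ l) ^ q`, `l ≤ e`. -/
noncomputable def powCoeff (e q i : ℕ) : MvPolynomial (Fin (e + 1)) ℂ :=
  (((∑ l : Fin (e + 1), Polynomial.C (X l) * Polynomial.X ^ (l : ℕ)) ^ q :
    Polynomial (MvPolynomial (Fin (e + 1)) ℂ))).coeff i

/-- Chunk PR2A (S/M, only Mathlib). More polynomials than variables are algebraically dependent. PROOF. If P were algebraically independent, then card (Fin (k + 1)) ≤ trdeg of MvPolynomial (Fin (e + 1)) ℂ = e + 1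
(AlgebraicIndependent.cardinalMk_le_trdeg / lift version, MvPolynomial.trdeg_of_isDomain or trdeg_le), contradiction. -/
theorem alg_dep {e k : ℕ} (h : e < k) (P : Fin (k + 1) → MvPolynomial (Fin (e + 1)) ℂ) :
    ∃ Θ : MvPolynomial (Fin (k + 1)) ℂ, Θ ≠ 0 ∧ aeval P Θ = 0 := by
  by_contra hcon
  push Not at hcon
  have hind : AlgebraicIndependent ℂ P := by
    rw [algebraicIndependent_iff]
    intro p hp
    by_contra h0
    exact hcon p h0 hp
  have h1 := hind.lift_cardinalMk_le_trdeg
  rw [MvPolynomial.trdeg_of_isDomain] at h1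
  simp only [Cardinal.mk_fin, Cardinal.lift_natCast, Nat.cast_le] at h1
  omega

/-- The monomial `x_0 ^ (k - i) x_1 ^ i`. -/
noncomputable def mono2 {n : ℕ} (hn : 1 ≤ n) (k i : ℕ) : Fin (n + 1) →₀ ℕ :=
  Finsupp.single 0 (k - i) + Finsupp.single ⟨1, by omega⟩ i

theorem pr2_0 {n : ℕ} (hn : 1 ≤ n) (k i : ℕ) : mono2 hn k i 0 = k - i := by
  rw [mono2, Finsupp.add_apply, Finsupp.single_eq_same, Finsupp.single_eq_of_ne, add_zero]
  intro h
  have := congrArg Fin.val h
  simp at this

theorem pr2_1 {n : ℕ} (hn : 1 ≤ n) (k i : ℕ) : mono2 hn k i ⟨1, by omega⟩ = i := by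
  rw [mono2, Finsupp.add_apply, Finsupp.single_eq_same, Finsupp.single_eq_of_ne, zero_add]
  intro h
  have := congrArg Fin.val h
  simp at this

theorem pr2_2 {n : ℕ} (hn : 1 ≤ n) (k i : ℕ) {l : Fin (n + 1)} (h0 : l ≠ 0) (h1 : l ≠ ⟨1, by omega⟩) :
    mono2 hn k i l = 0 := by
  rw [mono2, Finsupp.add_apply, Finsupp.single_eq_of_ne h0, Finsupp.single_eq_of_ne h1, add_zero]

theorem pr2_deg {n : ℕ} (hn : 1 ≤ n) (k i : ℕ) : (mono2 hn k i).degree = k - i + i := by
  rw [mono2, map_add, Finsupp.degree_single, Finsupp.degree_single]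

/-- The specialization. -/
noncomputable def pr2v (n : ℕ) (hn : 1 ≤ n) (l : Fin (n + 1)) : Polynomial ℂ :=
  if l = 0 then 1 else if l = ⟨1, by omega⟩ then Polynomial.X else 0

theorem pr2_mon {n : ℕ} (hn : 1 ≤ n) {k : ℕ} (d : Fin (n + 1) →₀ ℕ) (hd : d.degree = k) (i : ℕ) :
    (∏ l, pr2v n hn l ^ d l).coeff i = if d = mono2 hn k i then 1 else 0 := by
  have h01 : (⟨1, by omega⟩ : Fin (n + 1)) ≠ 0 := by
    intro h
    have := congrArg Fin.val h
    simp at this
  by_cases h : ∃ l, l ≠ 0 ∧ l ≠ ⟨1, by omega⟩ ∧ d l ≠ 0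
  · obtain ⟨l, h0, h1, h2⟩ := h
    rw [Finset.prod_eq_zero (Finset.mem_univ l), Polynomial.coeff_zero, if_neg]
    · intro h3
      rw [h3, pr2_2 hn k i h0 h1] at h2
      exact h2 rfl
    · rw [pr2v, if_neg h0, if_neg h1, zero_pow h2]
  · push Not at h
    have h3 : ∏ l, pr2v n hn l ^ d l = Polynomial.X ^ d ⟨1, by omega⟩ := by
      rw [Finset.prod_eq_single (⟨1, by omega⟩ : Fin (n + 1))]
      · rw [pr2v, if_neg h01, if_pos rfl]
      · intro l _ hl
        by_cases h0 : l = 0
        · rw [pr2v, if_pos h0, one_pow]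
        · rw [h l h0 hl, pow_zero]
      · intro h4
        exact absurd (Finset.mem_univ _) h4
    rw [h3, Polynomial.coeff_X_pow]
    have h4 : k = d 0 + d ⟨1, by omega⟩ := by
      rw [← hd, Finsupp.degree_eq_sum]
      refine Finset.sum_eq_add (0 : Fin (n + 1)) ⟨1, by omega⟩ h01.symm ?_ ?_ ?_
      · intro l _ hl
        exact h l hl.1 hl.2
      · intro h5
        exact absurd (Finset.mem_univ _) h5
      · intro h5
        exact absurd (Finset.mem_univ _) h5
    refine if_congr ?_ rfl rfl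
    constructor
    · intro h5
      ext l
      by_cases h0 : l = 0
      · rw [h0, pr2_0]
        omega
      · by_cases h1 : l = ⟨1, by omega⟩
        · rw [h1, pr2_1]
          exact h5.symm
        · rw [pr2_2 hn k i h0 h1, h l h0 h1]
    · intro h5
      rw [h5, pr2_1]

theorem pr2_coeff {n : ℕ} (hn : 1 ≤ n) {k : ℕ} {F : MvPolynomial (Fin (n + 1)) ℂ} (hF : F.IsHomogeneous k)
    (i : ℕ) : (aeval (pr2v n hn) F).coeff i = coeff (mono2 hn k i) F := by
  rw [aeval_def, eval₂_eq', Polynomial.finsetSum_coeff]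
  have h1 : ∀ d ∈ F.support, ((algebraMap ℂ (Polynomial ℂ)) (coeff d F) * ∏ l, pr2v n hn l ^ d l).coeff i =
      if d = mono2 hn k i then coeff d F else 0 := by
    intro d hd
    have h2 : d.degree = k := by
      by_contra h3
      exact (mem_support_iff.1 hd) (hF.coeff_eq_zero h3)
    rw [Polynomial.algebraMap_eq, Polynomial.coeff_C_mul, pr2_mon hn d h2 i]
    split_ifs
    · rw [mul_one]
    · rw [mul_zero]
  rw [Finset.sum_congr rfl h1, Finset.sum_ite_eq']
  split_ifs with h2
  · rfl
  · exact (notMem_support_iff.1 h2).symm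

/-- Chunk PR2B (M, only Mathlib). The generic form of degree k ≥ 1 in at least two variables is no q-th power, q ≥ 2.
PROOF. e = k / q < k (q ≥ 2, k ≥ 1). Θ0 from alg_dep for P i = powCoeff e q i; Θ := rename (fun i : Fin (k + 1) => mono2 hn k i) Θ0.
(1) Θ0 ≠ 0: MvPolynomial.funext gives c with eval c Θ0 ≠ 0; F := ∑ i, monomial (mono2 hn k i) (c i) is homogeneous of degree k and coeff (mono2 hn k i) F = c i (mono2 injective for i ≤ k), eval_rename.
(2) Let F be homogeneous of degree k, G^q = F. Let f, g : ℂ[T] be the images of F, G under aeval (x_0 ↦ 1, x_1 ↦ Polynomial.X, others ↦ 0), g^q = f; coefficient i of f is coeff (mono2 hn k i) F for i ≤ k (F homogeneous: only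
monomials x_0^(k-i) x_1^i survive; others have a factor x_l, l ≥ 2) and natDegree f ≤ k. If f ≠ 0: q natDegree g = natDegree f ≤ k so natDegree g ≤ e; if f = 0 then g = 0. So g = ∑ l ≤ e, g.coeff l T^l and
coeff i f = coeff i (g^q) = eval (fun l => g.coeff l) (powCoeff e q i) (Polynomial.coeff_map, map of the power), so eval (fun d => coeff d F) Θ = eval (coeffs of g) (aeval P Θ0) = 0. -/
theorem gen_not_pow {n k q : ℕ} (hn : 1 ≤ n) (hk : 1 ≤ k) (hq : 2 ≤ q) :
    ∃ Θ : MvPolynomial (Fin (n + 1) →₀ ℕ) ℂ,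
      (∃ F : MvPolynomial (Fin (n + 1)) ℂ, F.IsHomogeneous k ∧ eval (fun d => coeff d F) Θ ≠ 0) ∧
      ∀ F : MvPolynomial (Fin (n + 1)) ℂ, F.IsHomogeneous k → eval (fun d => coeff d F) Θ ≠ 0 →
        ∀ G : MvPolynomial (Fin (n + 1)) ℂ, G ^ q ≠ F := by
  have hek : k / q < k := Nat.div_lt_self (by omega) (by omega)
  obtain ⟨Θ0, hΘ0, hP⟩ := alg_dep hek (fun i : Fin (k + 1) => powCoeff (k / q) q i)
  refine ⟨rename (fun i : Fin (k + 1) => mono2 hn k i) Θ0, ?_, ?_⟩
  · have hc : ∃ c : Fin (k + 1) → ℂ, eval c Θ0 ≠ 0 := by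
      by_contra hcon
      push Not at hcon
      exact hΘ0 (MvPolynomial.funext fun c => by rw [hcon c, map_zero])
    obtain ⟨c, hc⟩ := hc
    refine ⟨∑ i : Fin (k + 1), monomial (mono2 hn k i) (c i), ?_, ?_⟩
    · refine IsHomogeneous.sum _ _ _ fun i _ => isHomogeneous_monomial _ ?_
      rw [pr2_deg]
      omega
    · rw [eval_rename]
      have h1 : ((fun d => coeff d (∑ i : Fin (k + 1), monomial (mono2 hn k i) (c i))) ∘
          fun i : Fin (k + 1) => mono2 hn k i) = c := by
        funext i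
        simp only [Function.comp_apply, coeff_sum, coeff_monomial]
        rw [Finset.sum_eq_single i]
        · rw [if_pos rfl]
        · intro i' _ hne
          rw [if_neg]
          intro h2
          have h3 := congrArg (fun d : Fin (n + 1) →₀ ℕ => d ⟨1, by omega⟩) h2
          simp only [pr2_1] at h3
          exact hne (Fin.ext h3)
        · intro h2
          exact absurd (Finset.mem_univ _) h2
      rw [h1]
      exact hc
  · intro F hF hΘ G hG
    apply hΘ
    have hgf : aeval (pr2v n hn) G ^ q = aeval (pr2v n hn) F := by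
      rw [← map_pow, hG]
    have hdf : (aeval (pr2v n hn) F).natDegree ≤ k := by
      rw [Polynomial.natDegree_le_iff_coeff_eq_zero]
      intro N hN
      rw [pr2_coeff hn hF]
      refine hF.coeff_eq_zero ?_
      rw [pr2_deg]
      omega
    have hdg : (aeval (pr2v n hn) G).natDegree ≤ k / q := by
      rw [← hgf, Polynomial.natDegree_pow] at hdf
      rw [Nat.le_div_iff_mul_le (by omega), mul_comm]
      exact hdf
    have hg : ∑ l : Fin (k / q + 1), Polynomial.C ((aeval (pr2v n hn) G).coeff l) * Polynomial.X ^ (l : ℕ) =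
        aeval (pr2v n hn) G := by
      rw [Fin.sum_univ_eq_sum_range (fun l => Polynomial.C ((aeval (pr2v n hn) G).coeff l) * Polynomial.X ^ l)]
      exact (Polynomial.as_sum_range_C_mul_X_pow' _ (by omega)).symm
    have hcf : ∀ i : ℕ, coeff (mono2 hn k i) F =
        eval (fun l : Fin (k / q + 1) => (aeval (pr2v n hn) G).coeff l) (powCoeff (k / q) q i) := by
      intro i
      rw [← pr2_coeff hn hF i, ← hgf, powCoeff, ← Polynomial.coeff_map, Polynomial.map_pow, Polynomial.map_sum]
      congr 2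
      rw [← hg]
      refine Finset.sum_congr rfl fun l _ => ?_
      rw [Polynomial.map_mul, Polynomial.map_C, Polynomial.map_pow, Polynomial.map_X, eval_X, hg]
    rw [eval_rename]
    have h1 : ((fun d => coeff d F) ∘ fun i : Fin (k + 1) => mono2 hn k i) = fun i : Fin (k + 1) =>
        aeval (fun l : Fin (k / q + 1) => (aeval (pr2v n hn) G).coeff l) (powCoeff (k / q) q i) := by
      funext i
      rw [Function.comp_apply, hcf i, ← aeval_eq_eval]
    rw [h1]
    have h2 := congrArg (aeval (fun l : Fin (k / q + 1) => (aeval (pr2v n hn) G).coeff l)) hP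
    rw [comp_aeval_apply, map_zero] at h2
    rw [← h2, ← aeval_eq_eval]

end Pool.Agent.H49C
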