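import Pool.Agent.Lib.H89T.DP4

set_option autoImplicit false

open MvPolynomial

namespace Pool.Agent.H49C

/-- Chunk PR3 (S/M). The ideal of z^s - F is weighted homogeneous. PROOF. A ∈ J: A = B * G, G = X 0^s - rename Fin.succ F weighted homogeneous of weight s j (X 0 has weight j; rename of a form of degree s j in variables of weight 1:
IsWeightedHomogeneous of rename: compare monomials, or IsHomogeneous.rename and the weights). Write B as the finite sum of its components B_e (sum_weightedHomogeneousComponent); the component of weight d of B_e G is B_e G if e + s j = d and 0 otherwise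
(weightedHomogeneousComponent_of_mem / weightedHomogeneousComponent_of_isWeightedHomogeneous_same / _ne), all in J; sums (map_finsum / Finset.sum) of elements of J. -/
theorem cyc_homog {n s j : ℕ} {F : MvPolynomial (Fin (n + 1)) ℂ} (hF : F.IsHomogeneous (s * j)) :
    ∀ A ∈ (Ideal.span {X 0 ^ s - rename Fin.succ F} : Ideal (MvPolynomial (Fin (n + 2)) ℂ)), ∀ d,
      weightedHomogeneousComponent (Fin.cons j fun _ => 1 : Fin (n + 2) → ℕ) d A ∈
        Ideal.span {X 0 ^ s - rename Fin.succ F} := by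
  classical
  intro A hA d
  obtain ⟨w, hw⟩ : ∃ w : Fin (n + 2) → ℕ, w = Fin.cons j fun _ => 1 := ⟨_, rfl⟩
  rw [← hw]
  have h1 : IsWeightedHomogeneous w (X 0 ^ s : MvPolynomial (Fin (n + 2)) ℂ) (s * j) := by
    have h := (isWeightedHomogeneous_X ℂ w 0).pow s
    have e : s • w 0 = s * j := by
      rw [hw, Fin.cons_zero, smul_eq_mul]
    rwa [e] at h
  have h2 : IsWeightedHomogeneous w (rename Fin.succ F : MvPolynomial (Fin (n + 2)) ℂ) (s * j) := by
    intro m hm
    obtain ⟨u, rfl, hu⟩ := coeff_rename_ne_zero _ _ _ hm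
    have h3 := hF hu
    have h0 := Finsupp.sum_mapDomain_index (f := Fin.succ) (s := u) (h := fun i (c : ℕ) => c • w i)
      (fun b => zero_smul ℕ (w b)) (fun b m₁ m₂ => add_smul m₁ m₂ (w b))
    rw [← h3, Finsupp.weight_apply, Finsupp.weight_apply, h0]
    refine Finsupp.sum_congr fun i _ => ?_
    rw [hw, Fin.cons_succ]
    rfl
  have h3 : IsWeightedHomogeneous w (X 0 ^ s - rename Fin.succ F : MvPolynomial (Fin (n + 2)) ℂ) (s * j) :=
    (weightedHomogeneousSubmodule ℂ w (s * j)).sub_mem h1 h2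
  letI := weightedGradedAlgebra ℂ w
  have h4 : (Ideal.span {X 0 ^ s - rename Fin.succ F} : Ideal (MvPolynomial (Fin (n + 2)) ℂ)).IsHomogeneous
      (weightedHomogeneousSubmodule ℂ w) := by
    refine Ideal.homogeneous_span _ _ ?_
    rintro _ rfl
    exact ⟨s * j, h3⟩
  have h5 := h4 d hA
  have h6 : (DirectSum.decompose (weightedHomogeneousSubmodule ℂ w) A d : MvPolynomial (Fin (n + 2)) ℂ) =
      weightedHomogeneousComponent w d A := weightedDecomposition.decompose'_apply ℂ w A d
  rwa [h6] at h5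

/-- The cover has points. PROOF. x = (1, 0, .., 0), z an s-th root of eval x F. -/
theorem cyc_nonempty {n s : ℕ} (hs : 1 ≤ s) (F : MvPolynomial (Fin (n + 1)) ℂ) :
    ∃ y : Fin (n + 2) → ℂ, y ≠ 0 ∧ ∀ G ∈ Ideal.span {X 0 ^ s - rename Fin.succ F}, eval y G = 0 := by
  obtain ⟨z, hz⟩ := IsAlgClosed.exists_pow_nat_eq (eval (Pi.single 0 1) F) (n := s) (by omega)
  refine ⟨Fin.cons z (Pi.single 0 1), fun h => ?_, fun G hG => ?_⟩
  · have h1 := congrFun h (Fin.succ 0)
    rw [Fin.cons_succ, Pi.single_eq_same] at h1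
    exact one_ne_zero h1
  · obtain ⟨H, rfl⟩ := Ideal.mem_span_singleton.1 hG
    have h1 : eval (Fin.cons z (Pi.single 0 1) : Fin (n + 2) → ℂ) (X 0 ^ s - rename Fin.succ F) = 0 := by
      rw [map_sub, map_pow, eval_X, Fin.cons_zero, eval_rename, hz]
      exact sub_self _
    rw [map_mul, h1, zero_mul]

/-- On the cone one of the coordinates x_i is not 0, so the projection is a finite morphism and the action is free. PROOF. If all y i.succ = 0, then (y 0)^s = eval 0 F = 0 (degree s j ≥ 1). -/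
theorem cyc_base {n s j : ℕ} (hs : 1 ≤ s) (hj : 1 ≤ j) {F : MvPolynomial (Fin (n + 1)) ℂ}
    (hF : F.IsHomogeneous (s * j)) {y : Fin (n + 2) → ℂ} (hy : y ≠ 0)
    (hyJ : ∀ G ∈ Ideal.span {X 0 ^ s - rename Fin.succ F}, eval y G = 0) :
    (∃ i : Fin (n + 1), y i.succ ≠ 0) ∧
      ∀ t : ℂ, Pool.Agent.H89T.act (Fin.cons j fun _ => 1) t y = y → t = 1 := by
  have h1 : ∃ i : Fin (n + 1), y i.succ ≠ 0 := by
    by_contra hcon
    push Not at hcon
    have h2 := hyJ _ (Ideal.subset_span rfl)
    rw [map_sub, map_pow, eval_X, eval_rename] at h2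
    have h3 : y ∘ Fin.succ = 0 := funext hcon
    have h4 : eval (0 : Fin (n + 1) → ℂ) F = 0 := by
      have h5 : eval (0 : Fin (n + 1) → ℂ) F = constantCoeff F := RingHom.congr_fun eval_zero F
      rw [h5, constantCoeff_eq]
      refine hF.coeff_eq_zero ?_
      rw [map_zero]
      exact (Nat.mul_pos hs hj).ne
    rw [h3, h4, sub_zero] at h2
    have h5 : y 0 = 0 := pow_eq_zero_iff (by omega) |>.1 h2
    apply hy
    funext i
    refine Fin.cases h5 (fun i => hcon i) i
  refine ⟨h1, fun t ht => ?_⟩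
  obtain ⟨i, hi⟩ := h1
  have h2 := congrFun ht i.succ
  unfold Pool.Agent.H89T.act at h2
  rw [Fin.cons_succ, pow_one] at h2
  exact mul_right_cancel₀ hi (h2.trans (one_mul _).symm)

end Pool.Agent.H49C
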