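import Pool.Agent.Lib.H53L.CovB
import Pool.Agent.Lib.H49C.M3
import Pool.Agent.Lib.H49C.PR1
import Pool.Agent.Lib.H49C.PR2
import Pool.Agent.Lib.H49C.PR3

set_option autoImplicit false

/-!
Entire curves in varieties with a finite morphism to projective space which is ramified over a generic
hypersurface, with explicit bounds: degree `C n ^ 3 (log n) ^ 3` for all ramification, for example for
double covers, degree `C n ^ 2 (log n) ^ 2` for strong ramification and for the complement.
-/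

open MvPolynomial

namespace Pool.Agent.H49C.Draft

/-- `P` holds for all forms of degree `k` in `n + 1` variables outside a proper algebraic subset:
there is a polynomial `Θ` in the coefficients, not vanishing at all forms of degree `k`, such that
`P` holds for the forms of degree `k` at which `Θ` does not vanish. -/
def ForGenericForm (n k : ℕ) (P : MvPolynomial (Fin (n + 1)) ℂ → Prop) : Prop :=
  ∃ Θ : MvPolynomial (Fin (n + 1) →₀ ℕ) ℂ,
    (∃ F : MvPolynomial (Fin (n + 1)) ℂ, F.IsHomogeneous k ∧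
      eval (fun d => coeff d F) Θ ≠ 0) ∧
    ∀ F : MvPolynomial (Fin (n + 1)) ℂ, F.IsHomogeneous k →
      eval (fun d => coeff d F) Θ ≠ 0 → P F

/-- The action of `ℂˣ` with weights `w`. -/
def action {m : ℕ} (w : Fin m → ℕ) (t : ℂ) (x : Fin m → ℂ) : Fin m → ℂ :=
  fun i => t ^ w i * x i

/-- The cone without its vertex over the closed subset defined by `J`. -/
def cone {m : ℕ} (J : Ideal (MvPolynomial (Fin m) ℂ)) : Set (Fin m → ℂ) :=
  {x | x ≠ 0 ∧ ∀ F ∈ J, eval x F = 0}

/-- `J` is the ideal of a projective variety `X = cone J / ℂˣ` in a weighted projective space,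
on whose cone `ℂˣ` acts freely. (Any projective variety in projective space: all weights `1`.) -/
structure IsWeightedProjective {m : ℕ} (w : Fin m → ℕ) (J : Ideal (MvPolynomial (Fin m) ℂ)) :
    Prop where
  weights : ∀ i, 1 ≤ w i
  prime : J.IsPrime
  homogeneous : ∀ F ∈ J, ∀ d, weightedHomogeneousComponent w d F ∈ J
  nonempty : (cone J).Nonempty
  free : ∀ x ∈ cone J, ∀ t : ℂ, action w t x = x → t = 1

/-- The forms `f j` of degree `D ≥ 1` have no common zero on `X`, i.e. they define a finite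
morphism from `X` to `ℙⁿ` (`X` may have any dimension at most `n`). -/
structure IsFiniteMorphism {m n : ℕ} (w : Fin m → ℕ) (J : Ideal (MvPolynomial (Fin m) ℂ))
    (D : ℕ) (f : Fin (n + 1) → MvPolynomial (Fin m) ℂ) : Prop where
  pos : 1 ≤ D
  homogeneous : ∀ j, (f j).IsWeightedHomogeneous w D
  base_point_free : ∀ x ∈ cone J, ∃ j, eval x (f j) ≠ 0

/-- In the local ring at `x` of the cone over `X`, the form `R` lies in the `a`-th power of the
maximal ideal. -/
def MultiplicityAtLeast {m : ℕ} (J : Ideal (MvPolynomial (Fin m) ℂ)) (x : Fin m → ℂ) (a : ℕ)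
    (R : MvPolynomial (Fin m) ℂ) : Prop :=
  ∃ S : MvPolynomial (Fin m) ℂ, eval x S ≠ 0 ∧ S * R ∈ J ⊔ RingHom.ker (eval x) ^ a

/-- `u` gives an entire curve in `X / ℂˣ`: a nonconstant holomorphic map from `ℂ`. (The action on
`X` is free, so all entire curves lift to `X`.) -/
structure IsEntireCurve {m : ℕ} (w : Fin m → ℕ) (X : Set (Fin m → ℂ)) (u : ℂ → Fin m → ℂ) :
    Prop where
  holomorphic : ∀ i, Differentiable ℂ fun z => u z i
  mem : ∀ z, u z ∈ X
  nonconstant : ∃ z z', ∀ t : ℂ, u z' ≠ action w t (u z)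

/-- A proper closed subset of `X / ℂˣ` contains all entire curves. -/
def PseudoBrody {m : ℕ} (w : Fin m → ℕ) (X : Set (Fin m → ℂ)) : Prop :=
  ∃ T : Set (MvPolynomial (Fin m) ℂ), (∀ g ∈ T, ∃ d, g.IsWeightedHomogeneous w d) ∧
    (∃ x ∈ X, ∃ g ∈ T, eval x g ≠ 0) ∧
    ∀ u, IsEntireCurve w X u → ∀ z, ∀ g ∈ T, eval (u z) g = 0

/-- Let `n ≥ 1`, `κ ≥ 0` and (i) `κ < d - 90 n d ^ (2 / 3) (1 + log d)` or
(ii) `d ≥ 1 + 1000 n² (6 + log n)² + 101 n² (6 + log n) ⌈κ⌉`, and let `F` be the generic form of degree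
`d` in `n + 1` variables.  Let `f : X → ℙⁿ` be any finite morphism from a projective variety, given by
forms of degree `D`, and let `R` be a form on `X` of degree at most `e κ D`, `e ≥ 1`, not vanishing
identically on `X`.

(1) All entire curves `u` in `X` for which `R (u)` vanishes to order at least `e` at all points where
`u` meets `F (f) = 0` lie in `R = 0`.

(2) Hence, if `R` has multiplicity at least `e` at all points of `X` over `F = 0`, then all entire
curves in `X` lie in `R = 0`, and `X` is pseudo-Brody hyperbolic.  If moreover `R` vanishes only at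
points over `F = 0`, then `X` contains no entire curve at all.

Examples.  For (2), with no entire curve in `X`: the double covers `z ^ 2 = F` of `ℙⁿ`, or of any
projective variety in `ℙⁿ` not contained in `F = 0`, for even `d > (180 n (1 + log d)) ^ 3` (`R = z`,
`e = 1`, `κ = d / 2`, condition (i)), and so all cyclic covers `z ^ s = F`, `s ∣ d`, of these degrees;
the cyclic covers with `s ≥ 202 n² (6 + log n)` for `d ≥ 2 + 2000 n² (6 + log n)²` (`κ = d / s`,
condition (ii)); all `X` for which `F ∘ f` lies in the `s`-th power of the maximal ideal at all points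
over `F = 0` (`R = F ∘ f`, `e = s`, `κ = d / s`).  For (1): `X = ℙⁿ`, `R = 1`, `e = 1`, `κ = 0`: there is no
entire curve in the complement of `F = 0` for `d ≥ 1 + 1000 n² (6 + log n)²`; `X = ℙⁿ`, `R = F`,
`e ≥ 2`: there is no entire curve which meets `F = 0` with multiplicities at least `e` only. -/
theorem branching (n d : ℕ) (κ : ℝ) (hn : 1 ≤ n) (hκ : 0 ≤ κ)
    (hd : κ < d - 90 * n * (d : ℝ) ^ (2 / 3 : ℝ) * (1 + Real.log d) ∨
      1 + 1000 * (n : ℝ) ^ 2 * (6 + Real.log n) ^ 2 +
        101 * (n : ℝ) ^ 2 * (6 + Real.log n) * ⌈κ⌉₊ ≤ d) :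
    ForGenericForm n d fun F =>
      ∀ (m : ℕ) (w : Fin m → ℕ) (J : Ideal (MvPolynomial (Fin m) ℂ)) (D : ℕ)
        (f : Fin (n + 1) → MvPolynomial (Fin m) ℂ), IsWeightedProjective w J →
        IsFiniteMorphism w J D f →
        ∀ (e a : ℕ) (R : MvPolynomial (Fin m) ℂ), 1 ≤ e → R.IsWeightedHomogeneous w a → R ∉ J →
          (a : ℝ) ≤ e * (κ * D) →
          (∀ u, IsEntireCurve w (cone J) u →
            (∀ z, eval (fun j => eval (u z) (f j)) F = 0 →
              (e : ℕ∞) ≤ analyticOrderAt (fun z => eval (u z) R) z) →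
            ∀ z, eval (u z) R = 0) ∧
          ((∀ x ∈ cone J, eval (fun j => eval x (f j)) F = 0 → MultiplicityAtLeast J x e R) →
            (∀ u, IsEntireCurve w (cone J) u → ∀ z, eval (u z) R = 0) ∧
            PseudoBrody w (cone J) ∧
            ((∀ x ∈ cone J, eval x R = 0 → eval (fun j => eval x (f j)) F = 0) →
              ¬ ∃ u, IsEntireCurve w (cone J) u)) := by
  obtain ⟨hd0, ε, hε, Θ, hΘ, hΘ'⟩ := Pool.Agent.H53L.smt_both hn hκ hd
  obtain ⟨Θ₁, hΘ₁, hhyp⟩ := Pool.Agent.H53L.hyp_explicit hn hd0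
  refine ⟨Θ * Θ₁, Pool.Agent.H49B.nonTriv_mul hΘ hΘ₁, fun F hF hF0 => ?_⟩
  rw [map_mul] at hF0
  have hFa := left_ne_zero_of_mul hF0
  have hFb := right_ne_zero_of_mul hF0
  have hsmt := hΘ' F hF hFa
  intro m w J D f hJ hf e a R he hR hRJ ha
  have hcurve : ∀ u, IsEntireCurve w (cone J) u →
      (∀ z, eval (fun j => eval (u z) (f j)) F = 0 →
        (e : ℕ∞) ≤ analyticOrderAt (fun z => eval (u z) R) z) → ∀ z, eval (u z) R = 0 :=
    fun u hu hord z => Pool.Agent.H53L.cov_R_eq_zero hf.pos he hε hsmt hJ.weights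
      (fun x hx t => Pool.Agent.H89T.eval_act_mem hJ.homogeneous hx t)
      hf.homogeneous (fun x hx hxJ => hf.base_point_free x ⟨hx, hxJ⟩) hR ha
      ⟨hu.holomorphic, fun z => (hu.mem z).1⟩ (fun z => (hu.mem z).2) hord hu.nonconstant z
  refine ⟨hcurve, fun hmult => ?_⟩
  have hmain : ∀ u, IsEntireCurve w (cone J) u → ∀ z, eval (u z) R = 0 := by
    intro u hu
    refine hcurve u hu fun z hz => ?_
    obtain ⟨S, hS, hSR⟩ := hmult (u z) (hu.mem z) hz
    exact Pool.Agent.H89T.t3_order ⟨hu.holomorphic, fun z => (hu.mem z).1⟩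
      (fun z => (hu.mem z).2) hS hSR
  have hpt : ∃ x ∈ cone J, eval x R ≠ 0 := by
    obtain ⟨x₀, hx₀⟩ := hJ.nonempty
    obtain ⟨j, hj⟩ := hf.base_point_free x₀ hx₀
    have hfJ : f j ∉ J := fun h => hj (hx₀.2 _ h)
    have hRf : R * f j ∉ J := fun h => (hJ.prime.mem_or_mem h).elim hRJ hfJ
    obtain ⟨x, hxJ, hx⟩ := Pool.Agent.H89T.t3_null J hJ.prime _ hRf
    rw [map_mul] at hx
    refine ⟨x, ⟨fun h0 => right_ne_zero_of_mul hx ?_, hxJ⟩, left_ne_zero_of_mul hx⟩
    have h1 := Pool.Agent.H89T.eval_act (hf.homogeneous j) 0 x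
    have hD := hf.pos
    rw [zero_pow (by omega), zero_mul] at h1
    rw [h0]
    have h2 : Pool.Agent.H89T.act w 0 x = 0 := by
      funext i
      have := hJ.weights i
      simp [Pool.Agent.H89T.act, zero_pow (show w i ≠ 0 by omega)]
    rwa [h2] at h1
  obtain ⟨x, hx, hxR⟩ := hpt
  refine ⟨hmain, ⟨{R}, ?_, ⟨x, hx, R, rfl, hxR⟩, ?_⟩, ?_⟩
  · rintro _ rfl
    exact ⟨a, hR⟩
  · rintro u hu z _ rfl
    exact hmain u hu z
  · rintro hR0 ⟨u, hu⟩
    exact Pool.Agent.H49B.no_curve (hhyp F hF hFb) hJ.weights hJ.homogeneous hf.pos hf.homogeneous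
      (fun x hx hxJ => hf.base_point_free x ⟨hx, hxJ⟩)
      ⟨hu.holomorphic, fun z => (hu.mem z).1⟩ (fun z => (hu.mem z).2) hu.nonconstant
      fun z => hR0 _ (hu.mem z) (hmain u hu z)

/-! ### Cyclic covers -/

/-- The weights of the coordinates `z, x_0, ..., x_n` of the cyclic cover `z ^ s = F`,
`deg F = s j`. -/
def coverWeights (n j : ℕ) : Fin (n + 2) → ℕ := Fin.cons j fun _ => 1

/-- The ideal of the cyclic cover `z ^ s = F (x)`, where `z` is the coordinate with number `0`. -/
noncomputable def coverIdeal {n : ℕ} (s : ℕ) (F : MvPolynomial (Fin (n + 1)) ℂ) :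
    Ideal (MvPolynomial (Fin (n + 2)) ℂ) :=
  Ideal.span {X 0 ^ s - rename Fin.succ F}

theorem nonTriv_prod {n k : ℕ} {ι : Type} (S : Finset ι)
    (Θ : ι → MvPolynomial (Fin (n + 1) →₀ ℕ) ℂ)
    (h : ∀ q ∈ S, ∃ F : MvPolynomial (Fin (n + 1)) ℂ, F.IsHomogeneous k ∧
      eval (fun d => coeff d F) (Θ q) ≠ 0) :
    ∃ F : MvPolynomial (Fin (n + 1)) ℂ, F.IsHomogeneous k ∧
      eval (fun d => coeff d F) (∏ q ∈ S, Θ q) ≠ 0 := by
  classical
  induction S using Finset.induction_on with
  | empty => exact ⟨0, isHomogeneous_zero _ _ _, by simp⟩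
  | insert a S ha ih =>
    rw [Finset.prod_insert ha]
    exact Pool.Agent.H49B.nonTriv_mul (h a (Finset.mem_insert_self a S))
      (ih fun q hq => h q (Finset.mem_insert_of_mem hq))

/-- The generic form is no perfect power. -/
theorem generic_not_power {n k : ℕ} (hn : 1 ≤ n) (hk : 1 ≤ k) :
    ForGenericForm n k fun F => ∀ q : ℕ, 2 ≤ q → ∀ G : MvPolynomial (Fin (n + 1)) ℂ, G ^ q ≠ F := by
  have h1 := fun q : ℕ => fun hq : 2 ≤ q => Pool.Agent.H49C.gen_not_pow (k := k) hn hk hq
  choose! Θ hΘ using h1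
  refine ⟨∏ q ∈ Finset.Icc 2 (k + 1), Θ q, nonTriv_prod _ _ fun q hq => ?_,
    fun F hF hF0 q hq G hG => ?_⟩
  · exact (hΘ q (Finset.mem_Icc.1 hq).1).1
  · rw [map_prod] at hF0
    by_cases hqk : q ≤ k + 1
    · have h2 := Finset.prod_ne_zero_iff.1 hF0 q (Finset.mem_Icc.2 ⟨hq, hqk⟩)
      exact (hΘ q hq).2 F hF h2 G hG
    · have hFne : F ≠ 0 := by
        rintro rfl
        have h2 := Finset.prod_ne_zero_iff.1 hF0 2 (Finset.mem_Icc.2 ⟨le_refl _, by omega⟩)
        exact (hΘ 2 (le_refl _)).2 0 hF h2 0 (by simp)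
      have hGne : G ≠ 0 := by
        rintro rfl
        exact hFne (by rw [← hG, zero_pow (by omega)])
      have h3 : F.totalDegree = k := hF.totalDegree hFne
      have h4 : (G ^ q).totalDegree = q * G.totalDegree := by
        clear hG hqk
        induction q with
        | zero => simp
        | succ m ih =>
          by_cases hm : m = 0
          · subst hm
            simp
          · rcases Nat.lt_or_ge m 2 with h5 | h5
            · have : m = 1 := by omega
              subst this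
              rw [pow_succ, pow_one, totalDegree_mul_of_isDomain hGne hGne]
              ring
            · rw [pow_succ, totalDegree_mul_of_isDomain (pow_ne_zero _ hGne) hGne, ih h5]
              ring
      rw [hG, h3] at h4
      rcases Nat.eq_zero_or_pos G.totalDegree with h5 | h5
      · rw [h5, mul_zero] at h4
        omega
      · have : q ≤ q * G.totalDegree := Nat.le_mul_of_pos_right q h5
        omega

/-- Let `n ≥ 1`, `s ≥ 2`, `j ≥ 1`, and let `F` be the generic form of degree `d = s j` in `n + 1`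
variables.  The cyclic cover `X : z ^ s = F (x)` of `ℙⁿ` is a variety, with canonical sheaf
`𝒪 ((s - 1) j - n - 1)`.  If
* `(s - 1) j ≤ n`, or
* `(s - 1) j = n + 1` and `s` is `2`, `3`, `4` or `6`, or
* `j < d - 90 n d ^ (2 / 3) (1 + log d)`,
then `X` is pseudo-Brody hyperbolic if and only if `(s - 1) j > n + 1`, i.e. if and only if it is of
general type. -/
theorem cyclic (n s j : ℕ) (hn : 1 ≤ n) (hs : 2 ≤ s) (hj : 1 ≤ j)
    (h : (s - 1) * j ≤ n ∨ ((s = 2 ∨ s = 3 ∨ s = 4 ∨ s = 6) ∧ (s - 1) * j = n + 1) ∨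
      (j : ℝ) < (s * j : ℕ) - 90 * n * ((s * j : ℕ) : ℝ) ^ (2 / 3 : ℝ) *
        (1 + Real.log (s * j : ℕ))) :
    ForGenericForm n (s * j) fun F =>
      IsWeightedProjective (coverWeights n j) (coverIdeal s F) ∧
      (PseudoBrody (coverWeights n j) (cone (coverIdeal s F)) ↔ n + 1 < (s - 1) * j) := by
  have hsj : 1 ≤ s * j := Nat.mul_pos (by omega) hj
  obtain ⟨Θ, hΘ, hΘ'⟩ := generic_not_power (k := s * j) hn hsj
  have hwp : ∀ F : MvPolynomial (Fin (n + 1)) ℂ, F.IsHomogeneous (s * j) →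
      eval (fun d => coeff d F) Θ ≠ 0 →
      IsWeightedProjective (coverWeights n j) (coverIdeal s F) := by
    intro F hF hF0
    refine ⟨fun i => ?_, Pool.Agent.H49C.cyc_prime (by omega) (hΘ' F hF hF0),
      Pool.Agent.H49C.cyc_homog hF, ?_, ?_⟩
    · refine Fin.cases ?_ (fun i => ?_) i
      · exact hj
      · exact le_refl 1
    · obtain ⟨y, hy, hyJ⟩ := Pool.Agent.H49C.cyc_nonempty (n := n) (s := s) (by omega) F
      exact ⟨y, hy, hyJ⟩
    · rintro y ⟨hy, hyJ⟩ t ht
      exact (Pool.Agent.H49C.cyc_base (by omega) hj hF hy hyJ).2 t ht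
  by_cases hK : (s - 1) * j ≤ n ∨ ((s = 2 ∨ s = 3 ∨ s = 4 ∨ s = 6) ∧ (s - 1) * j = n + 1)
  · refine ⟨Θ, hΘ, fun F hF hF0 => ⟨hwp F hF hF0, ?_⟩⟩
    have hFne : F ≠ 0 := by
      rintro rfl
      exact hΘ' 0 hF hF0 2 (le_refl _) 0 (by simp)
    constructor
    · rintro ⟨T, hT, ⟨y, hy, g, hg, hgy⟩, hall⟩
      exact absurd (Pool.Agent.H49C.conv hn hs hj hK hF hFne hT
        (fun u hu1 hu2 hu3 => hall u ⟨hu1, hu2, hu3⟩) hy.1 hy.2 g hg) hgy
    · intro h1
      exfalso
      rcases hK with h2 | ⟨_, h2⟩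
      · omega
      · omega
  · have h3 : (j : ℝ) < (s * j : ℕ) - 90 * n * ((s * j : ℕ) : ℝ) ^ (2 / 3 : ℝ) *
        (1 + Real.log (s * j : ℕ)) := by
      rcases h with h | h | h
      · exact absurd (Or.inl h) hK
      · exact absurd (Or.inr h) hK
      · exact h
    obtain ⟨Θ₁, hΘ₁, hΘ₁'⟩ := branching n (s * j) (j : ℝ) hn (Nat.cast_nonneg j) (Or.inl h3)
    refine ⟨Θ * Θ₁, Pool.Agent.H49B.nonTriv_mul hΘ hΘ₁, fun F hF hF0 => ?_⟩
    rw [map_mul] at hF0
    have hFa := left_ne_zero_of_mul hF0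
    have hFb := right_ne_zero_of_mul hF0
    have hX := hwp F hF hFa
    refine ⟨hX, ?_⟩
    have hbr := hΘ₁' F hF hFb (n + 2) (coverWeights n j) (coverIdeal s F) 1
      (fun i => X i.succ) hX ?_ 1 j (X 0) (le_refl 1) ?_ ?_ ?_
    · have hps := (hbr.2 ?_).2.1
      · constructor
        · intro _
          have h6 : (1 : ℝ) ≤ ((s * j : ℕ) : ℝ) := by exact_mod_cast hsj
          have h7 : (1 : ℝ) ≤ ((s * j : ℕ) : ℝ) ^ (2 / 3 : ℝ) := Real.one_le_rpow h6 (by norm_num)
          have h8 : 0 ≤ Real.log ((s * j : ℕ) : ℝ) := Real.log_nonneg h6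
          have h9 : (1 : ℝ) ≤ n := by exact_mod_cast hn
          have h10 : (1 : ℝ) ≤ ((s * j : ℕ) : ℝ) ^ (2 / 3 : ℝ) * (1 + Real.log ((s * j : ℕ) : ℝ)) := by
            nlinarith
          have h11 : (90 * n : ℝ) ≤ 90 * n * ((s * j : ℕ) : ℝ) ^ (2 / 3 : ℝ) *
              (1 + Real.log ((s * j : ℕ) : ℝ)) := by
            rw [mul_assoc]
            exact le_mul_of_one_le_right (by positivity) h10
          have h12 : ((j + (n + 1) : ℕ) : ℝ) < ((s * j : ℕ) : ℝ) := by
            push_cast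
            push_cast at h3 h11
            linarith
          have h13 : j + (n + 1) < s * j := by exact_mod_cast h12
          have h14 : (s - 1) * j = s * j - j := by rw [Nat.sub_mul, one_mul]
          omega
        · intro _
          exact hps
      · rintro y ⟨hy, hyJ⟩ hFy
        refine ⟨1, by simp, ?_⟩
        rw [one_mul]
        refine Ideal.mem_sup_right ?_
        rw [pow_one, RingHom.mem_ker, eval_X]
        have h4 := hyJ _ (Ideal.subset_span rfl)
        rw [map_sub, map_pow, eval_X, eval_rename] at h4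
        have h5 : eval (y ∘ Fin.succ) F = 0 := by
          have : (fun j : Fin (n + 1) => eval y (X j.succ : MvPolynomial (Fin (n + 2)) ℂ)) =
              y ∘ Fin.succ := by
            funext i
            simp
          rwa [this] at hFy
        rw [h5, sub_zero] at h4
        exact pow_eq_zero_iff (by omega : s ≠ 0) |>.1 h4
    · refine ⟨le_refl 1, fun i => ?_, fun y hy => ?_⟩
      · exact isWeightedHomogeneous_X ℂ (coverWeights n j) i.succ
      · obtain ⟨i, hi⟩ := (Pool.Agent.H49C.cyc_base (by omega) hj hF hy.1 hy.2).1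
        exact ⟨i, by rwa [eval_X]⟩
    · exact isWeightedHomogeneous_X ℂ (coverWeights n j) 0
    · intro hmem
      obtain ⟨x₁, hx₁⟩ : ∃ x₁, eval x₁ F ≠ 0 := by
        by_contra hcon
        push Not at hcon
        refine hΘ' F hF hFa 2 (le_refl _) 0 ?_
        rw [zero_pow two_ne_zero]
        exact (MvPolynomial.funext fun x => by rw [hcon x, map_zero]).symm
      obtain ⟨z, hz⟩ := IsAlgClosed.exists_pow_nat_eq (eval x₁ F) (by omega : 0 < s)
      obtain ⟨B, hB⟩ := Ideal.mem_span_singleton'.1 hmem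
      have h4 := congrArg (eval (Fin.cons z x₁ : Fin (n + 2) → ℂ)) hB
      have h5 : (Fin.cons z x₁ : Fin (n + 2) → ℂ) ∘ Fin.succ = x₁ := by
        funext i
        simp
      rw [map_mul, map_sub, map_pow, eval_X, Fin.cons_zero, eval_rename, h5, hz, sub_self,
        mul_zero] at h4
      apply hx₁
      rw [← hz, ← h4, zero_pow (by omega)]
    · simp

end Pool.Agent.H49C.Draft
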