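import Pool.Agent.Lib.H49C.D

set_option autoImplicit false

open Finset

namespace Pool.Agent.H49C

/-- Auxiliary: a finite product of entire functions which vanishes identically. -/
theorem e1_prod {X Y : ℂ → ℂ} (hX : Differentiable ℂ X) (hY : Differentiable ℂ Y) (R : Finset ℂ) :
    ∀ f : ℂ → ℂ, Differentiable ℂ f → (∀ τ, f τ * ∏ r ∈ R, (Y τ - r * X τ) = 0) →
      (∀ τ, f τ = 0) ∨ ∃ r ∈ R, ∀ τ, Y τ - r * X τ = 0 := by
  classical
  refine Finset.induction_on R ?_ ?_
  · intro f _ h
    left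
    intro τ
    have h1 := h τ
    rwa [Finset.prod_empty, mul_one] at h1
  · intro a R ha ih f hf h
    have hg : Differentiable ℂ (fun τ => Y τ - a * X τ) := hY.sub (hX.const_mul a)
    have h1 : ∀ τ, (f τ * (Y τ - a * X τ)) * ∏ r ∈ R, (Y τ - r * X τ) = 0 := by
      intro τ
      have h2 := h τ
      rw [Finset.prod_insert ha] at h2
      rw [mul_assoc]
      exact h2
    rcases ih (fun τ => f τ * (Y τ - a * X τ)) (hf.mul hg) h1 with h2 | ⟨r, hr, h2⟩
    · rcases AnalyticOnNhd.eq_zero_or_eq_zero_of_mul_eq_zero (𝕜 := ℂ) (U := Set.univ) (f := f)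
        (g := fun τ => Y τ - a * X τ) (fun z _ => hf.analyticAt z) (fun z _ => hg.analyticAt z)
        (fun z _ => h2 z) isPreconnected_univ with h3 | h3
      · left
        exact fun τ => h3 τ (Set.mem_univ _)
      · right
        exact ⟨a, Finset.mem_insert_self _ _, fun τ => h3 τ (Set.mem_univ _)⟩
    · right
      exact ⟨r, Finset.mem_insert_of_mem hr, h2⟩

/-- Chunk E1 (S/M). No nonzero binary form vanishes identically on (X, Y).
PROOF. Suppose some c i ≠ 0, i ≤ N. Let P : Polynomial ℂ := ∑ i ∈ range (N + 1), C (c i) * Polynomial.X ^ i, P ≠ 0, R := P.roots.toFinset.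
For all τ with X τ ≠ 0 one has 0 = ∑ c i X^(N-i) Y^i = X^N * P.eval (Y τ / X τ) (c i X^(N-i) Y^i = X^N c i (Y/X)^i for i ≤ N), so
Y τ / X τ ∈ R and hence f τ := X τ * ∏ r ∈ R, (Y τ - r * X τ) = 0 for ALL τ (also if X τ = 0). A finite product of entire functions which is
identically 0 has an identically vanishing factor (analytic functions on the connected set univ:
AnalyticOnNhd.eq_zero_or_eq_zero_of_mul_eq_zero or its like, or: if g ≠ 0 at one point, then g ≠ 0 near it, the other factor vanishes near it and so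
everywhere by AnalyticOnNhd.eqOn_zero_of_preconnected_of_eventuallyEq_zero; induction over the finset). But X τ = 0 for all τ contradicts h.nc
(0 * _ ≠ 0 * _) and Y = r X contradicts h.nc as well. -/
theorem ent_poly {X Y : ℂ → ℂ} (h : Ent X Y) (N : ℕ) (c : ℕ → ℂ)
    (hc : ∀ τ, ∑ i ∈ range (N + 1), c i * X τ ^ (N - i) * Y τ ^ i = 0) : ∀ i ≤ N, c i = 0 := by
  by_contra hcon
  push Not at hcon
  obtain ⟨i₀, hi₀, hci⟩ := hcon
  let P : Polynomial ℂ := ∑ i ∈ range (N + 1), Polynomial.C (c i) * Polynomial.X ^ i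
  have hcoeff : P.coeff i₀ = c i₀ := by
    have h1 : P.coeff i₀ = ∑ i ∈ range (N + 1), (if i₀ = i then c i else 0) := by
      rw [Polynomial.finsetSum_coeff]
      refine Finset.sum_congr rfl fun i _ => ?_
      rw [Polynomial.coeff_C_mul_X_pow]
    rw [h1, Finset.sum_ite_eq, if_pos (Finset.mem_range.2 (by omega))]
  have hP : P ≠ 0 := by
    intro h0
    rw [h0, Polynomial.coeff_zero] at hcoeff
    exact hci hcoeff.symm
  have heval : ∀ z, P.eval z = ∑ i ∈ range (N + 1), c i * z ^ i := by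
    intro z
    rw [Polynomial.eval_finsetSum]
    refine Finset.sum_congr rfl fun i _ => ?_
    rw [Polynomial.eval_mul, Polynomial.eval_C, Polynomial.eval_pow, Polynomial.eval_X]
  have hroot : ∀ τ, X τ ≠ 0 → P.eval (Y τ / X τ) = 0 := by
    intro τ hX
    have h1 : X τ ^ N * P.eval (Y τ / X τ) = 0 := by
      rw [← hc τ, heval, Finset.mul_sum]
      refine Finset.sum_congr rfl fun i hi => ?_
      have hi' : i ≤ N := by
        have := Finset.mem_range.1 hi
        omega
      have h2 : X τ ^ N = X τ ^ (N - i) * X τ ^ i := by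
        rw [← pow_add]
        congr 1
        omega
      rw [h2, div_pow]
      have h3 : X τ ^ i ≠ 0 := pow_ne_zero _ hX
      field_simp
    exact (mul_eq_zero.1 h1).resolve_left (pow_ne_zero _ hX)
  obtain ⟨τ₀, τ₁, hn⟩ := h.nc
  rcases e1_prod h.dX h.dY P.roots.toFinset X h.dX (by
    intro τ
    by_cases hX : X τ = 0
    · rw [hX, zero_mul]
    · have h1 : Y τ / X τ ∈ P.roots.toFinset := by
        rw [Multiset.mem_toFinset, Polynomial.mem_roots hP]
        exact hroot τ hX
      have h2 : ∏ r ∈ P.roots.toFinset, (Y τ - r * X τ) = 0 := by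
        refine Finset.prod_eq_zero h1 ?_
        rw [div_mul_cancel₀ _ hX, sub_self]
      rw [h2, mul_zero]) with h1 | ⟨r, -, h1⟩
  · exact hn (by rw [h1 τ₀, h1 τ₁, zero_mul, zero_mul])
  · have h2 : ∀ τ, Y τ = r * X τ := fun τ => sub_eq_zero.1 (h1 τ)
    exact hn (by rw [h2 τ₀, h2 τ₁]; ring)

end Pool.Agent.H49C
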