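import Pool.Agent.Lib.H49C.D

set_option autoImplicit false

namespace Pool.Agent.H49C

/-- Chunk G1 (S). PROOF. If a ≠ b: Y τ = (τ ^ s - 1) / (a - b), X τ = 1 - b * Y τ, W τ = τ. Then X + b Y = 1, X + a Y = τ ^ s.
Ent: X = Y = 0 is impossible since X + b Y = 1; nc with τ = 0, τ' = 1: Y 1 = 0, X 1 = 1 and Y 0 = -1 / (a - b) ≠ 0 (0 ^ s = 0 for s ≥ 1).
If a = b: Y τ = τ, X τ = 1 - a τ, W = 1; nc with 0 and 1. -/
theorem u_gen (s : ℕ) (hs : 1 ≤ s) (a b : ℂ) : ∃ X Y W : ℂ → ℂ, Ent X Y ∧ Differentiable ℂ W ∧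
    ∀ τ, W τ ^ s = (X τ + a * Y τ) * (X τ + b * Y τ) ^ (s - 1) := by
  by_cases hab : a = b
  · subst hab
    refine ⟨fun τ => 1 - a * τ, fun τ => τ, fun _ => 1, ⟨by fun_prop, by fun_prop, fun τ => ?_, 0, 1, ?_⟩, by fun_prop,
      fun τ => ?_⟩
    · by_cases h : τ = 0
      · left
        rw [h]
        norm_num
      · exact Or.inr h
    · norm_num
    · change (1 : ℂ) ^ s = (1 - a * τ + a * τ) * (1 - a * τ + a * τ) ^ (s - 1)
      rw [sub_add_cancel, one_pow, one_pow, one_mul]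
  · have h0 : a - b ≠ 0 := sub_ne_zero.2 hab
    have hs0 : s ≠ 0 := by omega
    refine ⟨fun τ => 1 - b * ((τ ^ s - 1) / (a - b)), fun τ => (τ ^ s - 1) / (a - b), fun τ => τ,
      ⟨by fun_prop, by fun_prop, fun τ => ?_, 0, 1, ?_⟩, by fun_prop, fun τ => ?_⟩
    · by_cases h : (τ ^ s - 1) / (a - b) = 0
      · left
        change 1 - b * ((τ ^ s - 1) / (a - b)) ≠ 0
        rw [h, mul_zero, sub_zero]
        exact one_ne_zero
      · exact Or.inr h
    · change (1 - b * (((0 : ℂ) ^ s - 1) / (a - b))) * (((1 : ℂ) ^ s - 1) / (a - b)) ≠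
        (1 - b * (((1 : ℂ) ^ s - 1) / (a - b))) * (((0 : ℂ) ^ s - 1) / (a - b))
      rw [one_pow, sub_self, zero_div, mul_zero, mul_zero, sub_zero, one_mul, zero_pow hs0, zero_sub]
      exact (div_ne_zero (neg_ne_zero.2 one_ne_zero) h0).symm
    · change τ ^ s = (1 - b * ((τ ^ s - 1) / (a - b)) + a * ((τ ^ s - 1) / (a - b))) *
        (1 - b * ((τ ^ s - 1) / (a - b)) + b * ((τ ^ s - 1) / (a - b))) ^ (s - 1)
      rw [sub_add_cancel, one_pow, mul_one]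
      field_simp
      ring

end Pool.Agent.H49C
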