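import Mathlib

set_option autoImplicit false

open MvPolynomial

namespace Pool.Agent.H49C

/-- The restriction of `F` to the line `x + T v`, with `v` and the `ξ i` as unknowns, minus
`F (x) ∏ (1 + ξ i T) ^ e i`: a polynomial in `T` over the polynomials in the unknowns. The direction
`v` has coordinate `0` at the place `i₀`. -/
noncomputable def lineP {n : ℕ} {κ : Type*} [Fintype κ] (F : MvPolynomial (Fin (n + 1)) ℂ)
    (x : Fin (n + 1) → ℂ) (i₀ : Fin (n + 1)) (e : κ → ℕ) :
    Polynomial (MvPolynomial (Fin n ⊕ κ) ℂ) :=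
  aeval (fun i : Fin (n + 1) => Polynomial.C (C (x i)) + Polynomial.X *
    Polynomial.C (i₀.insertNth (0 : MvPolynomial (Fin n ⊕ κ) ℂ) (fun k => X (Sum.inl k)) i)) F -
  Polynomial.C (C (eval x F)) *
    ∏ i, (1 + Polynomial.X * Polynomial.C (X (Sum.inr i))) ^ e i

/-- Chunk L1 (S/M, only Mathlib). Specialization of lineP. PROOF. Both sides: apply the ring homomorphism Polynomial.evalRingHom t ∘ Polynomial.mapRingHom (eval p) to lineP; on the
first term use MvPolynomial.induction_on F or a comparison of ring homomorphisms (aeval composed with a ring hom: map_aeval / eval₂Hom ext): it becomes eval (fun i => x i + t * i₀.insertNth 0 (fun k => p (inl k)) i) F.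
Fin.insertNth commutes with eval p (cases i = i₀ or i = i₀.succAbove k: Fin.insertNth_apply_same, Fin.insertNth_apply_succAbove, i₀.succAboveCases). -/
theorem lineP_eval {n : ℕ} {κ : Type*} [Fintype κ] (F : MvPolynomial (Fin (n + 1)) ℂ)
    (x : Fin (n + 1) → ℂ) (i₀ : Fin (n + 1)) (e : κ → ℕ) (p : Fin n ⊕ κ → ℂ) (t : ℂ) :
    ((lineP F x i₀ e).map (eval p)).eval t =
      eval (x + t • i₀.insertNth (0 : ℂ) fun k => p (Sum.inl k)) F -
        eval x F * ∏ i, (1 + p (Sum.inr i) * t) ^ e i := by
  unfold lineP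
  rw [Polynomial.map_sub, Polynomial.eval_sub]
  have hins : ∀ i : Fin (n + 1), eval p (i₀.insertNth (α := fun _ => MvPolynomial (Fin n ⊕ κ) ℂ)
      (0 : MvPolynomial (Fin n ⊕ κ) ℂ)
      (fun k => X (Sum.inl k)) i) =
      i₀.insertNth (α := fun _ => ℂ) (0 : ℂ) (fun k => p (Sum.inl k)) i := by
    intro i
    refine Fin.succAboveCases i₀ ?_ (fun k => ?_) i
    · rw [Fin.insertNth_apply_same, Fin.insertNth_apply_same, map_zero]
    · rw [Fin.insertNth_apply_succAbove, Fin.insertNth_apply_succAbove, eval_X]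
  have h1 : ∀ F : MvPolynomial (Fin (n + 1)) ℂ,
      (((aeval (fun i : Fin (n + 1) => Polynomial.C (C (x i)) + Polynomial.X *
        Polynomial.C (i₀.insertNth (α := fun _ => MvPolynomial (Fin n ⊕ κ) ℂ)
      (0 : MvPolynomial (Fin n ⊕ κ) ℂ)
          (fun k => X (Sum.inl k)) i)) F).map (eval p)).eval t : ℂ) =
      eval (x + t • i₀.insertNth (α := fun _ => ℂ) (0 : ℂ) fun k => p (Sum.inl k)) F := by
    intro F
    induction F using MvPolynomial.induction_on with
    | C a =>
      rw [eval_C]
      have h2 : (aeval (fun i : Fin (n + 1) => Polynomial.C (C (x i)) + Polynomial.X *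
        Polynomial.C (i₀.insertNth (α := fun _ => MvPolynomial (Fin n ⊕ κ) ℂ)
      (0 : MvPolynomial (Fin n ⊕ κ) ℂ)
          (fun k => X (Sum.inl k)) i)) (C a : MvPolynomial (Fin (n + 1)) ℂ)) =
          Polynomial.C (C a : MvPolynomial (Fin n ⊕ κ) ℂ) := by
        rw [aeval_C]
        rfl
      rw [h2, Polynomial.map_C, Polynomial.eval_C, eval_C]
    | add F G hF hG =>
      rw [map_add, Polynomial.map_add, Polynomial.eval_add, hF, hG, map_add]
    | mul_X F i hF =>
      rw [map_mul, Polynomial.map_mul, Polynomial.eval_mul, hF, map_mul, aeval_X, eval_X]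
      congr 1
      rw [Polynomial.map_add, Polynomial.map_mul, Polynomial.map_C, Polynomial.map_C,
        Polynomial.map_X, Polynomial.eval_add, Polynomial.eval_mul, Polynomial.eval_C,
        Polynomial.eval_C, Polynomial.eval_X, eval_C, hins]
      rfl
  rw [h1, Polynomial.map_mul, Polynomial.eval_mul, Polynomial.map_C, Polynomial.eval_C, eval_C]
  congr 2
  rw [Polynomial.map_prod, Polynomial.eval_prod]
  refine Finset.prod_congr rfl fun i _ => ?_
  rw [Polynomial.map_pow, Polynomial.eval_pow, Polynomial.map_add, Polynomial.map_one,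
    Polynomial.map_mul, Polynomial.map_X, Polynomial.map_C, eval_X, Polynomial.eval_add,
    Polynomial.eval_one, Polynomial.eval_mul, Polynomial.eval_X, Polynomial.eval_C, mul_comm t]

end Pool.Agent.H49C
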