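import Pool.Agent.Lib.H89.CommonZero
import Pool.Agent.Lib.H49C.L1

set_option autoImplicit false

open MvPolynomial

namespace Pool.Agent.H49C

theorem l2_degA {n k : ℕ} {κ : Type*} [Fintype κ] {F : MvPolynomial (Fin (n + 1)) ℂ}
    (hF : F.IsHomogeneous k)
    (q : Fin (n + 1) → Polynomial (MvPolynomial (Fin n ⊕ κ) ℂ)) (hq : ∀ i, (q i).natDegree ≤ 1) :
    (aeval q F).natDegree ≤ k := by
  rw [aeval_def, eval₂_eq']
  refine Polynomial.natDegree_sum_le_of_forall_le _ _ fun d hd => ?_
  have h1 := hF (mem_support_iff.1 hd)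
  have h2 : ∑ i, d i = k := by
    rw [← h1, Finsupp.weight_apply, Finsupp.sum_fintype _ _ (by simp)]
    simp
  refine (Polynomial.natDegree_C_mul_le _ _).trans ?_
  refine (Polynomial.natDegree_prod_le _ _).trans ?_
  rw [← h2]
  refine Finset.sum_le_sum fun i _ => ?_
  refine Polynomial.natDegree_pow_le.trans ?_
  have := hq i
  calc d i * (q i).natDegree ≤ d i * 1 := Nat.mul_le_mul_left _ this
    _ = d i := mul_one _

theorem l2_deg {n k : ℕ} {κ : Type*} [Fintype κ] {F : MvPolynomial (Fin (n + 1)) ℂ}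
    (hF : F.IsHomogeneous k) (x : Fin (n + 1) → ℂ) (i₀ : Fin (n + 1)) (e : κ → ℕ)
    (hsum : ∑ i, e i = k) : (lineP F x i₀ e).natDegree ≤ k := by
  unfold lineP
  refine (Polynomial.natDegree_sub_le _ _).trans (max_le ?_ ?_)
  · refine l2_degA hF _ fun i => ?_
    refine (Polynomial.natDegree_add_le _ _).trans (max_le (by simp) ?_)
    refine Polynomial.natDegree_mul_le.trans ?_
    simp [Polynomial.natDegree_X_le]
  · refine (Polynomial.natDegree_C_mul_le _ _).trans ?_
    refine (Polynomial.natDegree_prod_le _ _).trans ?_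
    rw [← hsum]
    refine Finset.sum_le_sum fun i _ => ?_
    refine Polynomial.natDegree_pow_le.trans ?_
    have : (1 + Polynomial.X * Polynomial.C (X (Sum.inr i)) :
        Polynomial (MvPolynomial (Fin n ⊕ κ) ℂ)).natDegree ≤ 1 := by
      refine (Polynomial.natDegree_add_le _ _).trans (max_le (by simp) ?_)
      refine Polynomial.natDegree_mul_le.trans ?_
      simp [Polynomial.natDegree_X_le]
    calc e i * _ ≤ e i * 1 := Nat.mul_le_mul_left _ this
      _ = e i := mul_one _

theorem l2_zero {n k : ℕ} (hk : 1 ≤ k) {F : MvPolynomial (Fin (n + 1)) ℂ}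
    (hF : F.IsHomogeneous k) : eval (0 : Fin (n + 1) → ℂ) F = 0 := by
  rw [eval_eq']
  refine Finset.sum_eq_zero fun d hd => ?_
  have h1 := hF (mem_support_iff.1 hd)
  have h2 : ∃ i, d i ≠ 0 := by
    by_contra hcon
    push Not at hcon
    have : d = 0 := by ext i; simp [hcon i]
    rw [this] at h1
    simp at h1
    omega
  obtain ⟨i, hi⟩ := h2
  rw [Finset.prod_eq_zero (Finset.mem_univ i) (by simp [hi]), mul_zero]

theorem l2_smul {n k : ℕ} {F : MvPolynomial (Fin (n + 1)) ℂ} (hF : F.IsHomogeneous k) (t : ℂ)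
    (x : Fin (n + 1) → ℂ) : eval (t • x) F = t ^ k * eval x F := by
  rw [eval_eq', eval_eq', Finset.mul_sum]
  refine Finset.sum_congr rfl fun d hd => ?_
  have h1 := hF (mem_support_iff.1 hd)
  have h2 : ∑ i, d i = k := by
    rw [← h1, Finsupp.weight_apply, Finsupp.sum_fintype _ _ (by simp)]
    simp
  simp only [Pi.smul_apply, smul_eq_mul, mul_pow, Finset.prod_mul_distrib]
  rw [Finset.prod_pow_eq_pow_sum, h2]
  ring

theorem l2_cont {n : ℕ} (F : MvPolynomial (Fin (n + 1)) ℂ) (x v : Fin (n + 1) → ℂ) (Y : ℂ) :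
    Continuous fun X : ℂ => eval (X • x + Y • v) F := by
  refine (MvPolynomial.continuous_eval F).comp ?_
  refine continuous_pi fun i => ?_
  simp only [Pi.add_apply, Pi.smul_apply, smul_eq_mul]
  fun_prop

/-- Chunk L2 (M). Lines on which `F` is `F (x)` times a product of given powers of linear forms.
PROOF. F ≠ 0 has degree k ≥ 1 and eval x F ≠ 0, so x ≠ 0: eval 0 F = 0 for a form of degree ≥ 1 (IsHomogeneous.eval_zero or coefficient 0), x i₀ ≠ 0.
Unknowns ι = Fin n ⊕ κ, card = n + card κ > k. Equations, j : Fin k: P j := (lineP F x i₀ e).coeff (j + 1). At the origin: (lineP ..).map (eval 0) = C (eval x F) - C (eval x F) * 1 = 0 by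
lineP_eval with p = 0 (the polynomial vanishes at all t: Polynomial.funext; insertNth 0 0 = 0), so eval 0 (P j) = coeff of the map = 0.
H89.exists_ne_zero_common_zero gives p ≠ 0 with eval p (P j) = 0 for all j. Let q := (lineP ..).map (eval p) : ℂ[X]. Its coefficients at 1..k vanish; the coefficient at 0 is q.eval 0 = eval x F - eval x F = 0;
the coefficients > k vanish because q has degree ≤ k: q.eval t = eval (x + t • v) F - eval x F ∏ .. (lineP_eval), and natDegree (lineP ..) ≤ k: the aeval term is a sum over monomials d of F (d.sum = k) of constants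
times products of k polynomials of degree ≤ 1 (Polynomial.natDegree_sum_le_of_forall_le, natDegree_prod_le, natDegree_pow_le), the product term ∏ (1 + X C _)^(e i) has natDegree ≤ ∑ e i = k. So q = 0 and
eval (x + t • v) F = eval x F * ∏ (1 + ξ i t)^(e i) for all t, v := i₀.insertNth 0 (p ∘ inl), ξ := p ∘ inr.
v ≠ 0: if v = 0 then ∏ (1 + ξ i t)^(e i) = 1 for all t, hence (if some ξ i ≠ 0, take t = -1 / ξ i: the product is 0 as e i ≥ 1, contradiction) all ξ i = 0 and p = 0, contradiction.
Independence: a x + b v = 0 at i₀: a x i₀ = 0, so a = 0, then b v = 0, b = 0.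
Homogenize: for X ≠ 0: eval (X • x + Y • v) F = X^k eval (x + (Y / X) • v) F (IsHomogeneous.eval_smul or its like; X • (x + (Y/X) • v)) = X^k F(x) ∏ (1 + ξ i Y / X)^(e i) = F(x) ∏ (X + ξ i Y)^(e i) as ∑ e i = k.
For X = 0: both sides are continuous in X (polynomial functions) and agree for X ≠ 0, which is dense (Continuous.ext_on with dense_compl_singleton 0). -/
theorem line_exists {n k : ℕ} {F : MvPolynomial (Fin (n + 1)) ℂ} (hF : F.IsHomogeneous k)
    (hk : 1 ≤ k) {x : Fin (n + 1) → ℂ} (hx : eval x F ≠ 0) {κ : Type} [Fintype κ] (e : κ → ℕ)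
    (he : ∀ i, 1 ≤ e i) (hsum : ∑ i, e i = k) (hcard : k < n + Fintype.card κ) :
    ∃ (v : Fin (n + 1) → ℂ) (ξ : κ → ℂ), (∀ a b : ℂ, a • x + b • v = 0 → a = 0 ∧ b = 0) ∧
      ∀ X Y : ℂ, eval (X • x + Y • v) F = eval x F * ∏ i, (X + ξ i * Y) ^ e i := by
  classical
  obtain ⟨i₀, hi₀⟩ : ∃ i₀, x i₀ ≠ 0 := by
    by_contra hcon
    push Not at hcon
    apply hx
    rw [show x = 0 from funext hcon]
    exact l2_zero hk hF
  -- the equations
  have hP : ∀ j : Fin k, eval (0 : Fin n ⊕ κ → ℂ) ((lineP F x i₀ e).coeff (j + 1)) = 0 := by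
    intro j
    have h1 : (lineP F x i₀ e).map (eval (0 : Fin n ⊕ κ → ℂ)) = 0 := by
      refine Polynomial.funext fun t => ?_
      rw [lineP_eval, Polynomial.eval_zero]
      have h2 : i₀.insertNth (α := fun _ => ℂ) (0 : ℂ) (fun k => (0 : Fin n ⊕ κ → ℂ) (Sum.inl k)) = 0 := by
        funext i
        refine i₀.succAboveCases ?_ (fun k => ?_) i
        · simp
        · simp
      rw [h2]
      simp
    rw [← Polynomial.coeff_map, h1, Polynomial.coeff_zero]
  obtain ⟨p, hp0, hp⟩ := Pool.Agent.H89.exists_ne_zero_common_zero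
    (fun j : Fin k => (lineP F x i₀ e).coeff (j + 1)) hP (by
      rw [Fintype.card_fin, Fintype.card_sum, Fintype.card_fin]; exact hcard)
  set q := (lineP F x i₀ e).map (eval p) with hq
  set v : Fin (n + 1) → ℂ := i₀.insertNth (0 : ℂ) fun k => p (Sum.inl k) with hv
  set ξ : κ → ℂ := fun i => p (Sum.inr i) with hξ
  have hqe : ∀ t, q.eval t = eval (x + t • v) F - eval x F * ∏ i, (1 + ξ i * t) ^ e i :=
    fun t => lineP_eval F x i₀ e p t
  have hq0 : q = 0 := by
    ext m
    rw [Polynomial.coeff_zero]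
    rcases Nat.eq_zero_or_pos m with rfl | hm
    · rw [Polynomial.coeff_zero_eq_eval_zero, hqe]
      simp
    · by_cases hmk : m ≤ k
      · have := hp ⟨m - 1, by omega⟩
        simp only at this
        rw [Nat.sub_add_cancel hm] at this
        rw [hq, Polynomial.coeff_map]
        exact this
      · refine Polynomial.coeff_eq_zero_of_natDegree_lt ?_
        refine lt_of_le_of_lt (Polynomial.natDegree_map_le.trans (l2_deg hF x i₀ e hsum)) ?_
        omega
  have hid : ∀ t, eval (x + t • v) F = eval x F * ∏ i, (1 + ξ i * t) ^ e i := by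
    intro t
    have := hqe t
    rw [hq0, Polynomial.eval_zero] at this
    exact (sub_eq_zero.1 this.symm)
  have hv0 : v ≠ 0 := by
    intro h0
    apply hp0
    have h1 : ∀ i, ξ i = 0 := by
      intro i
      by_contra hi
      have h2 := hid (-1 / ξ i)
      rw [h0, smul_zero, add_zero] at h2
      have h3 : ∏ i', (1 + ξ i' * (-1 / ξ i)) ^ e i' = 0 := by
        refine Finset.prod_eq_zero (Finset.mem_univ i) ?_
        have h4 : 1 + ξ i * (-1 / ξ i) = 0 := by
          field_simp
          ring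
        have := he i
        rw [h4, zero_pow (by omega)]
      rw [h3, mul_zero] at h2
      exact hx h2
    funext a
    rcases a with k' | i
    · have := congrFun h0 (i₀.succAbove k')
      rw [hv, Fin.insertNth_apply_succAbove] at this
      exact this
    · exact h1 i
  have hvi : v i₀ = 0 := by
    rw [hv, Fin.insertNth_apply_same]
  refine ⟨v, ξ, fun a b hab => ?_, ?_⟩
  · have h1 := congrFun hab i₀
    simp only [Pi.add_apply, Pi.smul_apply, smul_eq_mul, Pi.zero_apply, hvi, mul_zero,
      add_zero] at h1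
    have ha : a = 0 := (mul_eq_zero.1 h1).resolve_right hi₀
    refine ⟨ha, ?_⟩
    rw [ha, zero_smul, zero_add] at hab
    exact (smul_eq_zero.1 hab).resolve_right hv0
  · have hne : ∀ X Y : ℂ, X ≠ 0 → eval (X • x + Y • v) F = eval x F * ∏ i, (X + ξ i * Y) ^ e i := by
      intro X' Y' hX
      have h1 : X' • x + Y' • v = X' • (x + (Y' / X') • v) := by
        rw [smul_add, smul_smul, mul_div_cancel₀ _ hX]
      rw [h1, l2_smul hF, hid]
      have h2 : ∏ i, (X' + ξ i * Y') ^ e i = X' ^ k * ∏ i, (1 + ξ i * (Y' / X')) ^ e i := by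
        rw [← hsum, ← Finset.prod_pow_eq_pow_sum, ← Finset.prod_mul_distrib]
        refine Finset.prod_congr rfl fun i _ => ?_
        rw [← mul_pow]
        congr 1
        field_simp
      rw [h2]
      ring
    intro X' Y'
    have h1 : (fun X : ℂ => eval (X • x + Y' • v) F) =
        fun X : ℂ => eval x F * ∏ i, (X + ξ i * Y') ^ e i := by
      apply (l2_cont F x v Y').ext_on (dense_compl_singleton (0 : ℂ))
      · fun_prop
      · intro X hX
        exact hne X Y' hX
    exact congrFun h1 X'

end Pool.Agent.H49C
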