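import Pool.Agent.Lib.H49C.W5
import Pool.Agent.Lib.H49C.G1

set_option autoImplicit false

namespace Pool.Agent.H49C

theorem q2_pair (b c d : ℂ) : ∃ X Y W : ℂ → ℂ, Ent X Y ∧ Differentiable ℂ W ∧
    ∀ τ, W τ ^ 2 = (X τ + b * Y τ) * (X τ + c * Y τ) * (X τ + d * Y τ) ^ 2 := by
  obtain ⟨X, Y, W, h, hW, hW2⟩ := u_gen 2 (by norm_num) b c
  refine ⟨X, Y, fun τ => W τ * (X τ + d * Y τ), h, hW.mul (h.dX.add (h.dY.const_mul d)), fun τ => ?_⟩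
  have h1 := hW2 τ
  simp only [Nat.add_one_sub_one, pow_one] at h1
  show (W τ * (X τ + d * Y τ)) ^ 2 = _
  rw [mul_pow, h1]

theorem q2_dist (a0 a1 a2 a3 : ℂ) (h01 : a0 ≠ a1) (h02 : a0 ≠ a2) (h12 : a1 ≠ a2) (h03 : a0 ≠ a3)
    (h13 : a1 ≠ a3) (h23 : a2 ≠ a3) : ∃ X Y W : ℂ → ℂ, Ent X Y ∧ Differentiable ℂ W ∧
    ∀ τ, W τ ^ 2 = (X τ + a0 * Y τ) * (X τ + a1 * Y τ) * (X τ + a2 * Y τ) * (X τ + a3 * Y τ) := by
  have d0 : a0 - a3 ≠ 0 := sub_ne_zero.2 h03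
  have d1 : a1 - a3 ≠ 0 := sub_ne_zero.2 h13
  have d2 : a2 - a3 ≠ 0 := sub_ne_zero.2 h23
  obtain ⟨e0, he0⟩ : ∃ e, e = 1 / (a0 - a3) := ⟨_, rfl⟩
  obtain ⟨e1, he1⟩ : ∃ e, e = 1 / (a1 - a3) := ⟨_, rfl⟩
  obtain ⟨e2, he2⟩ : ∃ e, e = 1 / (a2 - a3) := ⟨_, rfl⟩
  have g0 : (a0 - a3) * e0 = 1 := by rw [he0]; field_simp
  have g1 : (a1 - a3) * e1 = 1 := by rw [he1]; field_simp
  have g2 : (a2 - a3) * e2 = 1 := by rw [he2]; field_simp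
  have k01 : e0 ≠ e1 := by
    intro h
    apply h01
    have h1 : (a0 - a3) * (a1 - a3) * (e0 - e1) = a1 - a0 := by linear_combination (a1 - a3) * g0 - (a0 - a3) * g1
    rw [h, sub_self, mul_zero] at h1
    exact (sub_eq_zero.1 h1.symm).symm
  have k02 : e0 ≠ e2 := by
    intro h
    apply h02
    have h1 : (a0 - a3) * (a2 - a3) * (e0 - e2) = a2 - a0 := by linear_combination (a2 - a3) * g0 - (a0 - a3) * g2
    rw [h, sub_self, mul_zero] at h1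
    exact (sub_eq_zero.1 h1.symm).symm
  have k12 : e1 ≠ e2 := by
    intro h
    apply h12
    have h1 : (a1 - a3) * (a2 - a3) * (e1 - e2) = a2 - a1 := by linear_combination (a2 - a3) * g1 - (a1 - a3) * g2
    rw [h, sub_self, mul_zero] at h1
    exact (sub_eq_zero.1 h1.symm).symm
  obtain ⟨s, hs⟩ : ∃ s, s = (e0 + e1 + e2) / 3 := ⟨_, rfl⟩
  have hs3 : 3 * s = e0 + e1 + e2 := by rw [hs]; ring
  obtain ⟨A, hA⟩ : ∃ A, A = (e0 - s) * (e1 - s) + (e0 - s) * (e2 - s) + (e1 - s) * (e2 - s) := ⟨_, rfl⟩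
  obtain ⟨B, hB⟩ : ∃ B, B = (e0 - s) * (e1 - s) * (e2 - s) := ⟨_, rfl⟩
  have he : e2 = 3 * s - e0 - e1 := by linear_combination -hs3
  have hdisc : 4 * A ^ 3 + 27 * B ^ 2 = -((e0 - e1) * (e0 - e2) * (e1 - e2)) ^ 2 := by
    rw [hA, hB, he]
    ring
  have hne : 4 * A ^ 3 + 27 * B ^ 2 ≠ 0 := by
    rw [hdisc]
    exact neg_ne_zero.2 (pow_ne_zero 2 (mul_ne_zero (mul_ne_zero (sub_ne_zero.2 k01) (sub_ne_zero.2 k02))
      (sub_ne_zero.2 k12)))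
  obtain ⟨U, V, W, h, hW, hW2⟩ := weier hne
  obtain ⟨d, hd⟩ : ∃ d : ℂ, d ^ 2 = (a0 - a3) * (a1 - a3) * (a2 - a3) :=
    IsAlgClosed.exists_pow_nat_eq _ (by norm_num)
  refine ⟨fun τ => (1 + a3 * s) * U τ + (-a3) * V τ, fun τ => (-s) * U τ + 1 * V τ, fun τ => d * W τ,
    h.lin (by ring_nf; norm_num), hW.const_mul d, fun τ => ?_⟩
  have h1 := hW2 τ
  have h2 : qf A B (U τ) (V τ) = U τ * (V τ + (e0 - s) * U τ) * (V τ + (e1 - s) * U τ) *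
      (V τ + (e2 - s) * U τ) := by
    unfold qf
    rw [hA, hB, he]
    ring
  show (d * W τ) ^ 2 = _
  rw [mul_pow, hd, h1, h2]
  have f3 : (1 + a3 * s) * U τ + (-a3) * V τ + a3 * ((-s) * U τ + 1 * V τ) = U τ := by ring
  have f0 : (1 + a3 * s) * U τ + (-a3) * V τ + a0 * ((-s) * U τ + 1 * V τ) =
      (a0 - a3) * (V τ + (e0 - s) * U τ) := by linear_combination -(U τ) * g0
  have f1 : (1 + a3 * s) * U τ + (-a3) * V τ + a1 * ((-s) * U τ + 1 * V τ) =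
      (a1 - a3) * (V τ + (e1 - s) * U τ) := by linear_combination -(U τ) * g1
  have f2 : (1 + a3 * s) * U τ + (-a3) * V τ + a2 * ((-s) * U τ + 1 * V τ) =
      (a2 - a3) * (V τ + (e2 - s) * U τ) := by linear_combination -(U τ) * g2
  rw [f0, f1, f2, f3]
  ring

/-- Chunk Q2 (M). W^2 = product of four linear forms.
PROOF. (1) Two of the a i are equal. By symmetry (the statement for a permutation; write the product as a0 a1 a2 a3 with Fin.prod_univ_four and make a lemma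
for b c d d: W' from u_gen 2 for b, c, W := W' (X + d Y)) done.
(2) All distinct. Put δ i = a i - a 3 ≠ 0 for i = 0, 1, 2 (distinct), ε i = 1 / δ i (distinct), D = δ 0 δ 1 δ 2, σ = (ε 0 + ε 1 + ε 2) / 3, e i = ε i - σ (sum 0, distinct).
A = e0 e1 + e0 e2 + e1 e2, B = e0 e1 e2; 4 A^3 + 27 B^2 = -((e0-e1)(e0-e2)(e1-e2))^2 ≠ 0 (using e2 = - e0 - e1, ring). weier: (U, V, W0), W0^2 = qf A B U V = U (V + e0 U)(V + e1 U)(V + e2 U).
Put Y = V - σ U... precisely: want X + a 3 Y = U and Y + ε i U = V + e i U, i.e. Y = V - σ U, X = U - a 3 Y = (1 + a 3 σ) U - a 3 V. Then X + a i Y = U + δ i Y = δ i (Y + ε i U).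
So the product is D * U * ∏ (V + e i U) = D W0^2; W = d W0 with d^2 = D (IsAlgClosed.exists_pow_nat_eq or Complex.cpow). Ent by Ent.lin (determinant
(1 + a3 σ) * 1 - (-a3) * (-σ) = 1). -/
theorem u_two (a : Fin 4 → ℂ) : ∃ X Y W : ℂ → ℂ, Ent X Y ∧ Differentiable ℂ W ∧
    ∀ τ, W τ ^ 2 = ∏ i, (X τ + a i * Y τ) := by
  simp only [Fin.prod_univ_four]
  by_cases h01 : a 0 = a 1
  · obtain ⟨X, Y, W, h, hW, h2⟩ := q2_pair (a 2) (a 3) (a 0)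
    exact ⟨X, Y, W, h, hW, fun τ => by rw [h2 τ, ← h01]; ring⟩
  by_cases h02 : a 0 = a 2
  · obtain ⟨X, Y, W, h, hW, h2⟩ := q2_pair (a 1) (a 3) (a 0)
    exact ⟨X, Y, W, h, hW, fun τ => by rw [h2 τ, ← h02]; ring⟩
  by_cases h03 : a 0 = a 3
  · obtain ⟨X, Y, W, h, hW, h2⟩ := q2_pair (a 1) (a 2) (a 0)
    exact ⟨X, Y, W, h, hW, fun τ => by rw [h2 τ, ← h03]; ring⟩
  by_cases h12 : a 1 = a 2
  · obtain ⟨X, Y, W, h, hW, h2⟩ := q2_pair (a 0) (a 3) (a 1)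
    exact ⟨X, Y, W, h, hW, fun τ => by rw [h2 τ, ← h12]; ring⟩
  by_cases h13 : a 1 = a 3
  · obtain ⟨X, Y, W, h, hW, h2⟩ := q2_pair (a 0) (a 2) (a 1)
    exact ⟨X, Y, W, h, hW, fun τ => by rw [h2 τ, ← h13]; ring⟩
  by_cases h23 : a 2 = a 3
  · obtain ⟨X, Y, W, h, hW, h2⟩ := q2_pair (a 0) (a 1) (a 2)
    exact ⟨X, Y, W, h, hW, fun τ => by rw [h2 τ, ← h23]; ring⟩
  exact q2_dist (a 0) (a 1) (a 2) (a 3) h01 h02 h12 h03 h13 h23

end Pool.Agent.H49C
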