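import Pool.Agent.Lib.H49C.W5
import Pool.Agent.Lib.H49C.G1
import Pool.Agent.Lib.H49C.E1

set_option autoImplicit false

open Finset

namespace Pool.Agent.H49C

/-- the nonconstancy -/
theorem q3_nc {U V W0 : ℂ → ℂ} (hUV : Ent U V) (hW : ∀ τ, W0 τ ^ 2 = U τ * (U τ ^ 3 + V τ ^ 3))
    {p q : ℂ} (h : ∀ τ, p * (V τ ^ 6 + 20 * U τ ^ 3 * V τ ^ 3 - 8 * U τ ^ 6 - 8 * W0 τ ^ 3) +
      q * (V τ ^ 6 + 20 * U τ ^ 3 * V τ ^ 3 - 8 * U τ ^ 6 + 8 * W0 τ ^ 3) = 0) : p = 0 ∧ q = 0 := by
  have h1 : ∀ τ, (p + q) ^ 2 * (V τ ^ 6 + 20 * U τ ^ 3 * V τ ^ 3 - 8 * U τ ^ 6) ^ 2 -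
      64 * (p - q) ^ 2 * (U τ * (U τ ^ 3 + V τ ^ 3)) ^ 3 = 0 := by
    intro τ
    have e := h τ
    rw [← hW τ]
    have e' : (p + q) * (V τ ^ 6 + 20 * U τ ^ 3 * V τ ^ 3 - 8 * U τ ^ 6) = 8 * (p - q) * W0 τ ^ 3 := by
      linear_combination e
    have e2 := congrArg (fun z => z ^ 2) e'
    linear_combination e2
  set c : ℕ → ℂ := fun i => (p + q) ^ 2 * (if i = 12 then 1 else if i = 9 then 40 else
    if i = 6 then 384 else if i = 3 then -320 else if i = 0 then 64 else 0) -
    64 * (p - q) ^ 2 * (if i = 9 then 1 else if i = 6 then 3 else if i = 3 then 3 else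
      if i = 0 then 1 else 0) with hc
  have h2 := ent_poly hUV 12 c (fun τ => by
    have h3 := h1 τ
    simp only [Finset.sum_range_succ, Finset.sum_range_zero, hc]
    norm_num
    linear_combination h3)
  have c12 := h2 12 (le_refl _)
  have c0 := h2 0 (by norm_num)
  simp only [hc] at c12 c0
  norm_num at c12 c0
  have s1 : p + q = 0 := c12
  have s2 : p - q = 0 := by
    have : (p - q) ^ 2 = 0 := by
      have h5 : (p + q) ^ 2 = 0 := by rw [s1]; ring
      linear_combination -(1 / 64) * c0 + h5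
    exact pow_eq_zero_iff (two_ne_zero) |>.1 this
  constructor
  · linear_combination (s1 + s2) / 2
  · linear_combination (s1 - s2) / 2

theorem q3_ne (a b c : ℂ) (hab : a ≠ b) (hac : a ≠ c) (hbc : b ≠ c) :
    ∃ X Y W : ℂ → ℂ, Ent X Y ∧ Differentiable ℂ W ∧
    ∀ τ, W τ ^ 3 = (X τ + a * Y τ) * (X τ + b * Y τ) * (X τ + c * Y τ) := by
  have h1 : a - b ≠ 0 := sub_ne_zero.2 hab
  have h2 : c - a ≠ 0 := sub_ne_zero.2 (Ne.symm hac)
  have h3 : b - c ≠ 0 := sub_ne_zero.2 hbc
  obtain ⟨U, V, W0, hUV, hW0, hW'⟩ := weier (A := 0) (B := 1) (by norm_num)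
  have hW : ∀ τ, W0 τ ^ 2 = U τ * (U τ ^ 3 + V τ ^ 3) := by
    intro τ
    rw [hW' τ, qf]
    ring
  obtain ⟨δ, hδ⟩ := IsAlgClosed.exists_pow_nat_eq (-16 / ((b - c) * (c - a) * (a - b))) (n := 3)
    (by norm_num)
  set α : ℂ → ℂ := fun τ => V τ ^ 6 + 20 * U τ ^ 3 * V τ ^ 3 - 8 * U τ ^ 6 - 8 * W0 τ ^ 3 with hα
  set β : ℂ → ℂ := fun τ => V τ ^ 6 + 20 * U τ ^ 3 * V τ ^ 3 - 8 * U τ ^ 6 + 8 * W0 τ ^ 3 with hβ
  have dU := hUV.dX
  have dV := hUV.dY
  have dα : Differentiable ℂ α := by rw [hα]; fun_prop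
  have dβ : Differentiable ℂ β := by rw [hβ]; fun_prop
  set Y : ℂ → ℂ := fun τ => (α τ / (b - c) + β τ / (c - a)) / (a - b) with hY
  set X : ℂ → ℂ := fun τ => α τ / (b - c) - a * Y τ with hX
  have dY : Differentiable ℂ Y := ((dα.div_const _).add (dβ.div_const _)).div_const _
  have dX : Differentiable ℂ X := (dα.div_const _).sub (dY.const_mul a)
  have la : ∀ τ, X τ + a * Y τ = α τ / (b - c) := by
    intro τ
    simp only [hX]
    ring
  have lb : ∀ τ, X τ + b * Y τ = -β τ / (c - a) := by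
    intro τ
    simp only [hX, hY]
    field_simp
    ring
  have lc : ∀ τ, X τ + c * Y τ = 16 * W0 τ ^ 3 / (a - b) := by
    intro τ
    simp only [hX, hY, hα, hβ]
    field_simp
    ring
  have hprod : ∀ τ, α τ * β τ = (V τ * (V τ ^ 3 - 8 * U τ ^ 3)) ^ 3 := by
    intro τ
    simp only [hα, hβ]
    have e := hW τ
    have e3 := congrArg (fun z => z ^ 3) e
    linear_combination (-64) * e3
  refine ⟨X, Y, fun τ => δ * (V τ * (V τ ^ 3 - 8 * U τ ^ 3) * W0 τ), ⟨dX, dY, ?_, ?_⟩, ?_, ?_⟩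
  · intro τ
    by_contra hcon
    push Not at hcon
    obtain ⟨hx, hy⟩ := hcon
    have ha := la τ
    have hb := lb τ
    rw [hx, hy] at ha hb
    simp only [mul_zero, add_zero] at ha hb
    have ha' : α τ = 0 := by
      have := (div_eq_zero_iff.1 ha.symm).resolve_right h3
      exact this
    have hb' : β τ = 0 := by
      have := (div_eq_zero_iff.1 hb.symm).resolve_right h2
      exact neg_eq_zero.1 this
    simp only [hα, hβ] at ha' hb'
    have hψ : V τ ^ 6 + 20 * U τ ^ 3 * V τ ^ 3 - 8 * U τ ^ 6 = 0 := by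
      linear_combination (ha' + hb') / 2
    have hw : W0 τ ^ 3 = 0 := by linear_combination (hb' - ha') / 16
    have hw0 : W0 τ = 0 := pow_eq_zero_iff (three_ne_zero) |>.1 hw
    have e := hW τ
    rw [hw0, zero_pow two_ne_zero] at e
    rcases mul_eq_zero.1 e.symm with hU | hUV'
    · rw [hU] at hψ
      have hV : V τ ^ 6 = 0 := by linear_combination hψ
      have hV0 : V τ = 0 := pow_eq_zero_iff (by norm_num) |>.1 hV
      exact (hUV.nz τ).elim (fun h => h hU) (fun h => h hV0)
    · have hV3 : V τ ^ 3 = -U τ ^ 3 := by linear_combination hUV'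
      have hU6 : U τ ^ 6 = 0 := by
        have h6 : V τ ^ 6 = U τ ^ 6 := by
          have := congrArg (fun z => z ^ 2) hV3
          linear_combination this
        have h7 : -27 * U τ ^ 6 = 0 := by
          rw [h6, hV3] at hψ
          linear_combination hψ
        linear_combination (-1 / 27) * h7
      have hU0 : U τ = 0 := pow_eq_zero_iff (by norm_num) |>.1 hU6
      have hV0 : V τ = 0 := by
        rw [hU0] at hV3
        have : V τ ^ 3 = 0 := by rw [hV3]; ring
        exact pow_eq_zero_iff (by norm_num) |>.1 this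
      exact (hUV.nz τ).elim (fun h => h hU0) (fun h => h hV0)
  · by_contra hcon
    push Not at hcon
    -- a point where (X, Y) is not zero: any point, by the first part; use it through the constants
    have key : ∀ x y : ℂ, (∀ τ, X τ * y = x * Y τ) → x = 0 ∧ y = 0 := by
      intro x y hxy
      have h5 := q3_nc hUV hW (p := (y * (1 / (b - c)) - (a * y + x) * (1 / ((b - c) * (a - b)))))
        (q := -((a * y + x) * (1 / ((c - a) * (a - b))))) (fun τ => by
          have e := hxy τ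
          simp only [hX, hY, hα, hβ] at e
          have e' : (V τ ^ 6 + 20 * U τ ^ 3 * V τ ^ 3 - 8 * U τ ^ 6 - 8 * W0 τ ^ 3) / (b - c) * y -
            (a * y + x) * (((V τ ^ 6 + 20 * U τ ^ 3 * V τ ^ 3 - 8 * U τ ^ 6 - 8 * W0 τ ^ 3) / (b - c) +
              (V τ ^ 6 + 20 * U τ ^ 3 * V τ ^ 3 - 8 * U τ ^ 6 + 8 * W0 τ ^ 3) / (c - a)) / (a - b)) = 0 := by
            linear_combination e
          rw [← e']
          field_simp
          ring)
      obtain ⟨h6, h7⟩ := h5
      have h8 : a * y + x = 0 := by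
        have h9 := neg_eq_zero.1 h7
        rcases mul_eq_zero.1 h9 with h | h
        · exact h
        · exact absurd h (one_div_ne_zero (mul_ne_zero h2 h1))
      rw [h8, zero_mul, sub_zero] at h6
      have h10 : y = 0 := by
        rcases mul_eq_zero.1 h6 with h | h
        · exact h
        · exact absurd h (one_div_ne_zero h3)
      refine ⟨?_, h10⟩
      rw [h10] at h8
      linear_combination h8
    have hnz : X 0 ≠ 0 ∨ Y 0 ≠ 0 := by
      by_contra hc2
      push Not at hc2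
      -- if (X, Y)(0) = 0 then everything is free: use another argument
      have ha := la 0
      have hb := lb 0
      rw [hc2.1, hc2.2] at ha hb
      simp only [mul_zero, add_zero] at ha hb
      have ha' : α 0 = 0 := (div_eq_zero_iff.1 ha.symm).resolve_right h3
      have hb' : β 0 = 0 := neg_eq_zero.1 ((div_eq_zero_iff.1 hb.symm).resolve_right h2)
      simp only [hα, hβ] at ha' hb'
      have hψ : V 0 ^ 6 + 20 * U 0 ^ 3 * V 0 ^ 3 - 8 * U 0 ^ 6 = 0 := by
        linear_combination (ha' + hb') / 2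
      have hw : W0 0 ^ 3 = 0 := by linear_combination (hb' - ha') / 16
      have hw0 : W0 0 = 0 := pow_eq_zero_iff (three_ne_zero) |>.1 hw
      have e := hW 0
      rw [hw0, zero_pow two_ne_zero] at e
      rcases mul_eq_zero.1 e.symm with hU | hUV'
      · rw [hU] at hψ
        have hV : V 0 ^ 6 = 0 := by linear_combination hψ
        have hV0 : V 0 = 0 := pow_eq_zero_iff (by norm_num) |>.1 hV
        exact (hUV.nz 0).elim (fun h => h hU) (fun h => h hV0)
      · have hV3 : V 0 ^ 3 = -U 0 ^ 3 := by linear_combination hUV'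
        have hU6 : U 0 ^ 6 = 0 := by
          have h6 : V 0 ^ 6 = U 0 ^ 6 := by
            have := congrArg (fun z => z ^ 2) hV3
            linear_combination this
          have h7 : -27 * U 0 ^ 6 = 0 := by
            rw [h6, hV3] at hψ
            linear_combination hψ
          linear_combination (-1 / 27) * h7
        have hU0 : U 0 = 0 := pow_eq_zero_iff (by norm_num) |>.1 hU6
        have hV0 : V 0 = 0 := by
          rw [hU0] at hV3
          have : V 0 ^ 3 = 0 := by rw [hV3]; ring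
          exact pow_eq_zero_iff (by norm_num) |>.1 this
        exact (hUV.nz 0).elim (fun h => h hU0) (fun h => h hV0)
    obtain ⟨hx, hy⟩ := key (X 0) (Y 0) (fun τ => by
      have := hcon τ 0
      rw [this])
    exact hnz.elim (fun h => h hx) (fun h => h hy)
  · have dW := hW0
    fun_prop
  · intro τ
    rw [mul_pow, mul_pow, hδ, la, lb, lc, ← hprod τ]
    field_simp

/-- Chunk Q3 (M). W^3 = product of three linear forms.
PROOF. (1) Two of a, b, c equal: u_gen 3 ((X + a Y)(X + b Y)^2) (three cases).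
(2) All distinct. weier with A = 0, B = 1 (4*0+27 ≠ 0): (U, V, W0), W0^2 = U V^3 + U^4 = U (U^3 + V^3). Put ψ = V^6 + 20 U^3 V^3 - 8 U^6, α = ψ - 8 W0^3, β = ψ + 8 W0^3, γ = W0^3; then
α - β + 16 γ = 0 and α β = ψ^2 - 64 W0^6 = ψ^2 - 64 U^3 (U^3 + V^3)^3 = (V (V^3 - 8 U^3))^3 (ring), α β γ = (V (V^3 - 8 U^3) W0)^3.
Linear relation between the forms l_a = X + a Y etc.: (b - c) l_a + (c - a) l_b + (a - b) l_c = 0. Choose l_a = α / (b - c), l_b = - β / (c - a), l_c = 16 γ / (a - b): consistent. Solve: Y = (l_a - l_b) / (a - b),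
X = l_a - a Y; then X + a Y = l_a, X + b Y = l_b, X + c Y = l_c (from the relation; field_simp). W := d * V (V^3 - 8 U^3) W0 with d^3 = -16 / ((b - c)(c - a)(a - b)).
Ent X Y: differentiable; if X = Y = 0 at τ then α = β = 0 (l_a = l_b = 0), so ψ = 0 and W0^3 = 0, W0 = 0, U (U^3 + V^3) = 0: U = 0 gives ψ = V^6 = 0, V = 0, contradiction;
V^3 = - U^3 gives ψ = U^6 - 20 U^6 - 8 U^6 = -27 U^6, U = 0, V = 0, contradiction. Nonconstant: if X τ * Y τ' = X τ' * Y τ for all τ, τ', then, fixing τ' (where (X, Y) ≠ 0), there are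
constants (p, q) ≠ (0, 0) with p α + q β = 0 for all τ (X, Y are independent linear combinations of α, β), so (p + q) ψ = 8 (p - q) W0^3 and
(p + q)^2 ψ^2 = 64 (p - q)^2 U^3 (U^3 + V^3)^3 for all τ: a form of degree 12 in (U, V) vanishing identically, so (E1, ent_poly with N = 12) its coefficients vanish: V^12: (p + q)^2 = 0; then
U^12: 64 (p - q)^2 = 0 (with p + q = 0). So p = q = 0, contradiction. (ent_poly needs the explicit coefficients c : ℕ → ℂ, e.g. by a match on 0, 3, 6, 9, 12 and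
Finset.sum_range_succ; alternatively use ent_poly in the form: all coefficients.) -/
theorem u_three (a b c : ℂ) : ∃ X Y W : ℂ → ℂ, Ent X Y ∧ Differentiable ℂ W ∧
    ∀ τ, W τ ^ 3 = (X τ + a * Y τ) * (X τ + b * Y τ) * (X τ + c * Y τ) := by
  by_cases h1 : a = b
  · obtain ⟨X, Y, W, h, h', h''⟩ := u_gen 3 (by norm_num) c a
    refine ⟨X, Y, W, h, h', fun τ => ?_⟩
    rw [h'' τ, ← h1]
    norm_num
    ring
  by_cases h2 : a = c
  · obtain ⟨X, Y, W, h, h', h''⟩ := u_gen 3 (by norm_num) b a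
    refine ⟨X, Y, W, h, h', fun τ => ?_⟩
    rw [h'' τ, ← h2]
    norm_num
    ring
  by_cases h3 : b = c
  · obtain ⟨X, Y, W, h, h', h''⟩ := u_gen 3 (by norm_num) a b
    refine ⟨X, Y, W, h, h', fun τ => ?_⟩
    rw [h'' τ, ← h3]
    norm_num
    ring
  exact q3_ne a b c h1 h2 h3

end Pool.Agent.H49C
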