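import Pool.Agent.Lib.H49C.W5
import Pool.Agent.Lib.H49C.G1
import Pool.Agent.Lib.H49C.E1

set_option autoImplicit false

namespace Pool.Agent.H49C

theorem q4_sq {U V : ℂ → ℂ} (h : Ent U V) : Ent (fun τ => U τ ^ 2) (fun τ => V τ ^ 2) := by
  refine ⟨h.dX.pow 2, h.dY.pow 2, fun τ => ?_, ?_⟩
  · rcases h.nz τ with h1 | h1
    · exact Or.inl (pow_ne_zero 2 h1)
    · exact Or.inr (pow_ne_zero 2 h1)
  · by_contra hcon
    push Not at hcon
    have h1 := ent_poly h 2 (fun i => if i = 0 then V 0 ^ 2 else if i = 2 then - U 0 ^ 2 else 0)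
      (fun τ => by
        rw [Finset.sum_range_succ, Finset.sum_range_succ, Finset.sum_range_succ, Finset.sum_range_zero]
        have h2 := hcon τ 0
        change U τ ^ 2 * V 0 ^ 2 = U 0 ^ 2 * V τ ^ 2 at h2
        simp only [if_true, if_false, one_ne_zero, OfNat.ofNat_ne_zero, OfNat.one_ne_ofNat]
        linear_combination h2)
    have h3 := h1 0 (by norm_num)
    have h4 := h1 2 le_rfl
    simp only [if_true, if_false, OfNat.ofNat_ne_zero] at h3 h4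
    rcases h.nz 0 with h5 | h5
    · exact pow_ne_zero 2 h5 (neg_eq_zero.1 h4)
    · exact pow_ne_zero 2 h5 h3

/-- Chunk Q4 (M). PROOF. (1) b = c: u_gen 2 for a, b gives W^2 = (X + a Y)(X + b Y), so W^4 = (X + a Y)^2 (X + b Y)^2. a = b: u_gen 4 (c, a): W^4 = (X + c Y)(X + a Y)^3. a = c: the same.
(2) All distinct. weier with A = 1, B = 0 (4 ≠ 0): (U, V, W0), W0^2 = U V^3 + U^3 V = U V (U^2 + V^2). Relation (b - c) l_a + (c - a) l_b + (a - b) l_c = 0, l_a = X + a Y etc. Choose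
l_b = U^2 / (c - a) * (-1)... precisely (c - a) l_b = - U^2, (a - b) l_c = - V^2, (b - c) l_a = U^2 + V^2: consistent. Solve Y = (l_a - l_b) / (a - b), X = l_a - a Y.
l_a^2 l_b l_c = (U^2 + V^2)^2 U^2 V^2 / ((b - c)^2 (c - a)(a - b)) = W0^4 * const, W := d W0 with d^4 = 1 / ((b - c)^2 (c - a)(a - b)).
Ent: X = Y = 0 gives U^2 = 0 = V^2. Nonconstant: as in Q3: p U^2 + q V^2 = 0 for all τ with (p, q) ≠ 0 contradicts ent_poly with N = 2. -/
theorem u_four (a b c : ℂ) : ∃ X Y W : ℂ → ℂ, Ent X Y ∧ Differentiable ℂ W ∧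
    ∀ τ, W τ ^ 4 = (X τ + a * Y τ) ^ 2 * (X τ + b * Y τ) * (X τ + c * Y τ) := by
  by_cases hbc : b = c
  · subst hbc
    obtain ⟨X, Y, W, h1, h2, h3⟩ := u_gen 2 (by norm_num) a b
    refine ⟨X, Y, W, h1, h2, fun τ => ?_⟩
    have h4 := h3 τ
    have h5 : W τ ^ 4 = (W τ ^ 2) ^ 2 := by ring
    rw [h5, h4]
    ring
  by_cases hab : a = b
  · subst hab
    obtain ⟨X, Y, W, h1, h2, h3⟩ := u_gen 4 (by norm_num) c a
    refine ⟨X, Y, W, h1, h2, fun τ => ?_⟩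
    rw [h3 τ]
    ring
  by_cases hac : a = c
  · subst hac
    obtain ⟨X, Y, W, h1, h2, h3⟩ := u_gen 4 (by norm_num) b a
    refine ⟨X, Y, W, h1, h2, fun τ => ?_⟩
    rw [h3 τ]
    ring
  obtain ⟨U, V, W, h1, h2, h3⟩ := weier (A := 1) (B := 0) (by norm_num)
  have hD : (c * (a - b)) * (c - a) - (-(b * (c - a))) * (-(a - b)) ≠ 0 := by
    have e1 : (c * (a - b)) * (c - a) - (-(b * (c - a))) * (-(a - b)) = (c - b) * (a - b) * (c - a) := by
      ring
    rw [e1]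
    exact mul_ne_zero (mul_ne_zero (sub_ne_zero.2 (Ne.symm hbc)) (sub_ne_zero.2 hab))
      (sub_ne_zero.2 (Ne.symm hac))
  obtain ⟨d, hd⟩ := IsAlgClosed.exists_pow_nat_eq ((a - b) ^ 3 * (c - a) ^ 3 * (c - b) ^ 2)
    (n := 4) (by norm_num)
  refine ⟨_, _, fun τ => d * W τ, (q4_sq h1).lin hD, h2.const_mul d, fun τ => ?_⟩
  have h4 := h3 τ
  unfold qf at h4
  have h5 : (d * W τ) ^ 4 = d ^ 4 * (W τ ^ 2) ^ 2 := by ring
  simp only []
  rw [h5, h4, hd]
  ring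

end Pool.Agent.H49C
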