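import Pool.Agent.Lib.H49C.W5
import Pool.Agent.Lib.H49C.G1
import Pool.Agent.Lib.H49C.E1

set_option autoImplicit false

namespace Pool.Agent.H49C

/-- Chunk Q6 (M). PROOF. (1) a = b: u_gen 6 (c, a): W^6 = (X + c Y)(X + a Y)^5. a = c: l_a^4 l_b^2: u_gen 3 (b, a): W^3 = l_b l_a^2, W^6 = l_b^2 l_a^4. b = c: l_a^3 l_b^3: u_gen 2 (a, b): W^2 = l_a l_b.
(2) All distinct. weier with A = 0, B = 1: (U, V, W0), W0^2 = U (U^3 + V^3). Relation (b - c) l_a + (c - a) l_b + (a - b) l_c = 0. Choose (b - c) l_a = U^3 + V^3, (c - a) l_b = - V^3,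
(a - b) l_c = - U^3. Solve Y = (l_a - l_b) / (a - b), X = l_a - a Y. l_a^3 l_b^2 l_c = - (U^3 + V^3)^3 V^6 U^3 / ((b - c)^3 (c - a)^2 (a - b)) = - W0^6 V^6 / (..): W := d W0 V,
d^6 = -1 / ((b - c)^3 (c - a)^2 (a - b)). Ent: X = Y = 0 gives V^3 = 0 = U^3. Nonconstant: p U^3 + q V^3 = 0 for all τ with (p, q) ≠ 0 contradicts ent_poly with N = 3. -/
theorem u_six (a b c : ℂ) : ∃ X Y W : ℂ → ℂ, Ent X Y ∧ Differentiable ℂ W ∧
    ∀ τ, W τ ^ 6 = (X τ + a * Y τ) ^ 3 * (X τ + b * Y τ) ^ 2 * (X τ + c * Y τ) := by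
  by_cases hab : a = b
  · subst hab
    obtain ⟨X, Y, W, h1, h2, h3⟩ := u_gen 6 (by norm_num) c a
    refine ⟨X, Y, W, h1, h2, fun τ => ?_⟩
    rw [h3]
    ring
  by_cases hac : a = c
  · subst hac
    obtain ⟨X, Y, W, h1, h2, h3⟩ := u_gen 3 (by norm_num) b a
    refine ⟨X, Y, W, h1, h2, fun τ => ?_⟩
    have h4 : W τ ^ 6 = (W τ ^ 3) ^ 2 := by ring
    rw [h4, h3]
    ring
  by_cases hbc : b = c
  · subst hbc
    obtain ⟨X, Y, W, h1, h2, h3⟩ := u_gen 2 (by norm_num) a b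
    refine ⟨X, Y, W, h1, h2, fun τ => ?_⟩
    have h4 : W τ ^ 6 = (W τ ^ 2) ^ 3 := by ring
    rw [h4, h3]
    ring
  have n1 : a - b ≠ 0 := sub_ne_zero.2 hab
  have n2 : b - c ≠ 0 := sub_ne_zero.2 hbc
  have n3 : c - a ≠ 0 := sub_ne_zero.2 fun h => hac h.symm
  obtain ⟨U, V, W0, hE, hW0, hW⟩ := weier (A := 0) (B := 1) (by norm_num)
  have hW' : ∀ τ, W0 τ ^ 2 = U τ * (U τ ^ 3 + V τ ^ 3) := by
    intro τ
    rw [hW τ, qf]
    ring
  obtain ⟨d, hd⟩ := IsAlgClosed.exists_pow_nat_eq (-1 / ((b - c) ^ 3 * (c - a) ^ 2 * (a - b)) : ℂ) (n := 6) (by norm_num)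
  obtain ⟨la, hla⟩ : ∃ la : ℂ → ℂ, ∀ τ, la τ = (U τ ^ 3 + V τ ^ 3) / (b - c) := ⟨_, fun _ => rfl⟩
  obtain ⟨lb, hlb⟩ : ∃ lb : ℂ → ℂ, ∀ τ, lb τ = -V τ ^ 3 / (c - a) := ⟨_, fun _ => rfl⟩
  have dU := hE.dX
  have dV := hE.dY
  have dla : Differentiable ℂ la := by
    have e : la = fun τ => (U τ ^ 3 + V τ ^ 3) / (b - c) := funext hla
    rw [e]
    fun_prop
  have dlb : Differentiable ℂ lb := by
    have e : lb = fun τ => -V τ ^ 3 / (c - a) := funext hlb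
    rw [e]
    fun_prop
  obtain ⟨Y, hY⟩ : ∃ Y : ℂ → ℂ, ∀ τ, Y τ = (la τ - lb τ) / (a - b) := ⟨_, fun _ => rfl⟩
  obtain ⟨X, hX⟩ : ∃ X : ℂ → ℂ, ∀ τ, X τ = la τ - a * Y τ := ⟨_, fun _ => rfl⟩
  have dY : Differentiable ℂ Y := by
    have e : Y = fun τ => (la τ - lb τ) / (a - b) := funext hY
    rw [e]
    fun_prop
  have dX : Differentiable ℂ X := by
    have e : X = fun τ => la τ - a * Y τ := funext hX
    rw [e]
    fun_prop
  have k1 : ∀ τ, X τ + a * Y τ = la τ := fun τ => by rw [hX, sub_add_cancel]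
  have k2 : ∀ τ, X τ + b * Y τ = lb τ := fun τ => by
    rw [hX, hY]
    field_simp
    ring
  have k3 : ∀ τ, X τ + c * Y τ = -U τ ^ 3 / (a - b) := fun τ => by
    rw [hX, hY, hla, hlb]
    field_simp
    ring
  refine ⟨X, Y, fun τ => d * W0 τ * V τ, ⟨dX, dY, fun τ => ?_, ?_⟩, by fun_prop, fun τ => ?_⟩
  · by_contra hcon
    push Not at hcon
    obtain ⟨c1, c2⟩ := hcon
    have e1 := k1 τ
    have e2 := k2 τ
    rw [c1, c2, mul_zero, add_zero] at e1 e2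
    rw [hla] at e1
    rw [hlb] at e2
    have e3 : U τ ^ 3 + V τ ^ 3 = 0 := (div_eq_zero_iff.1 e1.symm).resolve_right n2
    have e4 : V τ ^ 3 = 0 := neg_eq_zero.1 ((div_eq_zero_iff.1 e2.symm).resolve_right n3)
    rw [e4, add_zero] at e3
    rcases hE.nz τ with h | h
    · exact h (pow_eq_zero_iff (by norm_num) |>.1 e3)
    · exact h (pow_eq_zero_iff (by norm_num) |>.1 e4)
  · by_contra hcon
    push Not at hcon
    have e1 : ∀ τ, lb 0 * la τ - la 0 * lb τ = 0 := by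
      intro τ
      rw [← k1 τ, ← k1 0, ← k2 τ, ← k2 0]
      linear_combination (a - b) * hcon 0 τ
    have e2 := ent_poly hE 3 (fun i => if i = 0 then lb 0 / (b - c) else if i = 3 then lb 0 / (b - c) + la 0 / (c - a) else 0)
      (fun τ => by
        have e3 := e1 τ
        rw [hla τ, hlb τ] at e3
        simp [Finset.sum_range_succ]
        linear_combination e3)
    have e3 := e2 0 (by norm_num)
    have e4 := e2 3 (by norm_num)
    simp only [if_true] at e3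
    have e5 : lb 0 = 0 := (div_eq_zero_iff.1 e3).resolve_right n2
    have e6 : lb 0 / (b - c) + la 0 / (c - a) = 0 := by simpa using e4
    rw [e5, zero_div, zero_add] at e6
    have e7 : la 0 = 0 := (div_eq_zero_iff.1 e6).resolve_right n3
    rw [hla] at e7
    rw [hlb] at e5
    have e8 : U 0 ^ 3 + V 0 ^ 3 = 0 := (div_eq_zero_iff.1 e7).resolve_right n2
    have e9 : V 0 ^ 3 = 0 := neg_eq_zero.1 ((div_eq_zero_iff.1 e5).resolve_right n3)
    rw [e9, add_zero] at e8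
    rcases hE.nz 0 with h | h
    · exact h (pow_eq_zero_iff (by norm_num) |>.1 e8)
    · exact h (pow_eq_zero_iff (by norm_num) |>.1 e9)
  · change (d * W0 τ * V τ) ^ 6 = _
    rw [k1, k2, k3, hla, hlb]
    have e1 : (d * W0 τ * V τ) ^ 6 = d ^ 6 * (W0 τ ^ 2) ^ 3 * V τ ^ 6 := by ring
    rw [e1, hd, hW']
    field_simp

end Pool.Agent.H49C
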