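import Pool.Agent.Lib.H49C.L2
import Pool.Agent.Lib.H49C.Q2
import Pool.Agent.Lib.H49C.Q3
import Pool.Agent.Lib.H49C.Q4
import Pool.Agent.Lib.H49C.Q6

set_option autoImplicit false

open MvPolynomial

namespace Pool.Agent.H49C

/-- The general step. -/
theorem m1_gen {n s j b r : ℕ} (hs : 1 ≤ s) (hj : 1 ≤ s * j) (e' : Fin r → ℕ) (he' : ∀ i, 1 ≤ e' i)
    (hsum : s * b + ∑ i, e' i = s * j) (hcard : s * j < n + (b + r))
    (U : ∀ a : Fin r → ℂ, ∃ X Y W : ℂ → ℂ, Ent X Y ∧ Differentiable ℂ W ∧ ∀ τ, W τ ^ s = ∏ i, (X τ + a i * Y τ) ^ e' i)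
    {F : MvPolynomial (Fin (n + 1)) ℂ} (hF : F.IsHomogeneous (s * j)) {x : Fin (n + 1) → ℂ} {z : ℂ}
    (hz : z ≠ 0) (hxz : z ^ s = eval x F) :
    ∃ v : Fin (n + 1) → ℂ, (∀ a b : ℂ, a • x + b • v = 0 → a = 0 ∧ b = 0) ∧
      ∃ X Y Z : ℂ → ℂ, Ent X Y ∧ Differentiable ℂ Z ∧
        ∀ τ, Z τ ^ s = eval (X τ • x + Y τ • v) F := by
  have hx : eval x F ≠ 0 := by
    rw [← hxz]
    exact pow_ne_zero _ hz
  obtain ⟨v, ξ, hv, hξ⟩ := line_exists hF hj hx (κ := Fin b ⊕ Fin r) (Sum.elim (fun _ => s) e')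
    (by
      rintro (i | i)
      · exact hs
      · exact he' i)
    (by
      rw [Fintype.sum_sum_type, ← hsum]
      simp only [Sum.elim_inl, Sum.elim_inr, Finset.sum_const, Finset.card_univ, Fintype.card_fin, smul_eq_mul]
      rw [mul_comm])
    (by
      rw [Fintype.card_sum, Fintype.card_fin, Fintype.card_fin]
      exact hcard)
  obtain ⟨X, Y, W, hE, hW, hW2⟩ := U fun i => ξ (Sum.inr i)
  have dX := hE.dX
  have dY := hE.dY
  refine ⟨v, hv, X, Y, fun τ => z * (∏ i : Fin b, (X τ + ξ (Sum.inl i) * Y τ)) * W τ, hE, by fun_prop, fun τ => ?_⟩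
  rw [hξ, Fintype.prod_sum_type, mul_pow, mul_pow, hW2, hxz, ← Finset.prod_pow]
  simp only [Sum.elim_inl, Sum.elim_inr]
  ring

/-- Chunk M1 (M). For every point x with F (x) ≠ 0 there is a line through x over which the cyclic cover contains an entire curve.
PROOF. General step (make it a lemma): r factors l i = X + a i Y with exponents e' i (i : Fin r), ∑ e' i = c, and b ∈ ℕ with s b + c = s j, and the hypothesis
U: for all a : Fin r → ℂ there are X Y W with Ent X Y, W differentiable, W^s = ∏ (X + a i Y)^(e' i); and s j < n + (b + r). Then: line_exists with κ = Fin b ⊕ Fin r, e = Sum.elim (fun _ => s) e', gives v, ξ; U for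
a i = ξ (inr i); Z := z * (∏ i : Fin b, (X + ξ (inl i) Y)) * W: Z^s = z^s ∏ (..)^s ∏ (..)^(e' i) = eval (X • x + Y • v) F (Fintype.prod_sum_type). z exists: z^s = eval x F (given).
Cases. (s - 1) j ≤ n: r = 2, e' = (1, s - 1), b = j - 1: s j < n + j + 1 (u_gen; s ≥ 2 so e' i ≥ 1). Otherwise (s - 1) j = n + 1 and
s = 2: j = n + 1 ≥ 2, r = 4, e' = 1, b = j - 2: s j = 2 j < n + j + 2 = 2 j + 1 (u_two). s = 3: 2 j = n + 1, r = 3, e' = 1, b = j - 1: 3 j < n + j + 2 = 3 j + 1 (u_three).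
s = 4: 3 j = n + 1, r = 3, e' = (2,1,1), b = j - 1: 4 j < n + j + 2 (u_four). s = 6: 5 j = n + 1, r = 3, e' = (3,2,1), b = j - 1 (u_six). -/
theorem exists_curve {n s j : ℕ} (hn : 1 ≤ n) (hs : 2 ≤ s) (hj : 1 ≤ j)
    (h : (s - 1) * j ≤ n ∨ (s = 2 ∨ s = 3 ∨ s = 4 ∨ s = 6) ∧ (s - 1) * j = n + 1)
    {F : MvPolynomial (Fin (n + 1)) ℂ} (hF : F.IsHomogeneous (s * j)) {x : Fin (n + 1) → ℂ} {z : ℂ}
    (hz : z ≠ 0) (hxz : z ^ s = eval x F) :
    ∃ v : Fin (n + 1) → ℂ, (∀ a b : ℂ, a • x + b • v = 0 → a = 0 ∧ b = 0) ∧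
      ∃ X Y Z : ℂ → ℂ, Ent X Y ∧ Differentiable ℂ Z ∧
        ∀ τ, Z τ ^ s = eval (X τ • x + Y τ • v) F := by
  have hsj : 1 ≤ s * j := Nat.mul_pos (by omega) hj
  rcases h with h | ⟨rfl | rfl | rfl | rfl, h⟩
  · obtain ⟨t, rfl⟩ : ∃ t, s = t + 1 := ⟨s - 1, by omega⟩
    obtain ⟨i, rfl⟩ : ∃ i, j = i + 1 := ⟨j - 1, by omega⟩
    rw [Nat.add_sub_cancel] at h
    refine m1_gen (b := i) (r := 2) (by omega) hsj ![1, t] ?_ ?_ ?_ ?_ hF hz hxz
    · intro k
      fin_cases k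
      · exact le_rfl
      · change 1 ≤ t
        omega
    · rw [Fin.sum_univ_two]
      change (t + 1) * i + (1 + t) = (t + 1) * (i + 1)
      ring
    · have : (t + 1) * (i + 1) = t * (i + 1) + (i + 1) := by ring
      omega
    · intro a
      obtain ⟨X, Y, W, h1, h2, h3⟩ := u_gen (t + 1) (by omega) (a 0) (a 1)
      refine ⟨X, Y, W, h1, h2, fun τ => ?_⟩
      rw [h3, Fin.prod_univ_two, Nat.add_sub_cancel]
      change _ = (X τ + a 0 * Y τ) ^ 1 * (X τ + a 1 * Y τ) ^ t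
      rw [pow_one]
  · refine m1_gen (b := j - 2) (r := 4) (by omega) hsj (fun _ => 1) (fun _ => le_rfl) ?_ ?_ ?_ hF hz hxz
    · rw [Finset.sum_const, Finset.card_univ, Fintype.card_fin, smul_eq_mul]
      omega
    · omega
    · intro a
      obtain ⟨X, Y, W, h1, h2, h3⟩ := u_two a
      refine ⟨X, Y, W, h1, h2, fun τ => ?_⟩
      rw [h3]
      simp only [pow_one]
  · refine m1_gen (b := j - 1) (r := 3) (by omega) hsj (fun _ => 1) (fun _ => le_rfl) ?_ ?_ ?_ hF hz hxz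
    · rw [Finset.sum_const, Finset.card_univ, Fintype.card_fin, smul_eq_mul]
      omega
    · omega
    · intro a
      obtain ⟨X, Y, W, h1, h2, h3⟩ := u_three (a 0) (a 1) (a 2)
      refine ⟨X, Y, W, h1, h2, fun τ => ?_⟩
      rw [h3, Fin.prod_univ_three]
      simp only [pow_one]
  · refine m1_gen (b := j - 1) (r := 3) (by omega) hsj ![2, 1, 1] ?_ ?_ ?_ ?_ hF hz hxz
    · intro k
      fin_cases k
      · exact one_le_two
      · exact le_rfl
      · exact le_rfl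
    · rw [Fin.sum_univ_three]
      change 4 * (j - 1) + (2 + 1 + 1) = 4 * j
      omega
    · omega
    · intro a
      obtain ⟨X, Y, W, h1, h2, h3⟩ := u_four (a 0) (a 1) (a 2)
      refine ⟨X, Y, W, h1, h2, fun τ => ?_⟩
      rw [h3, Fin.prod_univ_three]
      change _ = (X τ + a 0 * Y τ) ^ 2 * (X τ + a 1 * Y τ) ^ 1 * (X τ + a 2 * Y τ) ^ 1
      rw [pow_one, pow_one]
  · refine m1_gen (b := j - 1) (r := 3) (by omega) hsj ![3, 2, 1] ?_ ?_ ?_ ?_ hF hz hxz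
    · intro k
      fin_cases k
      · change 1 ≤ 3
        norm_num
      · exact one_le_two
      · exact le_rfl
    · rw [Fin.sum_univ_three]
      change 6 * (j - 1) + (3 + 2 + 1) = 6 * j
      omega
    · omega
    · intro a
      obtain ⟨X, Y, W, h1, h2, h3⟩ := u_six (a 0) (a 1) (a 2)
      refine ⟨X, Y, W, h1, h2, fun τ => ?_⟩
      rw [h3, Fin.prod_univ_three]
      change _ = (X τ + a 0 * Y τ) ^ 3 * (X τ + a 1 * Y τ) ^ 2 * (X τ + a 2 * Y τ) ^ 1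
      rw [pow_one]

end Pool.Agent.H49C
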