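import Pool.Agent.Lib.H49C.D

set_option autoImplicit false

namespace Pool.Agent.H49C

/-- Chunk W1 (S). Duplication maps the cone without its vertex into itself.
PROOF. Write p = (X, Y, W), W^2 = qf A B X Y. First condition: (2 ps W)^2 = 4 ps^2 W^2 and
ps^2 = p1^3 + A (4 qf)^2 p1 + B (4 qf)^3 (ring, unfold ps p1 qf), 4 W^2 = 4 qf: qf (4 W^2) p1 = 4 W^2 p1^3 + A (4 W^2)^3 p1 + B (4 W^2)^4
= 4 W^2 (p1^3 + A (4 W^2)^2 p1 + B (4 W^2)^3) = 4 W^2 ps^2.
Second condition: suppose 4 W^2 = 0 and p1 A B X Y = 0. Then qf A B X Y = 0. If X = 0 then p1 = Y^4 gives Y = 0, contradiction. If X ≠ 0 put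
t = Y / X: t^3 + A t + B = 0 (divide qf = X (Y^3 + A X^2 Y + B X^3) by X^4) and t^4 - 2 A t^2 - 8 B t + A^2 = 0 (divide p1 by X^4). Modulo the first
equation the second is (3 t^2 + A)^2 = 0 (indeed t^4 - 2 A t^2 - 8 B t + A^2 - (3 t^2 + A)^2 = -8 t (t^3 + A t + B)), so A = -3 t^2, B = 2 t^3 and
4 A^3 + 27 B^2 = 0, contradiction. -/
theorem dbl_cn {A B : ℂ} (hAB : 4 * A ^ 3 + 27 * B ^ 2 ≠ 0) {p : ℂ × ℂ × ℂ} (hp : p ∈ cn A B) :
    dbl A B p ∈ cn A B := by
  obtain ⟨X, Y, W⟩ := p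
  obtain ⟨hW, hXY⟩ := hp
  change W ^ 2 = qf A B X Y at hW
  change X ≠ 0 ∨ Y ≠ 0 at hXY
  have hps : (ps A B X Y) ^ 2 = (p1 A B X Y) ^ 3 + A * (4 * qf A B X Y) ^ 2 * p1 A B X Y + B * (4 * qf A B X Y) ^ 3 := by
    unfold ps p1 qf
    ring
  refine ⟨?_, ?_⟩
  · change (2 * ps A B X Y * W) ^ 2 = qf A B (4 * W ^ 2) (p1 A B X Y)
    have h1 : (2 * ps A B X Y * W) ^ 2 = 4 * (ps A B X Y) ^ 2 * W ^ 2 := by ring
    rw [h1, hps, hW]
    generalize p1 A B X Y = u
    generalize qf A B X Y = v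
    unfold qf
    ring
  · change 4 * W ^ 2 ≠ 0 ∨ p1 A B X Y ≠ 0
    by_contra hcon
    push Not at hcon
    obtain ⟨h1, h2⟩ := hcon
    have h3 : qf A B X Y = 0 := by
      rw [← hW]
      exact (mul_eq_zero.1 h1).resolve_left (by norm_num)
    by_cases hX : X = 0
    · subst hX
      have h4 : Y ^ 4 = 0 := by
        rw [← h2]
        unfold p1
        ring
      have h5 : Y = 0 := pow_eq_zero_iff (by norm_num) |>.1 h4
      rcases hXY with h6 | h6
      · exact h6 rfl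
      · exact h6 h5
    · have h4 : Y ^ 3 + A * X ^ 2 * Y + B * X ^ 3 = 0 := by
        have h5 : X * (Y ^ 3 + A * X ^ 2 * Y + B * X ^ 3) = 0 := by
          rw [← h3]
          unfold qf
          ring
        exact (mul_eq_zero.1 h5).resolve_left hX
      have h5 : 3 * Y ^ 2 + A * X ^ 2 = 0 := by
        have h6 : (3 * Y ^ 2 + A * X ^ 2) ^ 2 = 0 := by
          have h7 : (3 * Y ^ 2 + A * X ^ 2) ^ 2 = p1 A B X Y + 8 * Y * (Y ^ 3 + A * X ^ 2 * Y + B * X ^ 3) := by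
            unfold p1
            ring
          rw [h7, h2, h4]
          ring
        exact pow_eq_zero_iff (by norm_num) |>.1 h6
      have h6 : B * X ^ 3 = 2 * Y ^ 3 := by
        linear_combination h4 - Y * h5
      have h7 : (4 * A ^ 3 + 27 * B ^ 2) * X ^ 6 = 0 := by
        have h8 : A * X ^ 2 = - (3 * Y ^ 2) := by linear_combination h5
        calc (4 * A ^ 3 + 27 * B ^ 2) * X ^ 6 = 4 * (A * X ^ 2) ^ 3 + 27 * (B * X ^ 3) ^ 2 := by ring
          _ = 0 := by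
              rw [h8, h6]
              ring
      exact hAB ((mul_eq_zero.1 h7).resolve_right (pow_ne_zero _ hX))

end Pool.Agent.H49C
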