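import Pool.Agent.Lib.H49C.D

set_option autoImplicit false

open Metric

namespace Pool.Agent.H49C

theorem w2a_est (A B : ℂ) {δ : ℝ} (hδ0 : 0 < δ) (hδ : δ = 1 / (8 * (1 + (‖A‖ + ‖B‖)))) {u w : ℂ} (hu : ‖u‖ ≤ δ)
    (hw : ‖w‖ ≤ δ) : ‖u - w‖ ≤ 2 * ‖(u + A * u ^ 3 + B * u ^ 4) - (w + A * w ^ 3 + B * w ^ 4)‖ := by
  have hA := norm_nonneg A
  have hB := norm_nonneg B
  have hM : δ * (8 * (1 + (‖A‖ + ‖B‖))) = 1 := by
    rw [hδ]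
    have : (8 * (1 + (‖A‖ + ‖B‖))) ≠ 0 := by positivity
    field_simp
  have hδ1 : δ ≤ 1 / 8 := by nlinarith
  have hu0 := norm_nonneg u
  have hw0 := norm_nonneg w
  obtain ⟨E, hE⟩ : ∃ E : ℂ, E = A * (u ^ 2 + u * w + w ^ 2) + B * (u ^ 3 + u ^ 2 * w + u * w ^ 2 + w ^ 3) := ⟨_, rfl⟩
  have e1 : (u + A * u ^ 3 + B * u ^ 4) - (w + A * w ^ 3 + B * w ^ 4) = (u - w) * (1 + E) := by
    rw [hE]
    ring
  have h1 : ‖u ^ 2 + u * w + w ^ 2‖ ≤ 3 * δ ^ 2 := by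
    refine (norm_add₃_le).trans ?_
    rw [norm_pow, norm_mul, norm_pow]
    have a1 : ‖u‖ ^ 2 ≤ δ ^ 2 := pow_le_pow_left₀ hu0 hu 2
    have a2 : ‖w‖ ^ 2 ≤ δ ^ 2 := pow_le_pow_left₀ hw0 hw 2
    have a3 : ‖u‖ * ‖w‖ ≤ δ * δ := mul_le_mul hu hw hw0 hδ0.le
    nlinarith
  have h2 : ‖u ^ 3 + u ^ 2 * w + u * w ^ 2 + w ^ 3‖ ≤ 4 * δ ^ 3 := by
    have b1 : ‖u ^ 3 + u ^ 2 * w + u * w ^ 2 + w ^ 3‖ ≤ ‖u ^ 3‖ + ‖u ^ 2 * w‖ + ‖u * w ^ 2‖ + ‖w ^ 3‖ :=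
      (norm_add_le _ _).trans (add_le_add norm_add₃_le le_rfl)
    refine b1.trans ?_
    rw [norm_pow, norm_mul, norm_mul, norm_pow, norm_pow, norm_pow]
    have a1 : ‖u‖ ^ 3 ≤ δ ^ 3 := pow_le_pow_left₀ hu0 hu 3
    have a2 : ‖w‖ ^ 3 ≤ δ ^ 3 := pow_le_pow_left₀ hw0 hw 3
    have a3 : ‖u‖ ^ 2 * ‖w‖ ≤ δ ^ 2 * δ := mul_le_mul (pow_le_pow_left₀ hu0 hu 2) hw hw0 (by positivity)
    have a4 : ‖u‖ * ‖w‖ ^ 2 ≤ δ * δ ^ 2 := mul_le_mul hu (pow_le_pow_left₀ hw0 hw 2) (by positivity) hδ0.le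
    nlinarith
  have h3 : ‖E‖ ≤ 1 / 2 := by
    rw [hE]
    refine (norm_add_le _ _).trans ?_
    rw [norm_mul, norm_mul]
    have c1 : ‖A‖ * ‖u ^ 2 + u * w + w ^ 2‖ ≤ ‖A‖ * (3 * δ ^ 2) := mul_le_mul_of_nonneg_left h1 hA
    have c2 : ‖B‖ * ‖u ^ 3 + u ^ 2 * w + u * w ^ 2 + w ^ 3‖ ≤ ‖B‖ * (4 * δ ^ 3) := mul_le_mul_of_nonneg_left h2 hB
    have c3 : ‖A‖ * δ ≤ 1 / 8 := by nlinarith [mul_nonneg hB hδ0.le]
    have c4 : ‖B‖ * δ ≤ 1 / 8 := by nlinarith [mul_nonneg hA hδ0.le]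
    have c5 : ‖A‖ * (3 * δ ^ 2) ≤ 3 / 64 := by
      have : ‖A‖ * (3 * δ ^ 2) = 3 * (‖A‖ * δ) * δ := by ring
      rw [this]
      nlinarith [mul_nonneg hA hδ0.le]
    have c6 : ‖B‖ * (4 * δ ^ 3) ≤ 4 / 512 := by
      have e : ‖B‖ * (4 * δ ^ 3) = 4 * (‖B‖ * δ) * δ ^ 2 := by ring
      have e' : δ ^ 2 ≤ 1 / 64 := by nlinarith
      rw [e]
      have := mul_le_mul c4 e' (by positivity) (by norm_num : (0 : ℝ) ≤ 1 / 8)
      nlinarith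
    linarith
  have h4 : 1 / 2 ≤ ‖1 + E‖ := by
    have h5 : ‖(1 : ℂ)‖ ≤ ‖1 + E‖ + ‖E‖ := by
      have e : (1 : ℂ) = (1 + E) - E := by ring
      conv_lhs => rw [e]
      exact norm_sub_le _ _
    rw [norm_one] at h5
    linarith
  rw [e1, norm_mul]
  nlinarith [norm_nonneg (u - w)]

/-- Chunk W2A (M). The local inverse of φ(u) = u + A u^3 + B u^4 at 0, composed with the square.
PROOF. φ has strict derivative 1 at 0 (polynomial: HasStrictDerivAt by simp/fun_prop rules). Let M = ‖A‖ + ‖B‖, δ := 1 / (8 (1 + M)) (δ ≤ 1). For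
‖u‖, ‖w‖ ≤ δ: φ u - φ w = (u - w) (1 + A (u^2 + u w + w^2) + B (u^3 + u^2 w + u w^2 + w^3)) and the norm of A (..) + B (..) is
≤ 3 ‖A‖ δ^2 + 4 ‖B‖ δ^3 ≤ 1/2. So φ is injective on the ball, and (w = 0) ‖φ u‖ ≥ ‖u‖ / 2.
Let g be the local inverse (HasStrictDerivAt.localInverse, with HasStrictDerivAt.eventually_right_inverse; g has a derivative near 0: the analytic / C^1
inverse function theorem, e.g. via ContDiffAt.toOpenPartialHomeomorph, OpenPartialHomeomorph.contDiffAt_symm or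
HasStrictDerivAt.to_localInverse at the nearby points: φ is injective with derivative ≠ 0 on the ball, so g is differentiable near 0 by
HasDerivAt.of_local_left_inverse), g 0 = 0, g continuous at 0. Choose r with: for ‖v‖ < r, v^2 lies in the set where φ (g s) = s, g is
differentiable, ‖g s‖ < δ. Put u v := g (v ^ 2). Then φ (u v) = v^2, ‖u v‖ ≤ 2 ‖φ (u v)‖ = 2 ‖v‖^2 and uniqueness for ‖w‖ < δ by injectivity. -/
theorem loc_inv (A B : ℂ) : ∃ r > 0, ∃ u : ℂ → ℂ, DifferentiableOn ℂ u (ball 0 r) ∧ u 0 = 0 ∧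
    (∀ v ∈ ball (0 : ℂ) r, u v + A * u v ^ 3 + B * u v ^ 4 = v ^ 2 ∧ ‖u v‖ ≤ 2 * ‖v‖ ^ 2) ∧
    ∃ δ > 0, ∀ v ∈ ball (0 : ℂ) r, ∀ w : ℂ, ‖w‖ < δ → w + A * w ^ 3 + B * w ^ 4 = v ^ 2 → w = u v := by
  obtain ⟨δ, hδ⟩ : ∃ δ : ℝ, δ = 1 / (8 * (1 + (‖A‖ + ‖B‖))) := ⟨_, rfl⟩
  have hδ0 : 0 < δ := by
    rw [hδ]
    have := norm_nonneg A
    have := norm_nonneg B
    positivity
  obtain ⟨φ, hφ⟩ : ∃ φ : ℂ → ℂ, φ = fun u => u + A * u ^ 3 + B * u ^ 4 := ⟨_, rfl⟩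
  have hφ0 : φ 0 = 0 := by rw [hφ]; simp
  have hc : ContDiffAt ℂ 1 φ 0 := by
    rw [hφ]
    fun_prop
  have hd : HasDerivAt φ 1 0 := by
    have h1 : HasDerivAt (fun u : ℂ => u + A * u ^ 3 + B * u ^ 4)
        (1 + A * (3 * (0 : ℂ) ^ 2 * 1) + B * (4 * (0 : ℂ) ^ 3 * 1)) 0 := by
      have a1 : HasDerivAt (fun u : ℂ => u ^ 3) (3 * (0 : ℂ) ^ 2 * 1) 0 := by
        have := hasDerivAt_pow 3 (0 : ℂ)
        simpa using this
      have a2 : HasDerivAt (fun u : ℂ => u ^ 4) (4 * (0 : ℂ) ^ 3 * 1) 0 := by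
        have := hasDerivAt_pow 4 (0 : ℂ)
        simpa using this
      exact ((hasDerivAt_id (0 : ℂ)).add (a1.const_mul A)).add (a2.const_mul B)
    rw [hφ]
    simpa using h1
  have hf' : HasFDerivAt φ ((ContinuousLinearEquiv.refl ℂ ℂ : ℂ ≃L[ℂ] ℂ) : ℂ →L[ℂ] ℂ) 0 := by
    have h1 := hd.hasFDerivAt
    have h2 : ((ContinuousLinearEquiv.refl ℂ ℂ : ℂ ≃L[ℂ] ℂ) : ℂ →L[ℂ] ℂ) = ContinuousLinearMap.toSpanSingleton ℂ (1 : ℂ) := by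
      ext
      simp
    rw [h2]
    exact h1
  obtain ⟨g, hg⟩ : ∃ g : ℂ → ℂ, g = hc.localInverse hf' one_ne_zero := ⟨_, rfl⟩
  have hg0 : g 0 = 0 := by
    have h1 := hc.localInverse_apply_image hf' one_ne_zero
    rw [hφ0] at h1
    rw [hg]
    exact h1
  have hg1 : ContDiffAt ℂ 1 g 0 := by
    have h1 := hc.to_localInverse hf' one_ne_zero
    rw [hφ0] at h1
    rw [hg]
    exact h1
  have hg2 : ∀ᶠ s in nhds (0 : ℂ), φ (g s) = s := by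
    have h1 := (hc.hasStrictFDerivAt' hf' one_ne_zero).eventually_right_inverse
    rw [hφ0] at h1
    rw [hg]
    exact h1
  have hg3 : ∀ᶠ s in nhds (0 : ℂ), DifferentiableAt ℂ g s := by
    have h1 := hg1.eventually (by simp)
    exact h1.mono fun s hs => hs.differentiableAt one_ne_zero
  have hg4 : ∀ᶠ s in nhds (0 : ℂ), ‖g s‖ < δ := by
    have h1 : Filter.Tendsto (fun s => ‖g s‖) (nhds 0) (nhds ‖g 0‖) := hg1.continuousAt.norm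
    rw [hg0, norm_zero] at h1
    exact h1.eventually (gt_mem_nhds hδ0)
  have hsq : Filter.Tendsto (fun v : ℂ => v ^ 2) (nhds 0) (nhds 0) := by
    have h1 : ContinuousAt (fun v : ℂ => v ^ 2) 0 := by fun_prop
    have h2 : Filter.Tendsto (fun v : ℂ => v ^ 2) (nhds 0) (nhds ((0 : ℂ) ^ 2)) := h1
    simpa using h2
  have hall := hsq.eventually (hg2.and (hg3.and hg4))
  obtain ⟨r, hr, hball⟩ := Metric.eventually_nhds_iff_ball.1 hall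
  refine ⟨r, hr, fun v => g (v ^ 2), ?_, ?_, ?_, δ, hδ0, ?_⟩
  · intro v hv
    have h1 : DifferentiableAt ℂ g (v ^ 2) := (hball v hv).2.1
    have h2 : DifferentiableAt ℂ (fun v : ℂ => v ^ 2) v := by fun_prop
    exact (DifferentiableAt.comp v h1 h2).differentiableWithinAt
  · simp [hg0]
  · intro v hv
    obtain ⟨h1, _, h3⟩ := hball v hv
    rw [hφ] at h1
    refine ⟨h1, ?_⟩
    have h4 := w2a_est A B hδ0 hδ h3.le (show ‖(0 : ℂ)‖ ≤ δ by rw [norm_zero]; exact hδ0.le)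
    have h5 : (g (v ^ 2) + A * g (v ^ 2) ^ 3 + B * g (v ^ 2) ^ 4) - (0 + A * (0 : ℂ) ^ 3 + B * (0 : ℂ) ^ 4) = v ^ 2 := by
      have h1' : g (v ^ 2) + A * g (v ^ 2) ^ 3 + B * g (v ^ 2) ^ 4 = v ^ 2 := h1
      rw [h1']
      ring
    rw [h5, sub_zero, norm_pow] at h4
    exact h4
  · intro v hv w hw hwv
    obtain ⟨h1, _, h3⟩ := hball v hv
    rw [hφ] at h1
    have h1' : g (v ^ 2) + A * g (v ^ 2) ^ 3 + B * g (v ^ 2) ^ 4 = v ^ 2 := h1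
    have h4 := w2a_est A B hδ0 hδ hw.le h3.le
    rw [hwv, h1', sub_self, norm_zero, mul_zero] at h4
    exact sub_eq_zero.1 (norm_eq_zero.1 (le_antisymm h4 (norm_nonneg _)))

end Pool.Agent.H49C
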