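import Pool.Agent.Lib.H49C.W1
import Pool.Agent.Lib.H49C.W2A

set_option autoImplicit false

open Metric Topology

namespace Pool.Agent.H49C

theorem w2b_idS (A B U : ℂ) : ps A B U 1 ^ 2 = p1 A B U 1 ^ 3 + A * (4 * (U + A * U ^ 3 + B * U ^ 4)) ^ 2 * p1 A B U 1 +
    B * (4 * (U + A * U ^ 3 + B * U ^ 4)) ^ 3 := by
  unfold ps p1
  ring

theorem w2b_id (A B U : ℂ) :
    ps A B U 1 * p1 A B U 1 * (1 + 3 * A * U ^ 2 + 4 * B * U ^ 3) + 2 * (U + A * U ^ 3 + B * U ^ 4) *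
      ((10 * A * U + 60 * B * U ^ 2 - 20 * A ^ 2 * U ^ 3 - 20 * A * B * U ^ 4 - 6 * (A ^ 3 + 8 * B ^ 2) * U ^ 5) *
        p1 A B U 1 - 2 * ps A B U 1 * (-4 * A * U - 24 * B * U ^ 2 + 4 * A ^ 2 * U ^ 3)) =
    p1 A B U 1 ^ 3 + 48 * A * (U + A * U ^ 3 + B * U ^ 4) ^ 2 * p1 A B U 1 +
      256 * B * (U + A * U ^ 3 + B * U ^ 4) ^ 3 := by
  unfold ps p1
  ring

theorem w2b_dS (A B U : ℂ) : HasDerivAt (fun U => ps A B U 1)
    (10 * A * U + 60 * B * U ^ 2 - 20 * A ^ 2 * U ^ 3 - 20 * A * B * U ^ 4 - 6 * (A ^ 3 + 8 * B ^ 2) * U ^ 5) U := by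
  have h := ((((((hasDerivAt_const U (1 : ℂ)).add ((hasDerivAt_pow 2 U).const_mul (5 * A))).add
    ((hasDerivAt_pow 3 U).const_mul (20 * B))).sub ((hasDerivAt_pow 4 U).const_mul (5 * A ^ 2))).sub
    ((hasDerivAt_pow 5 U).const_mul (4 * A * B))).sub ((hasDerivAt_pow 6 U).const_mul (A ^ 3 + 8 * B ^ 2)))
  refine (h.congr_deriv ?_).congr_of_eventuallyEq (Filter.Eventually.of_forall fun x => ?_)
  · norm_num
    ring
  · simp only [ps, Pi.add_apply, Pi.sub_apply]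
    ring

theorem w2b_dP (A B U : ℂ) : HasDerivAt (fun U => p1 A B U 1)
    (-4 * A * U - 24 * B * U ^ 2 + 4 * A ^ 2 * U ^ 3) U := by
  have h := ((((hasDerivAt_const U (1 : ℂ)).sub ((hasDerivAt_pow 2 U).const_mul (2 * A))).sub
    ((hasDerivAt_pow 3 U).const_mul (8 * B))).add ((hasDerivAt_pow 4 U).const_mul (A ^ 2)))
  refine (h.congr_deriv ?_).congr_of_eventuallyEq (Filter.Eventually.of_forall fun x => ?_)
  · norm_num
    ring
  · simp only [p1, Pi.add_apply, Pi.sub_apply]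
    ring

theorem w2b_u {A B : ℂ} {r₀ : ℝ} {u : ℂ → ℂ} (hu : DifferentiableOn ℂ u (ball 0 r₀))
    (huv : ∀ v ∈ ball (0 : ℂ) r₀, u v + A * u v ^ 3 + B * u v ^ 4 = v ^ 2) {v : ℂ} (hv : v ∈ ball (0 : ℂ) r₀) :
    HasDerivAt u (deriv u v) v ∧ deriv u v * (1 + 3 * A * u v ^ 2 + 4 * B * u v ^ 3) = 2 * v := by
  have h1 : HasDerivAt u (deriv u v) v := (hu.differentiableAt (isOpen_ball.mem_nhds hv)).hasDerivAt
  refine ⟨h1, ?_⟩
  have h2 : HasDerivAt (fun v => u v + A * u v ^ 3 + B * u v ^ 4)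
      (deriv u v * (1 + 3 * A * u v ^ 2 + 4 * B * u v ^ 3)) v := by
    have a1 := (h1.pow 3).const_mul A
    have a2 := (h1.pow 4).const_mul B
    refine (((h1.add a1).add a2).congr_deriv ?_).congr_of_eventuallyEq (Filter.Eventually.of_forall fun x => ?_)
    · norm_num
      ring
    · simp only [Pi.add_apply, Pi.pow_apply]
  have h3 : HasDerivAt (fun v : ℂ => v ^ 2) (2 * v) v := by
    simpa using hasDerivAt_pow 2 v
  have h4 : (fun v => u v + A * u v ^ 3 + B * u v ^ 4) =ᶠ[𝓝 v] fun v => v ^ 2 := by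
    filter_upwards [isOpen_ball.mem_nhds hv] with w hw
    exact huv w hw
  exact h2.unique (h3.congr_of_eventuallyEq h4)

theorem w2b_D {A B : ℂ} {u : ℂ → ℂ} {v u' : ℂ} (h1 : HasDerivAt u u' v)
    (hu' : u' * (1 + 3 * A * u v ^ 2 + 4 * B * u v ^ 3) = 2 * v)
    (huv : u v + A * u v ^ 3 + B * u v ^ 4 = v ^ 2) (hP : p1 A B (u v) 1 ≠ 0) :
    ∃ D', HasDerivAt (fun v => 2 * ps A B (u v) 1 * v / p1 A B (u v) 1 ^ 2) D' v ∧
      D' * (1 + 3 * A * u v ^ 2 + 4 * B * u v ^ 3) =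
        2 * (1 + 3 * A * (4 * v ^ 2 / p1 A B (u v) 1) ^ 2 + 4 * B * (4 * v ^ 2 / p1 A B (u v) 1) ^ 3) := by
  have hS := (w2b_dS A B (u v)).comp v h1
  have hP' := (w2b_dP A B (u v)).comp v h1
  have hD := ((hS.const_mul 2).mul (hasDerivAt_id v)).div (hP'.pow 2) (pow_ne_zero 2 hP)
  refine ⟨_, hD.congr_of_eventuallyEq (Filter.Eventually.of_forall fun x => rfl), ?_⟩
  simp only [Function.comp_apply, id, Pi.mul_apply, Pi.pow_apply, Nat.cast_ofNat, Nat.add_one_sub_one, pow_one, mul_one]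
  have hid := w2b_id A B (u v)
  rw [div_mul_eq_mul_div, div_eq_iff (pow_ne_zero 2 (pow_ne_zero 2 hP))]
  have hR : 2 * (1 + 3 * A * (4 * v ^ 2 / p1 A B (u v) 1) ^ 2 + 4 * B * (4 * v ^ 2 / p1 A B (u v) 1) ^ 3) *
      (p1 A B (u v) 1 ^ 2) ^ 2 = 2 * (p1 A B (u v) 1 ^ 4 + 48 * A * (v ^ 2) ^ 2 * p1 A B (u v) 1 ^ 2 +
        256 * B * (v ^ 2) ^ 3 * p1 A B (u v) 1) := by
    field_simp
    ring
  rw [hR]
  rw [huv] at hid
  linear_combination (2 * (10 * A * u v + 60 * B * u v ^ 2 - 20 * A ^ 2 * u v ^ 3 - 20 * A * B * u v ^ 4 -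
    6 * (A ^ 3 + 8 * B ^ 2) * u v ^ 5) * v * p1 A B (u v) 1 ^ 2 -
    4 * ps A B (u v) 1 * v * p1 A B (u v) 1 * (-4 * A * u v - 24 * B * u v ^ 2 + 4 * A ^ 2 * u v ^ 3)) * hu' +
    2 * p1 A B (u v) 1 * hid

/-- Chunk W2B (M). The elliptic integral T near the origin of the curve, with T (2 P) = 2 T (P).
Notation: m(v) = 1 + 3 A u^2 + 4 B u^3 (u = u v), P(v) = p1 A B (u v) 1 = 1 - 2 A u^2 - 8 B u^3 + A^2 u^4, S(v) = ps A B (u v) 1,
D(v) = 2 S v / P^2.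
PROOF. All of m, P, S tend to 1 as v → 0 (‖u v‖ ≤ 2 ‖v‖^2), so shrink the radius to r ≤ r0 (r0, u, δ from the hypotheses) such that m ≠ 0 on ball 0 r; T := primitive of
1 / m on ball 0 r with T 0 = 0 (DifferentiableOn.isExactOn_ball; 1 / m is differentiable there). Differentiating hu: u' v * m v = 2 v.
Choose r' < r such that for ‖v‖ < r': P ≠ 0, ‖D v‖ ≤ 4 ‖v‖, 4 r' ≤ r, ‖4 v^2 / P‖ < δ.
(a) u (D v) = 4 v^2 / P: w := 4 v^2 / P satisfies w + A w^3 + B w^4 = (D v)^2: multiply by P^4: 4 v^2 P^3 + A 64 v^6 P + B 256 v^8 = 4 S^2 v^2 with v^2 = qf A B u 1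
(the identity ps^2 = p1^3 + A (4 qf)^2 p1 + B (4 qf)^3, ring); then uniqueness hδ.
(b) T (D v) = 2 T v on ball 0 r': both vanish at 0 (D 0 = 0); derivatives: T'(D v) D'(v) = D'(v) / m(D v) and 2 / m(v). Claim D' v * m v = 2 * m (D v).
With φ = qf A B u 1 = v^2, S' = dS/du * 2 v / m, P' = dP/du * 2 v / m: D' = 2 S / P^2 + 2 v (S' P - 2 S P') / P^3, so
D' m P^3 / 2 = S P m + 2 φ (dS P - 2 S dP) (dS, dP derivatives with respect to u) and m (D v) = 1 + 3 A (4 φ / P)^2 + 4 B (4 φ / P)^3; the claim is the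
polynomial identity S P m + 2 φ (dS P - 2 S dP) = P^3 + 48 A φ^2 P + 256 B φ^3 (ring in u, A, B; checked). Conclude by constancy of a function with
derivative 0 on a ball (Convex.is_const_of_fderivWithin_eq_zero or IsOpen.is_const_of_deriv_eq_zero with ball preconnected). -/
theorem loc_T {A B : ℂ} {r₀ : ℝ} (hr₀ : 0 < r₀) {u : ℂ → ℂ} (hu : DifferentiableOn ℂ u (ball 0 r₀))
    (hu0 : u 0 = 0)
    (huv : ∀ v ∈ ball (0 : ℂ) r₀, u v + A * u v ^ 3 + B * u v ^ 4 = v ^ 2 ∧ ‖u v‖ ≤ 2 * ‖v‖ ^ 2)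
    {δ : ℝ} (hδ : 0 < δ)
    (huniq : ∀ v ∈ ball (0 : ℂ) r₀, ∀ w : ℂ, ‖w‖ < δ → w + A * w ^ 3 + B * w ^ 4 = v ^ 2 →
      w = u v) :
    ∃ r > 0, r ≤ r₀ ∧ ∃ T : ℂ → ℂ, DifferentiableOn ℂ T (ball 0 r) ∧ T 0 = 0 ∧ deriv T 0 = 1 ∧
      ∃ r' > 0, r' ≤ r ∧ ∀ v ∈ ball (0 : ℂ) r', p1 A B (u v) 1 ≠ 0 ∧
        2 * ps A B (u v) 1 * v / p1 A B (u v) 1 ^ 2 ∈ ball (0 : ℂ) r ∧
        ‖2 * ps A B (u v) 1 * v / p1 A B (u v) 1 ^ 2‖ ≤ 4 * ‖v‖ ∧
        u (2 * ps A B (u v) 1 * v / p1 A B (u v) 1 ^ 2) = 4 * v ^ 2 / p1 A B (u v) 1 ∧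
        T (2 * ps A B (u v) 1 * v / p1 A B (u v) 1 ^ 2) = 2 * T v := by
  have hu1 : ∀ v ∈ ball (0 : ℂ) r₀, u v + A * u v ^ 3 + B * u v ^ 4 = v ^ 2 := fun v hv => (huv v hv).1
  have h0 : (0 : ℂ) ∈ ball (0 : ℂ) r₀ := mem_ball_self hr₀
  have hc : ContinuousAt u 0 := (hu.differentiableAt (isOpen_ball.mem_nhds h0)).continuousAt
  have hm : ContinuousAt (fun v => 1 + 3 * A * u v ^ 2 + 4 * B * u v ^ 3) 0 := by fun_prop
  have hm0 : ∀ᶠ v in 𝓝 (0 : ℂ), 1 + 3 * A * u v ^ 2 + 4 * B * u v ^ 3 ≠ 0 := by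
    refine hm.eventually_ne ?_
    rw [hu0]
    norm_num
  have hP : ContinuousAt (fun v => p1 A B (u v) 1) 0 := by
    unfold p1
    fun_prop
  have hS : ContinuousAt (fun v => ps A B (u v) 1) 0 := by
    unfold ps
    fun_prop
  have hP1 : p1 A B (u 0) 1 = 1 := by
    rw [hu0]
    simp [p1]
  have hS1 : ps A B (u 0) 1 = 1 := by
    rw [hu0]
    simp [ps]
  have hP0 : ∀ᶠ v in 𝓝 (0 : ℂ), p1 A B (u v) 1 ≠ 0 := hP.eventually_ne (by rw [hP1]; exact one_ne_zero)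
  have hSP : ContinuousAt (fun v => ‖2 * ps A B (u v) 1 / p1 A B (u v) 1 ^ 2‖) 0 := by
    refine ((hS.const_mul 2).div₀ (hP.pow 2) ?_).norm
    rw [Pi.pow_apply, hP1]
    norm_num
  have hSP0 : ∀ᶠ v in 𝓝 (0 : ℂ), ‖2 * ps A B (u v) 1 / p1 A B (u v) 1 ^ 2‖ < 4 := by
    refine hSP.eventually_lt_const ?_
    beta_reduce
    rw [hP1, hS1]
    norm_num
  have hW : ContinuousAt (fun v : ℂ => ‖4 * v ^ 2 / p1 A B (u v) 1‖) 0 := by
    refine ContinuousAt.norm (ContinuousAt.div₀ (by fun_prop) hP ?_)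
    rw [hP1]
    norm_num
  have hW0 : ∀ᶠ v in 𝓝 (0 : ℂ), ‖4 * v ^ 2 / p1 A B (u v) 1‖ < δ := by
    refine hW.eventually_lt_const ?_
    beta_reduce
    rw [hP1]
    simpa using hδ
  obtain ⟨r1, hr1, hr1'⟩ := Metric.eventually_nhds_iff_ball.1 hm0
  obtain ⟨r2, hr2, hr2'⟩ := Metric.eventually_nhds_iff_ball.1 (hP0.and (hSP0.and hW0))
  have hr : 0 < min r₀ r1 := lt_min hr₀ hr1
  have hsub : ball (0 : ℂ) (min r₀ r1) ⊆ ball 0 r₀ := ball_subset_ball (min_le_left _ _)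
  have hsub1 : ball (0 : ℂ) (min r₀ r1) ⊆ ball 0 r1 := ball_subset_ball (min_le_right _ _)
  have hex : DifferentiableOn ℂ (fun v => (1 + 3 * A * u v ^ 2 + 4 * B * u v ^ 3)⁻¹) (ball 0 (min r₀ r1)) := by
    have hu2 := hu.mono hsub
    refine DifferentiableOn.inv (by fun_prop) fun v hv => hr1' v (hsub1 hv)
  obtain ⟨T, hT0, hT⟩ := hex.isExactOn_ball.with_val_at 0 0
  refine ⟨min r₀ r1, hr, min_le_left _ _, T, fun v hv => (hT v hv).differentiableAt.differentiableWithinAt, hT0, ?_,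
    min r2 (min r₀ r1 / 4), lt_min hr2 (by linarith), (min_le_right _ _).trans (by linarith), ?_⟩
  · rw [(hT 0 (mem_ball_self hr)).deriv, hu0]
    norm_num
  have hD4 : ∀ v ∈ ball (0 : ℂ) (min r2 (min r₀ r1 / 4)),
      ‖2 * ps A B (u v) 1 * v / p1 A B (u v) 1 ^ 2‖ ≤ 4 * ‖v‖ := by
    intro v hv
    have h1 := (hr2' v (ball_subset_ball (min_le_left _ _) hv)).2.1
    have e1 : 2 * ps A B (u v) 1 * v / p1 A B (u v) 1 ^ 2 = 2 * ps A B (u v) 1 / p1 A B (u v) 1 ^ 2 * v := by ring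
    rw [e1, norm_mul]
    exact mul_le_mul_of_nonneg_right h1.le (norm_nonneg _)
  have hDb : ∀ v ∈ ball (0 : ℂ) (min r2 (min r₀ r1 / 4)),
      2 * ps A B (u v) 1 * v / p1 A B (u v) 1 ^ 2 ∈ ball (0 : ℂ) (min r₀ r1) := by
    intro v hv
    have h1 := hD4 v hv
    rw [mem_ball_zero_iff] at hv ⊢
    have h2 := lt_of_lt_of_le hv (min_le_right _ _)
    linarith
  have hvb : ∀ v ∈ ball (0 : ℂ) (min r2 (min r₀ r1 / 4)), v ∈ ball (0 : ℂ) (min r₀ r1) := by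
    intro v hv
    rw [mem_ball_zero_iff] at hv ⊢
    have h2 := lt_of_lt_of_le hv (min_le_right _ _)
    linarith
  have huD : ∀ v ∈ ball (0 : ℂ) (min r2 (min r₀ r1 / 4)),
      u (2 * ps A B (u v) 1 * v / p1 A B (u v) 1 ^ 2) = 4 * v ^ 2 / p1 A B (u v) 1 := by
    intro v hv
    obtain ⟨h1, -, h2⟩ := hr2' v (ball_subset_ball (min_le_left _ _) hv)
    refine (huniq _ (hsub (hDb v hv)) _ h2 ?_).symm
    have h3 := hu1 v (hsub (hvb v hv))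
    have h4 := w2b_idS A B (u v)
    rw [h3] at h4
    have e1 : (2 * ps A B (u v) 1 * v / p1 A B (u v) 1 ^ 2) ^ 2 =
        4 * ps A B (u v) 1 ^ 2 * v ^ 2 / p1 A B (u v) 1 ^ 4 := by
      rw [div_pow]
      congr 1 <;> ring
    rw [e1, h4]
    field_simp
  have hcon : ∀ v ∈ ball (0 : ℂ) (min r2 (min r₀ r1 / 4)), HasDerivAt
      (fun v => T (2 * ps A B (u v) 1 * v / p1 A B (u v) 1 ^ 2) - 2 * T v) 0 v := by
    intro v hv
    obtain ⟨h1, -, h2⟩ := hr2' v (ball_subset_ball (min_le_left _ _) hv)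
    obtain ⟨u1, u2⟩ := w2b_u hu hu1 (hsub (hvb v hv))
    obtain ⟨D', d1, d2⟩ := w2b_D u1 u2 (hu1 v (hsub (hvb v hv))) h1
    have t1 := (hT _ (hDb v hv)).comp v d1
    have t2 := (hT v (hvb v hv)).const_mul 2
    refine (t1.sub t2).congr_deriv ?_
    have n1 := hr1' v (hsub1 (hvb v hv))
    have n2 := hr1' _ (hsub1 (hDb v hv))
    rw [huD v hv] at n2 ⊢
    rw [sub_eq_zero, inv_mul_eq_iff_eq_mul₀ n2, eq_comm, ← mul_assoc, ← div_eq_mul_inv, div_eq_iff n1, d2, mul_comm]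
  intro v hv
  obtain ⟨h1, -, h2⟩ := hr2' v (ball_subset_ball (min_le_left _ _) hv)
  refine ⟨h1, hDb v hv, hD4 v hv, huD v hv, ?_⟩
  have hr' : 0 < min r2 (min r₀ r1 / 4) := lt_min hr2 (by linarith)
  have h3 := isOpen_ball.is_const_of_deriv_eq_zero (convex_ball (0 : ℂ) (min r2 (min r₀ r1 / 4))).isPreconnected
    (fun v hv => (hcon v hv).differentiableAt.differentiableWithinAt) (fun v hv => (hcon v hv).deriv)
    hv (mem_ball_self hr')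
  simp only [mul_zero, zero_div, hT0, sub_zero] at h3
  exact sub_eq_zero.1 h3

end Pool.Agent.H49C
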