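import Mathlib

set_option autoImplicit false

open Metric

namespace Pool.Agent.H49C

/-- Chunk W2C (M, only Mathlib). The holomorphic local inverse, with balls.
PROOF. T is analytic at 0 with T'(0) ≠ 0: HasStrictDerivAt, K := its localInverse at 0 (T 0 = 0). K is continuous at 0, K 0 = 0, T (K τ) = τ for τ near 0
(eventually_right_inverse), K (T v) = v for v near 0 (eventually_left_inverse), K differentiable near 0 (contDiffAt: the local inverse of a C^n map with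
n = ω or n = 1 is C^n at 0, so differentiable in a neighbourhood: ContDiffAt.to_localInverse / HasStrictFDerivAt.to_localInverse; over ℂ
ContDiffAt.eventually or AnalyticAt.eventually_analyticAt). Choose ρ. -/
theorem inv_fun {T : ℂ → ℂ} {r : ℝ} (hr : 0 < r) (hT : DifferentiableOn ℂ T (ball 0 r))
    (h0 : T 0 = 0) (h1 : deriv T 0 ≠ 0) {r₁ : ℝ} (hr₁ : 0 < r₁) :
    ∃ ρ > 0, ∃ K : ℂ → ℂ, DifferentiableOn ℂ K (ball 0 ρ) ∧ K 0 = 0 ∧ deriv K 0 ≠ 0 ∧
      (∀ τ ∈ ball (0 : ℂ) ρ, ‖K τ‖ < r₁ ∧ T (K τ) = τ) ∧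
      ∃ η > 0, ∀ v : ℂ, ‖v‖ < η → K (T v) = v := by
  have hA : AnalyticAt ℂ T 0 := hT.analyticAt (ball_mem_nhds 0 hr)
  have hsd : HasStrictDerivAt T (deriv T 0) 0 := hA.hasStrictDerivAt
  obtain ⟨K, hK⟩ : ∃ K : ℂ → ℂ, K = hsd.localInverse _ _ _ h1 := ⟨_, rfl⟩
  have hKa : AnalyticAt ℂ K 0 := by
    have h := hA.analyticAt_localInverse h1
    rw [h0] at h
    rw [hK]
    exact h
  have hKT : ∀ᶠ v in nhds (0 : ℂ), K (T v) = v := by
    rw [hK]
    exact hsd.eventually_left_inverse h1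
  have hTK : ∀ᶠ τ in nhds (0 : ℂ), T (K τ) = τ := by
    have h := hsd.eventually_right_inverse h1
    rw [h0] at h
    rw [hK]
    exact h
  have hK0 : K 0 = 0 := by
    have h := hKT.self_of_nhds
    rwa [h0] at h
  have hKd : deriv K 0 ≠ 0 := by
    have h := (hsd.to_localInverse h1).hasDerivAt.deriv
    rw [h0] at h
    rw [hK, h]
    exact inv_ne_zero h1
  have hcont : ∀ᶠ τ in nhds (0 : ℂ), ‖K τ‖ < r₁ := by
    have h2 : ‖K 0‖ < r₁ := by
      rw [hK0, norm_zero]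
      exact hr₁
    exact hKa.continuousAt.norm.eventually_lt continuousAt_const h2
  have hdiff : ∀ᶠ τ in nhds (0 : ℂ), DifferentiableAt ℂ K τ :=
    hKa.eventually_analyticAt.mono fun τ h => h.differentiableAt
  obtain ⟨ρ, hρ, h⟩ := Metric.eventually_nhds_iff.1 ((hTK.and hcont).and hdiff)
  obtain ⟨η, hη, h'⟩ := Metric.eventually_nhds_iff.1 hKT
  refine ⟨ρ, hρ, K, fun τ hτ => (h hτ).2.differentiableWithinAt, hK0, hKd,
    fun τ hτ => ⟨(h hτ).1.2, (h hτ).1.1⟩, η, hη, fun v hv => h' ?_⟩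
  rwa [dist_zero_right]

end Pool.Agent.H49C
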