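import Pool.Agent.Lib.H49C.W2B
import Pool.Agent.Lib.H49C.W2C

set_option autoImplicit false

open Metric Topology

namespace Pool.Agent.H49C

/-- Chunk W2D (S/M). Local parametrization of the Weierstrass curve near its origin, compatible with duplication.
PROOF. loc_inv, loc_T; inv_fun for T with some r₁ first (r₁ = r') gives η (ρ and K depend on r₁, so: apply inv_fun with r₁ := r', get K, η; then shrink ρ so that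
‖K τ‖ < min r' (η / 4) on ball 0 ρ, K continuous at 0). Put v̂ τ := K τ, û τ := u (K τ). For ‖τ‖ < ρ / 2 and D := 2 ps A B û 1 * v̂ / p1^2: T D = 2 T (K τ) = 2 τ = T (K (2 τ)) and
‖D‖ ≤ 4 ‖K τ‖ < η, so K (T D) = D, i.e. K (2 τ) = D. Then û (2 τ) = u D = 4 v̂^2 / p1. The bound: ‖û‖ ≤ 2 ‖K τ‖^2 and ‖K τ‖ ≤ c ‖τ‖ near 0 (K differentiable at 0, K 0 = 0;
shrink ρ: HasDerivAt gives isBigO; or Schwarz lemma). qf A B û 1 = û + A û^3 + B û^4 by unfolding. -/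
theorem loc_par (A B : ℂ) : ∃ ρ > 0, ∃ C : ℝ, ∃ u v : ℂ → ℂ, DifferentiableOn ℂ u (ball 0 ρ) ∧
    DifferentiableOn ℂ v (ball 0 ρ) ∧ u 0 = 0 ∧ v 0 = 0 ∧ deriv v 0 ≠ 0 ∧
    (∀ τ ∈ ball (0 : ℂ) ρ, v τ ^ 2 = qf A B (u τ) 1 ∧ ‖u τ‖ ≤ C * ‖τ‖ ^ 2 ∧
      p1 A B (u τ) 1 ≠ 0) ∧
    ∀ τ ∈ ball (0 : ℂ) (ρ / 2), u (2 * τ) * p1 A B (u τ) 1 = 4 * v τ ^ 2 ∧
      v (2 * τ) * p1 A B (u τ) 1 ^ 2 = 2 * ps A B (u τ) 1 * v τ := by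
  obtain ⟨r0, hr0, u, hu, hu0, huv, δ, hδ, huniq⟩ := loc_inv A B
  obtain ⟨r, hr, hrr0, T, hT, hT0, hT1, r', hr', hr'r, h⟩ := loc_T hr0 hu hu0 huv hδ huniq
  obtain ⟨ρ0, hρ0, K, hK, hK0, hK1, hKT, η, hη, hTK⟩ :=
    inv_fun hr hT hT0 (by rw [hT1]; exact one_ne_zero) hr'
  have hKd : HasDerivAt K (deriv K 0) 0 :=
    (hK.differentiableAt (isOpen_ball.mem_nhds (mem_ball_self hρ0))).hasDerivAt
  obtain ⟨c, hc⟩ := hKd.isBigO_sub.bound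
  have hE : ∀ᶠ τ in 𝓝 (0 : ℂ), ‖K τ‖ < η / 4 := by
    refine hKd.continuousAt.norm.eventually_lt_const ?_
    beta_reduce
    rw [hK0, norm_zero]
    linarith
  obtain ⟨ρ1, hρ1, h1⟩ := Metric.eventually_nhds_iff_ball.1 (hc.and hE)
  have hρ : 0 < min ρ0 ρ1 := lt_min hρ0 hρ1
  have hs0 : ball (0 : ℂ) (min ρ0 ρ1) ⊆ ball 0 ρ0 := ball_subset_ball (min_le_left _ _)
  have hs1 : ball (0 : ℂ) (min ρ0 ρ1) ⊆ ball 0 ρ1 := ball_subset_ball (min_le_right _ _)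
  have hKr : ∀ τ ∈ ball (0 : ℂ) (min ρ0 ρ1), K τ ∈ ball (0 : ℂ) r' := by
    intro τ hτ
    rw [mem_ball_zero_iff]
    exact (hKT τ (hs0 hτ)).1
  have hKr0 : ∀ τ ∈ ball (0 : ℂ) (min ρ0 ρ1), K τ ∈ ball (0 : ℂ) r0 := fun τ hτ =>
    ball_subset_ball (hr'r.trans hrr0) (hKr τ hτ)
  refine ⟨min ρ0 ρ1, hρ, 2 * c ^ 2, fun τ => u (K τ), K, hu.comp (hK.mono hs0) hKr0, hK.mono hs0, ?_, hK0, hK1, ?_, ?_⟩
  · beta_reduce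
    rw [hK0, hu0]
  · intro τ hτ
    obtain ⟨e1, e2⟩ := huv _ (hKr0 τ hτ)
    obtain ⟨e3, -⟩ := h1 τ (hs1 hτ)
    rw [hK0, sub_zero, sub_zero] at e3
    refine ⟨?_, ?_, (h _ (hKr τ hτ)).1⟩
    · rw [← e1, qf]
      ring
    · have e4 := pow_le_pow_left₀ (norm_nonneg _) e3 2
      calc ‖u (K τ)‖ ≤ 2 * ‖K τ‖ ^ 2 := e2
        _ ≤ 2 * (c * ‖τ‖) ^ 2 := by linarith
        _ = 2 * c ^ 2 * ‖τ‖ ^ 2 := by ring
  · intro τ hτ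
    have hτ1 : τ ∈ ball (0 : ℂ) (min ρ0 ρ1) := ball_subset_ball (by linarith) hτ
    have hτ2 : 2 * τ ∈ ball (0 : ℂ) (min ρ0 ρ1) := by
      rw [mem_ball_zero_iff] at hτ ⊢
      rw [norm_mul, Complex.norm_ofNat]
      linarith
    obtain ⟨d1, d2, d3, d4, d5⟩ := h _ (hKr τ hτ1)
    have e1 : K (T (2 * ps A B (u (K τ)) 1 * K τ / p1 A B (u (K τ)) 1 ^ 2)) =
        2 * ps A B (u (K τ)) 1 * K τ / p1 A B (u (K τ)) 1 ^ 2 := by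
      refine hTK _ ?_
      have := (h1 τ (hs1 hτ1)).2
      linarith
    rw [d5, (hKT τ (hs0 hτ1)).2] at e1
    beta_reduce
    rw [e1, d4]
    exact ⟨div_mul_cancel₀ _ d1, div_mul_cancel₀ _ (pow_ne_zero 2 d1)⟩

end Pool.Agent.H49C
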