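import Mathlib

set_option autoImplicit false

open Metric

namespace Pool.Agent.H49C

/-- Chunk W3 (M, only Mathlib). The functional equation h (2 τ) = h (τ)^4 m (τ).
PROOF. C ≥ 0 may be assumed (replace it by |C| or max). Choose ρ' ≤ ρ with C ρ'^3 ≤ 1/2: there m ≠ 0, ‖m - 1‖ ≤ 1/2, L τ := Complex.log (m τ) is holomorphic (m τ ∈ slitPlane)
and ‖L τ‖ ≤ 2 ‖m τ - 1‖ ≤ 2 C ‖τ‖^3 (Complex.norm_log_one_add_half_le_self or its like; exp (L τ) = m τ). Put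
H τ := ∑' j : ℕ, 4^j * L (τ / 2^(j+1)) on ball 0 ρ' : the terms are bounded by 4^j 2 C (ρ' / 2^(j+1))^3 ≤ 2 C ρ'^3 (1/2)^j, so H is holomorphic on the ball
(differentiableOn_tsum_of_summable_norm). For ‖τ‖ < ρ' / 2: H (2 τ) = L τ + ∑' j, 4^(j+1) L (2 τ / 2^(j+2)) = L τ + 4 H τ (Summable.tsum_eq_zero_add).
h := exp ∘ H. -/
theorem fac {m : ℂ → ℂ} {ρ C : ℝ} (hρ : 0 < ρ) (hm : DifferentiableOn ℂ m (ball 0 ρ))
    (hC : ∀ τ ∈ ball (0 : ℂ) ρ, ‖m τ - 1‖ ≤ C * ‖τ‖ ^ 3) :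
    ∃ ρ' > 0, ρ' ≤ ρ ∧ ∃ h : ℂ → ℂ, DifferentiableOn ℂ h (ball 0 ρ') ∧
      (∀ τ ∈ ball (0 : ℂ) ρ', h τ ≠ 0) ∧
      ∀ τ ∈ ball (0 : ℂ) (ρ' / 2), h (2 * τ) = h τ ^ 4 * m τ := by
  obtain ⟨C₁, hC₁⟩ : ∃ C₁ : ℝ, C₁ = |C| := ⟨_, rfl⟩
  have hC0 : 0 ≤ C₁ := by rw [hC₁]; exact abs_nonneg C
  obtain ⟨ρ', hρ'⟩ : ∃ ρ' : ℝ, ρ' = min ρ (min 1 (1 / (2 * (C₁ + 1)))) := ⟨_, rfl⟩
  have hρ0 : 0 < ρ' := by
    rw [hρ']
    exact lt_min hρ (lt_min one_pos (by positivity))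
  have hρρ : ρ' ≤ ρ := by rw [hρ']; exact min_le_left _ _
  have hρ1 : ρ' ≤ 1 := by rw [hρ']; exact (min_le_right _ _).trans (min_le_left _ _)
  have hρ2 : ρ' ≤ 1 / (2 * (C₁ + 1)) := by
    rw [hρ']; exact (min_le_right _ _).trans (min_le_right _ _)
  have hCρ : C₁ * ρ' ≤ 1 / 2 := by
    rw [le_div_iff₀ (by positivity)] at hρ2
    linarith
  have hCρ3 : C₁ * ρ' ^ 3 ≤ 1 / 2 := by
    have h1 : ρ' ^ 3 ≤ ρ' := by
      calc ρ' ^ 3 ≤ ρ' ^ 1 := pow_le_pow_of_le_one hρ0.le hρ1 (by norm_num)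
        _ = ρ' := pow_one _
    exact (mul_le_mul_of_nonneg_left h1 hC0).trans hCρ
  have hm1 : ∀ τ ∈ ball (0 : ℂ) ρ', ‖m τ - 1‖ ≤ C₁ * ‖τ‖ ^ 3 := by
    intro τ hτ
    have h1 := hC τ (ball_subset_ball hρρ hτ)
    refine h1.trans (mul_le_mul_of_nonneg_right ?_ (by positivity))
    rw [hC₁]
    exact le_abs_self C
  have hm2 : ∀ τ ∈ ball (0 : ℂ) ρ', ‖m τ - 1‖ ≤ 1 / 2 := by
    intro τ hτ
    refine (hm1 τ hτ).trans ((mul_le_mul_of_nonneg_left ?_ hC0).trans hCρ3)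
    rw [mem_ball_zero_iff] at hτ
    exact pow_le_pow_left₀ (norm_nonneg _) hτ.le 3
  have hsl : ∀ τ ∈ ball (0 : ℂ) ρ', m τ ∈ Complex.slitPlane := by
    intro τ hτ
    have h1 := Complex.mem_slitPlane_of_norm_lt_one (z := m τ - 1) (by linarith [hm2 τ hτ])
    rwa [add_sub_cancel] at h1
  obtain ⟨L, hL⟩ : ∃ L : ℂ → ℂ, ∀ τ, L τ = Complex.log (m τ) := ⟨_, fun _ => rfl⟩
  have hLb : ∀ τ ∈ ball (0 : ℂ) ρ', ‖L τ‖ ≤ 2 * C₁ * ‖τ‖ ^ 3 := by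
    intro τ hτ
    have h1 := Complex.norm_log_one_add_half_le_self (z := m τ - 1) (hm2 τ hτ)
    rw [add_sub_cancel, ← hL] at h1
    have h2 := hm1 τ hτ
    have h3 := norm_nonneg (m τ - 1)
    linarith
  have hLd : DifferentiableOn ℂ L (ball 0 ρ') := by
    have h1 : L = fun τ => Complex.log (m τ) := funext hL
    rw [h1]
    exact (hm.mono (ball_subset_ball hρρ)).clog hsl
  obtain ⟨F, hF⟩ : ∃ F : ℕ → ℂ → ℂ, ∀ j τ, F j τ = 4 ^ j * L (τ / 2 ^ (j + 1)) := ⟨_, fun _ _ => rfl⟩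
  have hin : ∀ (j : ℕ), ∀ τ ∈ ball (0 : ℂ) ρ', τ / 2 ^ (j + 1) ∈ ball (0 : ℂ) ρ' := by
    intro j τ hτ
    rw [mem_ball_zero_iff] at hτ ⊢
    rw [norm_div, norm_pow, Complex.norm_ofNat]
    exact (div_le_self (norm_nonneg _) (one_le_pow₀ (by norm_num))).trans_lt hτ
  have hFb : ∀ (j : ℕ), ∀ τ ∈ ball (0 : ℂ) ρ', ‖F j τ‖ ≤ (1 / 2 : ℝ) ^ j := by
    intro j τ hτ
    have h1 := hLb _ (hin j τ hτ)
    rw [mem_ball_zero_iff] at hτ
    rw [hF, norm_mul, norm_pow, Complex.norm_ofNat]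
    rw [norm_div, norm_pow, Complex.norm_ofNat] at h1
    have h2 : ‖τ‖ ^ 3 ≤ ρ' ^ 3 := pow_le_pow_left₀ (norm_nonneg _) hτ.le 3
    have h3 : 2 * C₁ * (‖τ‖ / 2 ^ (j + 1)) ^ 3 ≤ 1 / (8 ^ (j + 1) : ℝ) := by
      rw [div_pow, ← pow_mul, mul_comm (j + 1) 3, pow_mul]
      have h4 : ((2 : ℝ) ^ 3) = 8 := by norm_num
      rw [h4, ← mul_div_assoc]
      refine div_le_div_of_nonneg_right ?_ (by positivity)
      have h5 := mul_le_mul_of_nonneg_left h2 hC0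
      linarith
    calc (4 : ℝ) ^ j * ‖L (τ / 2 ^ (j + 1))‖ ≤ 4 ^ j * (1 / (8 ^ (j + 1) : ℝ)) :=
          mul_le_mul_of_nonneg_left (h1.trans h3) (by positivity)
      _ ≤ (1 / 2 : ℝ) ^ j := by
          have h6 : (8 : ℝ) ^ (j + 1) = 4 ^ j * 2 ^ j * 8 := by
            rw [pow_succ, ← mul_pow]
            norm_num
          rw [h6, one_div_pow]
          have h7 : (4 : ℝ) ^ j * (1 / (4 ^ j * 2 ^ j * 8)) = (1 / 8) * (1 / 2 ^ j) := by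
            field_simp
          rw [h7]
          have h8 : (0 : ℝ) < 1 / 2 ^ j := by positivity
          linarith
  have hsum : Summable (fun j : ℕ => (1 / 2 : ℝ) ^ j) :=
    summable_geometric_of_lt_one (by norm_num) (by norm_num)
  have hFd : ∀ j, DifferentiableOn ℂ (F j) (ball 0 ρ') := by
    intro j
    have h1 : F j = fun τ => 4 ^ j * L (τ / 2 ^ (j + 1)) := funext (hF j)
    rw [h1]
    refine DifferentiableOn.const_mul ?_ _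
    refine DifferentiableOn.comp (t := ball 0 ρ') (g := L) hLd ?_ (hin j)
    exact (differentiable_id.div_const _).differentiableOn
  have hHd : DifferentiableOn ℂ (fun τ => ∑' j, F j τ) (ball 0 ρ') :=
    Complex.differentiableOn_tsum_of_summable_norm hsum hFd isOpen_ball fun i w hw => hFb i w hw
  refine ⟨ρ', hρ0, hρρ, fun τ => Complex.exp (∑' j, F j τ), hHd.cexp,
    fun τ _ => Complex.exp_ne_zero _, ?_⟩
  intro τ hτ
  have hτ' : τ ∈ ball (0 : ℂ) ρ' := ball_subset_ball (by linarith) hτ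
  have h2τ : 2 * τ ∈ ball (0 : ℂ) ρ' := by
    rw [mem_ball_zero_iff] at hτ ⊢
    rw [norm_mul, Complex.norm_ofNat]
    linarith
  have hs2 : Summable (fun j => F j (2 * τ)) :=
    Summable.of_norm_bounded hsum fun j => hFb j _ h2τ
  have h1 : ∑' j, F j (2 * τ) = L τ + 4 * ∑' j, F j τ := by
    rw [hs2.tsum_eq_zero_add, ← tsum_mul_left]
    congr 1
    · rw [hF, pow_zero, one_mul, zero_add, pow_one, mul_div_cancel_left₀ _ (by norm_num)]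
    · refine tsum_congr fun j => ?_
      rw [hF, hF, pow_succ 4 j, pow_succ 2 (j + 1), mul_comm (2 : ℂ) τ,
        mul_div_mul_right _ _ (by norm_num)]
      ring
  change Complex.exp (∑' j, F j (2 * τ)) = Complex.exp (∑' j, F j τ) ^ 4 * m τ
  rw [h1, Complex.exp_add, hL, Complex.exp_log (Complex.slitPlane_ne_zero (hsl τ hτ')),
    ← Complex.exp_nat_mul, mul_comm (m τ)]
  norm_num

end Pool.Agent.H49C
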