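import Mathlib

set_option autoImplicit false

open Metric

namespace Pool.Agent.H49C

/-- The approximation `Φ^[N] (F (τ / 2 ^ N))`. -/
noncomputable def w4_app {E : Type*} (Φ : E → E) (F : ℂ → E) (N : ℕ) (τ : ℂ) : E :=
  Φ^[N] (F (τ / 2 ^ N))

theorem w4_succ {E : Type*} {Φ : E → E} {F : ℂ → E} {ρ : ℝ}
    (hfe : ∀ τ ∈ ball (0 : ℂ) (ρ / 2), F (2 * τ) = Φ (F τ)) {N : ℕ} {τ : ℂ}
    (h : ‖τ‖ < ρ * 2 ^ N) : w4_app Φ F (N + 1) τ = w4_app Φ F N τ := by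
  have h2 : (0 : ℝ) < 2 ^ N := by positivity
  have h1 : τ / 2 ^ (N + 1) ∈ ball (0 : ℂ) (ρ / 2) := by
    rw [mem_ball_zero_iff, norm_div, norm_pow, Complex.norm_ofNat, div_lt_iff₀ (by positivity),
      pow_succ]
    linarith
  have h3 := hfe _ h1
  have h4 : 2 * (τ / 2 ^ (N + 1)) = τ / 2 ^ N := by
    rw [pow_succ]
    field_simp
  rw [h4] at h3
  unfold w4_app
  rw [Function.iterate_succ_apply, ← h3]

theorem w4_const {E : Type*} {Φ : E → E} {F : ℂ → E} {ρ : ℝ} (hρ : 0 < ρ)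
    (hfe : ∀ τ ∈ ball (0 : ℂ) (ρ / 2), F (2 * τ) = Φ (F τ)) {N : ℕ} {τ : ℂ}
    (h : ‖τ‖ < ρ * 2 ^ N) (k : ℕ) : w4_app Φ F (N + k) τ = w4_app Φ F N τ := by
  induction k with
  | zero => rfl
  | succ k ih =>
    rw [← ih, ← add_assoc]
    refine w4_succ hfe (h.trans_le ?_)
    refine mul_le_mul_of_nonneg_left ?_ hρ.le
    exact pow_le_pow_right₀ (by norm_num) (Nat.le_add_right _ _)

theorem w4_ex {ρ : ℝ} (hρ : 0 < ρ) (x : ℝ) : ∃ N : ℕ, x < ρ * 2 ^ N := by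
  obtain ⟨N, hN⟩ := pow_unbounded_of_one_lt (x / ρ) (by norm_num : (1 : ℝ) < 2)
  exact ⟨N, by rwa [div_lt_iff₀' hρ] at hN⟩

/-- Chunk W4 (S/M, only Mathlib). Extension of a solution of F (2 τ) = Φ (F τ) to the whole plane.
PROOF. For N with ‖τ‖ / 2^N < ρ put G_N τ := Φ^[N] (F (τ / 2^N)); G_(N+1) τ = Φ^[N] (Φ (F (τ / 2^(N+1)))) = Φ^[N] (F (τ / 2^N)) = G_N τ if ‖τ‖ / 2^N < ρ
(τ / 2^(N+1) ∈ ball 0 (ρ/2)). So G τ := G_(N τ) τ with N τ := Nat.find (exists N, ‖τ‖ / 2^N < ρ) equals G_N τ for all N ≥ N τ (G_N is eventually constant), G is differentiable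
(near τ it equals one G_N, N large: Φ^[N] differentiable, F differentiable at τ / 2^N), G = F on ball 0 ρ (N = 0) and G (2 τ) = G_(N+1) (2 τ) = Φ^[N+1] (F (τ / 2^N)) =
Φ (G_N τ) = Φ (G τ). -/
theorem ext_fun {E : Type*} [NormedAddCommGroup E] [NormedSpace ℂ E] {Φ : E → E}
    (hΦ : Differentiable ℂ Φ) {F : ℂ → E} {ρ : ℝ} (hρ : 0 < ρ)
    (hF : DifferentiableOn ℂ F (ball 0 ρ))
    (hfe : ∀ τ ∈ ball (0 : ℂ) (ρ / 2), F (2 * τ) = Φ (F τ)) :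
    ∃ G : ℂ → E, Differentiable ℂ G ∧ (∀ τ ∈ ball (0 : ℂ) ρ, G τ = F τ) ∧
      ∀ τ, G (2 * τ) = Φ (G τ) := by
  classical
  let G : ℂ → E := fun τ => w4_app Φ F (Nat.find (w4_ex hρ ‖τ‖)) τ
  have hG : ∀ (τ : ℂ) (N : ℕ), ‖τ‖ < ρ * 2 ^ N → G τ = w4_app Φ F N τ := by
    intro τ N hN
    have h1 : Nat.find (w4_ex hρ ‖τ‖) ≤ N := Nat.find_min' _ hN
    obtain ⟨k, hk⟩ := Nat.exists_eq_add_of_le h1
    rw [hk]
    exact (w4_const hρ hfe (Nat.find_spec (w4_ex hρ ‖τ‖)) k).symm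
  refine ⟨G, ?_, ?_, ?_⟩
  · intro τ₀
    obtain ⟨N, hN⟩ := w4_ex hρ ‖τ₀‖
    have hopen : IsOpen {τ : ℂ | ‖τ‖ < ρ * 2 ^ N} := isOpen_lt continuous_norm continuous_const
    have hev : G =ᶠ[nhds τ₀] w4_app Φ F N :=
      Filter.eventually_of_mem (hopen.mem_nhds hN) fun τ hτ => hG τ N hτ
    refine DifferentiableAt.congr_of_eventuallyEq ?_ hev
    have h2 : (0 : ℝ) < 2 ^ N := by positivity
    have h1 : τ₀ / 2 ^ N ∈ ball (0 : ℂ) ρ := by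
      rw [mem_ball_zero_iff, norm_div, norm_pow, Complex.norm_ofNat, div_lt_iff₀ h2]
      exact hN
    have h3 : DifferentiableAt ℂ F (τ₀ / 2 ^ N) := hF.differentiableAt (isOpen_ball.mem_nhds h1)
    have h4 : DifferentiableAt ℂ (fun τ : ℂ => F (τ / 2 ^ N)) τ₀ :=
      DifferentiableAt.comp (𝕜 := ℂ) (f := fun τ : ℂ => τ / 2 ^ N) (g := F) τ₀ h3
        (differentiableAt_id.div_const _)
    exact DifferentiableAt.comp (𝕜 := ℂ) (f := fun τ : ℂ => F (τ / 2 ^ N)) (g := Φ^[N]) τ₀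
      ((hΦ.iterate N) _) h4
  · intro τ hτ
    rw [mem_ball_zero_iff] at hτ
    rw [hG τ 0 (by simpa using hτ)]
    unfold w4_app
    simp
  · intro τ
    obtain ⟨N, hN⟩ := w4_ex hρ ‖τ‖
    have h1 : ‖2 * τ‖ < ρ * 2 ^ (N + 1) := by
      rw [norm_mul, Complex.norm_ofNat, pow_succ]
      linarith
    rw [hG τ N hN, hG _ _ h1]
    unfold w4_app
    have h4 : 2 * τ / 2 ^ (N + 1) = τ / 2 ^ N := by
      rw [pow_succ]
      field_simp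
    rw [h4, Function.iterate_succ_apply']

/-- Invariant sets. PROOF. Induction on N: for ‖τ‖ < 2^N ρ. -/
theorem ext_mem {E : Type*} {Φ : E → E} {G : ℂ → E} {S : Set E} (hS : ∀ p ∈ S, Φ p ∈ S)
    (hG : ∀ τ, G (2 * τ) = Φ (G τ)) {ρ : ℝ} (hρ : 0 < ρ) (hloc : ∀ τ ∈ ball (0 : ℂ) ρ, G τ ∈ S) :
    ∀ τ, G τ ∈ S := by
  have key : ∀ (N : ℕ) (τ : ℂ), ‖τ‖ < ρ * 2 ^ N → G τ ∈ S := by
    intro N
    induction N with
    | zero =>
      intro τ hτ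
      exact hloc τ (by rw [mem_ball_zero_iff]; simpa using hτ)
    | succ N ih =>
      intro τ hτ
      have h1 : ‖τ / 2‖ < ρ * 2 ^ N := by
        rw [norm_div, Complex.norm_ofNat, div_lt_iff₀ (by norm_num)]
        rw [pow_succ] at hτ
        linarith
      have h2 := hS _ (ih _ h1)
      rw [← hG] at h2
      have h3 : 2 * (τ / 2) = τ := by ring
      rwa [h3] at h2
  intro τ
  obtain ⟨N, hN⟩ := w4_ex hρ ‖τ‖
  exact key N τ hN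

end Pool.Agent.H49C
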