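import Pool.Agent.Lib.H49C.W2D
import Pool.Agent.Lib.H49C.W3
import Pool.Agent.Lib.H49C.W4

set_option autoImplicit false

open Metric

namespace Pool.Agent.H49C

/-- Chunk W5 (S/M). Entire curves on W^2 = X Y^3 + A X^3 Y + B X^4.
PROOF. loc_par gives ρ, C, u, v. m τ := p1 A B (u τ) 1: m - 1 = -2 A u^2 - 8 B u^3 + A^2 u^4, so ‖m τ - 1‖ ≤ C' ‖τ‖^3 on a smaller ball (‖u‖ ≤ C ‖τ‖^2, ‖τ‖ ≤ 1). fac gives ρ', h.
F τ := (h τ * u τ, h τ, h τ ^ 2 * v τ) on ball 0 ρ'. Functional equation F (2 τ) = dbl A B (F τ) for ‖τ‖ < ρ' / 2: h (2 τ) u (2 τ) = h^4 m u (2 τ) = 4 h^4 v^2 = 4 (h^2 v)^2;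
h (2 τ) = h^4 m = p1 A B (h u) h (homogeneous of degree 4: unfold p1, ring); h (2 τ)^2 v (2 τ) = h^8 m^2 v (2 τ) = 2 h^8 ps A B u 1 v = 2 ps A B (h u) h * (h^2 v).
ext_fun (dbl is a polynomial map, Differentiable: fun_prop after unfolding dbl p1 ps) gives G = (X, Y, W); ext_mem with S = cn A B, dbl_cn: on ball 0 ρ' one has
(h^2 v)^2 = h^4 qf A B u 1 = qf A B (h u) h and h ≠ 0. Nonconstant: for small τ ≠ 0, v τ ≠ 0 (deriv v 0 ≠ 0, v 0 = 0), so u τ ≠ 0 (qf A B 0 1 = 0), so X τ ≠ 0, whereas X 0 = h 0 * u 0 = 0, Y 0 = h 0 ≠ 0: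
nc with τ, 0: X τ * Y 0 ≠ 0 = X 0 * Y τ. -/
theorem weier {A B : ℂ} (hAB : 4 * A ^ 3 + 27 * B ^ 2 ≠ 0) : ∃ X Y W : ℂ → ℂ, Ent X Y ∧
    Differentiable ℂ W ∧ ∀ τ, W τ ^ 2 = qf A B (X τ) (Y τ) := by
  obtain ⟨ρ, hρ, C, u, v, hu, hv, hu0, hv0, hdv, h1, h2⟩ := loc_par A B
  obtain ⟨c, hc⟩ : ∃ c : ℝ, c = |C| := ⟨_, rfl⟩
  have hc0 : 0 ≤ c := by rw [hc]; exact abs_nonneg C
  obtain ⟨ρ₁, hρ₁⟩ : ∃ ρ₁ : ℝ, ρ₁ = min ρ 1 := ⟨_, rfl⟩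
  have hρ₁0 : 0 < ρ₁ := by rw [hρ₁]; exact lt_min hρ one_pos
  have hρ₁ρ : ρ₁ ≤ ρ := by rw [hρ₁]; exact min_le_left _ _
  have hρ₁1 : ρ₁ ≤ 1 := by rw [hρ₁]; exact min_le_right _ _
  have hmd : DifferentiableOn ℂ (fun τ => p1 A B (u τ) 1) (ball 0 ρ₁) := by
    have hu' := hu.mono (ball_subset_ball hρ₁ρ)
    unfold p1
    fun_prop
  have hmC : ∀ τ ∈ ball (0 : ℂ) ρ₁, ‖(fun τ => p1 A B (u τ) 1) τ - 1‖ ≤
      (2 * ‖A‖ * c ^ 2 + 8 * ‖B‖ * c ^ 3 + ‖A‖ ^ 2 * c ^ 4) * ‖τ‖ ^ 3 := by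
    intro τ hτ
    have hb := (h1 τ (ball_subset_ball hρ₁ρ hτ)).2.1
    rw [mem_ball_zero_iff] at hτ
    obtain ⟨t, ht⟩ : ∃ t : ℝ, t = ‖τ‖ := ⟨_, rfl⟩
    rw [← ht] at hb hτ ⊢
    have ht0 : 0 ≤ t := by rw [ht]; exact norm_nonneg τ
    have ht1 : t ≤ 1 := hτ.le.trans hρ₁1
    have hub : ‖u τ‖ ≤ c * t ^ 2 := hb.trans (mul_le_mul_of_nonneg_right (by rw [hc]; exact le_abs_self C)
      (by positivity))
    have e1 : (fun τ => p1 A B (u τ) 1) τ - 1 =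
        -(2 * A * u τ ^ 2) + -(8 * B * u τ ^ 3) + A ^ 2 * u τ ^ 4 := by
      change p1 A B (u τ) 1 - 1 = _
      unfold p1
      ring
    rw [e1]
    have e2 : ∀ k : ℕ, 2 ≤ k → ‖u τ‖ ^ k ≤ c ^ k * t ^ 3 := by
      intro k hk
      calc ‖u τ‖ ^ k ≤ (c * t ^ 2) ^ k := pow_le_pow_left₀ (norm_nonneg _) hub k
        _ = c ^ k * t ^ (2 * k) := by rw [mul_pow, ← pow_mul]
        _ ≤ c ^ k * t ^ 3 := mul_le_mul_of_nonneg_left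
            (pow_le_pow_of_le_one ht0 ht1 (by omega)) (by positivity)
    calc ‖-(2 * A * u τ ^ 2) + -(8 * B * u τ ^ 3) + A ^ 2 * u τ ^ 4‖
        ≤ ‖-(2 * A * u τ ^ 2)‖ + ‖-(8 * B * u τ ^ 3)‖ + ‖A ^ 2 * u τ ^ 4‖ := norm_add₃_le
      _ = 2 * ‖A‖ * ‖u τ‖ ^ 2 + 8 * ‖B‖ * ‖u τ‖ ^ 3 + ‖A‖ ^ 2 * ‖u τ‖ ^ 4 := by
          simp only [norm_neg, norm_mul, norm_pow, Complex.norm_ofNat]
      _ ≤ 2 * ‖A‖ * (c ^ 2 * t ^ 3) + 8 * ‖B‖ * (c ^ 3 * t ^ 3) + ‖A‖ ^ 2 * (c ^ 4 * t ^ 3) := by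
          refine add_le_add (add_le_add ?_ ?_) ?_
          · exact mul_le_mul_of_nonneg_left (e2 2 le_rfl) (by positivity)
          · exact mul_le_mul_of_nonneg_left (e2 3 (by norm_num)) (by positivity)
          · exact mul_le_mul_of_nonneg_left (e2 4 (by norm_num)) (by positivity)
      _ = _ := by ring
  obtain ⟨ρ', hρ', hρ'ρ, h, hh, hh0, hhf⟩ := fac hρ₁0 hmd hmC
  have hρ'2 : ρ' ≤ ρ := hρ'ρ.trans hρ₁ρ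
  have hu' := hu.mono (ball_subset_ball hρ'2)
  have hv' := hv.mono (ball_subset_ball hρ'2)
  have hFd : DifferentiableOn ℂ (fun τ => (h τ * u τ, h τ, h τ ^ 2 * v τ)) (ball 0 ρ') :=
    (hh.mul hu').prodMk (hh.prodMk ((hh.pow 2).mul hv'))
  have hΦ : Differentiable ℂ (dbl A B) := by
    unfold dbl p1 ps
    fun_prop
  have hp1h : ∀ a b : ℂ, p1 A B (a * b) a = a ^ 4 * p1 A B b 1 := by
    intro a b
    unfold p1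
    ring
  have hpsh : ∀ a b : ℂ, ps A B (a * b) a = a ^ 6 * ps A B b 1 := by
    intro a b
    unfold ps
    ring
  have hqfh : ∀ a b : ℂ, qf A B (a * b) a = a ^ 4 * qf A B b 1 := by
    intro a b
    unfold qf
    ring
  have hfe : ∀ τ ∈ ball (0 : ℂ) (ρ' / 2), (fun τ => (h τ * u τ, h τ, h τ ^ 2 * v τ)) (2 * τ) =
      dbl A B ((fun τ => (h τ * u τ, h τ, h τ ^ 2 * v τ)) τ) := by
    intro τ hτ
    have hτ2 : τ ∈ ball (0 : ℂ) (ρ / 2) := ball_subset_ball (by linarith) hτ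
    obtain ⟨g1, g2⟩ := h2 τ hτ2
    have g3 := hhf τ hτ
    change (h (2 * τ) * u (2 * τ), h (2 * τ), h (2 * τ) ^ 2 * v (2 * τ)) =
      (4 * (h τ ^ 2 * v τ) ^ 2, p1 A B (h τ * u τ) (h τ), 2 * ps A B (h τ * u τ) (h τ) * (h τ ^ 2 * v τ))
    rw [hp1h, hpsh, g3]
    change (h τ ^ 4 * p1 A B (u τ) 1 * u (2 * τ), h τ ^ 4 * p1 A B (u τ) 1,
      (h τ ^ 4 * p1 A B (u τ) 1) ^ 2 * v (2 * τ)) = _
    refine Prod.ext ?_ (Prod.ext rfl ?_)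
    · change h τ ^ 4 * p1 A B (u τ) 1 * u (2 * τ) = 4 * (h τ ^ 2 * v τ) ^ 2
      linear_combination (h τ ^ 4) * g1
    · change (h τ ^ 4 * p1 A B (u τ) 1) ^ 2 * v (2 * τ) = 2 * (h τ ^ 6 * ps A B (u τ) 1) * (h τ ^ 2 * v τ)
      linear_combination (h τ ^ 8) * g2
  obtain ⟨G, hG, hGF, hG2⟩ := ext_fun hΦ hρ' hFd hfe
  have hmem : ∀ τ, G τ ∈ cn A B := by
    refine ext_mem (S := cn A B) (fun p hp => dbl_cn hAB hp) hG2 hρ' fun τ hτ => ?_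
    rw [hGF τ hτ]
    refine ⟨?_, Or.inr (hh0 τ hτ)⟩
    change (h τ ^ 2 * v τ) ^ 2 = qf A B (h τ * u τ) (h τ)
    rw [hqfh, ← (h1 τ (ball_subset_ball hρ'2 hτ)).1]
    ring
  have hG1 : Differentiable ℂ (fun τ => (G τ).1) := hG.fst
  have hG3 : Differentiable ℂ (fun τ => (G τ).2) := hG.snd
  refine ⟨fun τ => (G τ).1, fun τ => (G τ).2.1, fun τ => (G τ).2.2,
    ⟨hG1, hG3.fst, fun τ => (hmem τ).2, ?_⟩, hG3.snd, fun τ => (hmem τ).1⟩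
  have h0 : (0 : ℂ) ∈ ball (0 : ℂ) ρ' := mem_ball_self hρ'
  have hd : HasDerivAt v (deriv v 0) 0 :=
    (hv'.differentiableAt (isOpen_ball.mem_nhds h0)).hasDerivAt
  have hne := hd.eventually_ne hdv (c := 0)
  have hball : ∀ᶠ τ in nhdsWithin (0 : ℂ) {0}ᶜ, τ ∈ ball (0 : ℂ) ρ' :=
    nhdsWithin_le_nhds (isOpen_ball.mem_nhds h0)
  obtain ⟨τ, hτ1, hτ2⟩ := (hne.and hball).exists
  refine ⟨τ, 0, ?_⟩
  change (G τ).1 * (G 0).2.1 ≠ (G 0).1 * (G τ).2.1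
  rw [hGF τ hτ2, hGF 0 h0]
  change (h τ * u τ) * h 0 ≠ (h 0 * u 0) * h τ
  rw [hu0, mul_zero, zero_mul]
  refine mul_ne_zero (mul_ne_zero (hh0 τ hτ2) ?_) (hh0 0 h0)
  intro hu00
  apply hτ1
  have h3 := (h1 τ (ball_subset_ball hρ'2 hτ2)).1
  rw [hu00] at h3
  have h4 : qf A B 0 1 = 0 := by
    unfold qf
    ring
  rw [h4] at h3
  exact pow_eq_zero_iff (two_ne_zero) |>.mp h3

end Pool.Agent.H49C
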